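import Pool.Agent.Helper56.SW.Defs


/-!
# Statements of the modules for MP_e188f1_nt
A module proves `theorem x (h1 : StA) ... : StX`.
-/

set_option autoImplicit false

namespace Pool.Agent.Helper56.SW

open Finset Matrix

/-- SW1 (a). Pairwise congruent integers in `[-B, B]`. -/
def StAP : Prop :=
  ∀ (B n : ℕ) (S : Finset ℤ), 1 ≤ n → S ⊆ I B → (∀ x ∈ S, ∀ y ∈ S, (n : ℤ) ∣ x - y) →
    (S.card : ℝ) ≤ 2 * B / n + 1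

/-- SW1 (b). Nonzero multiples of `n` in `[-B, B]`. -/
def StMul : Prop :=
  ∀ (B n : ℕ) (S : Finset ℤ), 1 ≤ n → S ⊆ I B → (∀ x ∈ S, x ≠ 0 ∧ (n : ℤ) ∣ x) →
    (S.card : ℝ) ≤ 2 * B / n

/-- SW1 (c). Square roots of one modulo `c`. -/
def StSqrt : Prop := ∀ c : ℕ, 1 ≤ c → ((Γ c).card : ℝ) ≤ 2 * τ c

/-- SW1 (d). Factorisations. -/
def StFac : Prop :=
  ∀ (A B : ℕ) (D : ℝ) (S : Finset ℤ), (∀ j ∈ S, j ≠ 0 ∧ τ j.natAbs ≤ D) →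
    ((((I A) ×ˢ (I B)).filter fun p => p.1 * p.2 ∈ S).card : ℝ) ≤ S.card * (2 * D) ∧
    ((((I A) ×ˢ (I B) ×ˢ (I A)).filter fun p => p.1 * p.2.2 * p.2.1 ∈ S).card : ℝ) ≤
      S.card * (4 * D ^ 2)

/-- SW2. The probability that `g ∣ m`. -/
def StP : Prop :=
  ∀ (c : ℕ) (a b : ℤ) (s A B g : ℕ), 1 ≤ c → IsCoprime a c → IsCoprime b c → 1 ≤ A → A ≤ B →
    g ∣ c → (P c a b s A B g : ℝ) ≤
      2 * 8 ^ s * τ c ^ s * (A : ℝ) ^ (s + 1) * (B : ℝ) ^ s * (1 / g + 1 / B)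

/-- SW3. The average of `gcd(E₁₁, c)`, and the number of boxes. -/
def StS : Prop :=
  ∀ (c : ℕ) (a b : ℤ) (s A B : ℕ), 1 ≤ c → IsCoprime a c → IsCoprime b c → 1 ≤ A → 1 ≤ B →
    (∑ t ∈ bx (J c A) (I B) s, (Int.gcd (E a b t 0 0) c : ℝ) ≤
      (6 * A * B : ℝ) ^ s * (τ c * (2 + c / B))) ∧
    ((bx (J c A) (I B) s).card : ℝ) ≤ (6 * A * B : ℝ) ^ s

/-- SW4. The difference argument. -/
def StT : Prop :=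
  ∀ (c : ℕ) (a b γ : ℤ) (s A B g : ℕ) (D : ℝ), 1 ≤ c → IsCoprime a c → IsCoprime b c →
    (c : ℤ) ∣ γ ^ 2 - 1 → 1 ≤ A → A ≤ B → g ∣ c →
    (∀ j : ℕ, 1 ≤ j → j ≤ 2 * A ^ 2 * B → τ j ≤ D) →
    (T c a b γ s A B g : ℝ) ≤
      V c a b s A B g * (4 * (A : ℝ) ^ 2 +
        (4 * A / g) * (4 * (A : ℝ) ^ 2 * B / c + 1) * (4 * D ^ 2) +
        (4 * (A : ℝ) ^ 2 * B / c) * (4 * D ^ 2)) +
      16 * (A : ℝ) ^ 3 / c * ∑ t ∈ bx (J c A) (I B) s, (Int.gcd (E a b t 0 0) c : ℝ)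

/-- SW5. The count for large `g`. -/
def StT' : Prop :=
  ∀ (c : ℕ) (a b γ : ℤ) (s A B g : ℕ) (D : ℝ), 1 ≤ c → IsCoprime a c → IsCoprime b c →
    (c : ℤ) ∣ γ ^ 2 - 1 → 1 ≤ A → A ≤ B → g ∣ c → B ≤ g →
    (∀ j : ℕ, 1 ≤ j → j ≤ A * B → τ j ≤ D) →
    (T' c a b γ s A B g : ℝ) ≤ P c a b s A B g * (24 * A * D)

/-- SW6 (a). Consequences of the relation. -/
def StRel : Prop :=
  ∀ (c : ℕ) (a b γ : ℤ) (t : List (ℤ × ℤ)) (h1 k1 h2 k2 h3 k3 : ℤ), 1 ≤ c →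
    Rel c a b γ ((h3, k3) :: (h2, k2) :: (h1, k1) :: t) →
    (c : ℤ) ∣ β a b h2 k2 h3 + γ * m a b t h1 ∧
    ∀ g : ℕ, g ∣ c → (g : ℤ) ∣ m a b t h1 → (g : ℤ) ∣ β a b h2 k2 h3 ∧
      (g : ℤ) ∣ 1 + a * h2 * (b * k2) - γ * (E a b t 1 1 + a * h1 * E a b t 1 0)

/-- SW6 (b). Number of `(k₁, k₃)`. -/
def StFib : Prop :=
  ∀ (c : ℕ) (a b γ : ℤ) (t : List (ℤ × ℤ)) (h1 h2 k2 h3 : ℤ) (B : ℕ), 1 ≤ c →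
    IsCoprime a c → IsCoprime b c → (c : ℤ) ∣ γ ^ 2 - 1 → ∀ S : Finset (ℤ × ℤ),
    (∀ p ∈ S, p.1 ∈ I B ∧ p.2 ∈ I B ∧ Rel c a b γ ((h3, p.2) :: (h2, k2) :: (h1, p.1) :: t)) →
    (S.card : ℝ) ≤ (2 * B * (Int.gcd (m a b t h1) c) / c + 1) * (2 * B / c + 1)

/-- SW7. The main count. -/
def StMain : Prop :=
  ∀ (s : ℕ) (K ε : ℝ), 1 ≤ K → 0 < ε → ∃ C : ℝ, 0 < C ∧
    ∀ (c : ℕ) (a b : ℤ) (A B : ℕ), 1 ≤ c → IsCoprime a c → IsCoprime b c → 1 ≤ A → A ≤ B →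
      (B : ℝ) ≤ K * c →
      (N0 c a b (s + 3) A B : ℝ) ≤ C * (c : ℝ) ^ ε *
        ((A : ℝ) ^ (s + 2) * (B : ℝ) ^ s + (A : ℝ) ^ (s + 3) * (B : ℝ) ^ (s + 1) / c)

/-- SW8 (a). Two pairs. -/
def StTwo : Prop :=
  ∀ (K ε : ℝ), 1 ≤ K → 0 < ε → ∃ C : ℝ, 0 < C ∧
    ∀ (c : ℕ) (a b : ℤ) (A B : ℕ), 1 ≤ c → IsCoprime a c → IsCoprime b c → 1 ≤ A → A ≤ B →
      (B : ℝ) ≤ K * c → (N c a b 2 A B : ℝ) ≤ C * (c : ℝ) ^ ε * B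

/-- SW8 (b). Degenerate letters. -/
def StDeg : Prop :=
  ∀ (c : ℕ) (a b : ℤ) (r A B : ℕ), 1 ≤ c → IsCoprime a c → IsCoprime b c → 1 ≤ r →
    (N c a b (r + 1) A B : ℝ) ≤ N0 c a b (r + 1) A B +
      (r + 1) * (2 * A / c + 1) * (2 * B + 1) * N c a b r A (2 * B)

/-- SW9. The general bound, integer version. -/
def StFin : Prop :=
  ∀ (r : ℕ) (K ε : ℝ), 3 ≤ r → 1 ≤ K → 0 < ε → ∃ C : ℝ, 0 < C ∧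
    ∀ (c : ℕ) (a b : ℤ) (A B : ℕ), 1 ≤ c → IsCoprime a c → IsCoprime b c → 1 ≤ A → A ≤ B →
      (B : ℝ) ≤ K * c →
      (N c a b r A B : ℝ) ≤ C * (c : ℝ) ^ ε *
        ((B : ℝ) ^ (r - 1) + (A : ℝ) ^ (r - 1) * (B : ℝ) ^ (r - 3) +
          (A : ℝ) ^ r * (B : ℝ) ^ (r - 2) / c)

/-- SW10. From the original counting function to the integer model. -/
def StTr : Prop :=
  ∀ (r c : ℕ) (a₁ a₂ : (ZMod c)ˣ) (H₁ H₂ : ℝ), 1 ≤ c → 1 ≤ H₁ → H₁ ≤ H₂ →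
    ∃ a b : ℤ, IsCoprime a c ∧ IsCoprime b c ∧
      Nq (2 * r) c a₁ a₂ H₁ H₂ = N c a b r ⌊H₁⌋₊ ⌊H₂⌋₊

end Pool.Agent.Helper56.SW
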