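import Pool.Agent.Helper56.SW.Basic
import Pool.Agent.Helper56.SW.Statements

/-! # MP_e188f1_nt, module M_AP -/

set_option autoImplicit false

namespace Pool.Agent.Helper56.SW

open Finset Matrix

theorem stAP : StAP := by
  intro B n S hn hS hd
  have hn0 : (0 : ℤ) < n := by exact_mod_cast hn
  rcases S.eq_empty_or_nonempty with hE | hne
  · rw [hE, Finset.card_empty]
    push_cast
    positivity
  have hmin : ∀ x ∈ S, S.min' hne ≤ x := fun x hx => S.min'_le x hx
  have hm := S.min'_mem hne
  set y := S.min' hne with hy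
  have h1 : S.card ≤ (Finset.range (2 * B / n + 1)).card := by
    apply Finset.card_le_card_of_injOn (fun x : ℤ => ((x - y) / n).toNat)
    · intro x hx
      have hx' : x ∈ S := hx
      have hxB := mem_I.1 (hS hx')
      have hyB := mem_I.1 (hS hm)
      rw [abs_le] at hxB hyB
      have h2 : x - y ≤ 2 * B := by linarith [hxB.2, hyB.1]
      have h3 : 0 ≤ x - y := by linarith [hmin x hx']
      have h4 : (x - y) / n ≤ (2 * B : ℤ) / n := Int.ediv_le_ediv hn0 h2
      have h5 : 0 ≤ (x - y) / n := Int.ediv_nonneg h3 hn0.le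
      have h6 : ((2 * B / n : ℕ) : ℤ) = (2 * B : ℤ) / n := by push_cast; rfl
      show ((x - y) / n).toNat ∈ ((Finset.range (2 * B / n + 1) : Finset ℕ) : Set ℕ)
      rw [Finset.mem_coe, Finset.mem_range]
      have h7 : ((x - y) / n) ≤ ((2 * B / n : ℕ) : ℤ) := by rw [h6]; exact h4
      omega
    · intro x hx x' hx' h
      have hx1 : x ∈ S := hx
      have hx1' : x' ∈ S := hx'
      have h3 : 0 ≤ x - y := by linarith [hmin x hx1]
      have h3' : 0 ≤ x' - y := by linarith [hmin x' hx1']
      have h5 : 0 ≤ (x - y) / n := Int.ediv_nonneg h3 hn0.le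
      have h5' : 0 ≤ (x' - y) / n := Int.ediv_nonneg h3' hn0.le
      have h8 : (x - y) / n = (x' - y) / n := by
        have h9 : ((x - y) / n).toNat = ((x' - y) / n).toNat := h
        omega
      have h10 := Int.ediv_mul_cancel (hd x hx1 y hm)
      have h11 := Int.ediv_mul_cancel (hd x' hx1' y hm)
      rw [h8, h11] at h10
      linarith
  rw [Finset.card_range] at h1
  have h2 : (S.card : ℝ) ≤ ((2 * B / n : ℕ) : ℝ) + 1 := by exact_mod_cast h1
  have h3 : ((2 * B / n : ℕ) : ℝ) ≤ 2 * B / n := by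
    refine Nat.cast_div_le.trans (le_of_eq ?_)
    push_cast
    rfl
  linarith

theorem stMul : StMul := by
  intro B n S hn hS hd
  have hn0 : (0 : ℤ) < n := by exact_mod_cast hn
  have h1 : S.card ≤ ((I (B / n)).erase 0).card := by
    apply Finset.card_le_card_of_injOn (fun x : ℤ => x / n)
    · intro x hx
      have hx' : x ∈ S := hx
      obtain ⟨h0, h1⟩ := hd x hx'
      have hxB := mem_I.1 (hS hx')
      rw [abs_le] at hxB
      obtain ⟨k, rfl⟩ := h1
      have hk : (n : ℤ) * k / n = k := Int.mul_ediv_cancel_left k hn0.ne'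
      show (n : ℤ) * k / n ∈ (((I (B / n)).erase 0 : Finset ℤ) : Set ℤ)
      rw [hk, Finset.mem_coe, Finset.mem_erase, mem_I, abs_le]
      have hk0 : k ≠ 0 := by
        rintro rfl
        simp at h0
      have h6 : ((B / n : ℕ) : ℤ) = (B : ℤ) / n := by push_cast; rfl
      refine ⟨hk0, ?_, ?_⟩
      · have h7 : -k ≤ (B : ℤ) / n := by
          rw [Int.le_ediv_iff_mul_le hn0]
          nlinarith [hxB.1]
        rw [← h6] at h7
        linarith
      · rw [h6, Int.le_ediv_iff_mul_le hn0]
        nlinarith [hxB.2]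
    · intro x hx x' hx' h
      have h1 := Int.ediv_mul_cancel (hd x hx).2
      have h2 := Int.ediv_mul_cancel (hd x' hx').2
      have h3 : x / n = x' / n := h
      rw [h3, h2] at h1
      exact h1.symm
  have h0 : (0 : ℤ) ∈ I (B / n) := by
    rw [mem_I, abs_zero]
    exact Int.natCast_nonneg _
  rw [Finset.card_erase_of_mem h0, card_I] at h1
  have h2 : (S.card : ℝ) ≤ 2 * ((B / n : ℕ) : ℝ) := by
    have : S.card ≤ 2 * (B / n) := by omega
    exact_mod_cast this
  have h3 : ((B / n : ℕ) : ℝ) ≤ (B : ℝ) / n := Nat.cast_div_le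
  calc (S.card : ℝ) ≤ 2 * ((B / n : ℕ) : ℝ) := h2
    _ ≤ 2 * ((B : ℝ) / n) := by linarith
    _ = 2 * B / n := by ring

end Pool.Agent.Helper56.SW
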