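import Pool.Agent.Helper56.SW.Basic
import Pool.Agent.Helper56.SW.Statements

/-! # MP_e188f1_nt, module M_Deg -/

set_option autoImplicit false

namespace Pool.Agent.Helper56.SW

open Finset Matrix

/-- the word of a list over `ℤ/c` -/
def M_Deg_F (c : ℕ) (a b : ℤ) (l : List (ℤ × ℤ)) : Matrix (Fin 2) (Fin 2) (ZMod c) :=
  (Int.castRingHom (ZMod c)).mapMatrix (E a b l)

theorem M_Deg_rel_iff (c : ℕ) (a b γ : ℤ) (l : List (ℤ × ℤ)) :
    Rel c a b γ l ↔ M_Deg_F c a b l = (γ : ZMod c) • (1 : Matrix (Fin 2) (Fin 2) (ZMod c)) := by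
  have key : ∀ x : ℤ, (c : ℤ) ∣ x ↔ ((x : ℤ) : ZMod c) = 0 := fun x =>
    (ZMod.intCast_zmod_eq_zero_iff_dvd x c).symm
  unfold Rel
  rw [key, key, key, key]
  constructor
  · rintro ⟨h1, h2, h3, h4⟩
    ext i j
    fin_cases i <;> fin_cases j
    · simpa [M_Deg_F, sub_eq_zero] using h1
    · simpa [M_Deg_F] using h2
    · simpa [M_Deg_F] using h3
    · simpa [M_Deg_F, sub_eq_zero] using h4
  · intro h
    have e := fun i j => congrFun (congrFun h i) j
    refine ⟨?_, ?_, ?_, ?_⟩
    · simpa [M_Deg_F, sub_eq_zero] using e 0 0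
    · simpa [M_Deg_F] using e 0 1
    · simpa [M_Deg_F] using e 1 0
    · simpa [M_Deg_F, sub_eq_zero] using e 1 1

theorem M_Deg_E_append (a b : ℤ) (l l' : List (ℤ × ℤ)) :
    E a b (l ++ l') = E a b l' * E a b l := by
  induction l with
  | nil => simp
  | cons p t ih => rw [List.cons_append, E_cons, E_cons, ih, Matrix.mul_assoc]

theorem M_Deg_rotate (c : ℕ) (a b γ : ℤ) (l l' : List (ℤ × ℤ))
    (h : Rel c a b γ (l ++ l')) : Rel c a b γ (l' ++ l) := by
  rw [M_Deg_rel_iff] at h ⊢
  rw [M_Deg_F, M_Deg_E_append, map_mul] at h ⊢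
  set w := (Int.castRingHom (ZMod c)).mapMatrix (E a b l) with hw
  set w' := (Int.castRingHom (ZMod c)).mapMatrix (E a b l') with hw'
  have h1 : w'.adjugate * w' = 1 := by
    rw [Matrix.adjugate_mul]
    have : w'.det = 1 := by
      rw [hw', ← RingHom.map_det, det_E, map_one]
    rw [this, one_smul]
  calc w * w' = (w'.adjugate * w') * (w * w') := by rw [h1, one_mul]
    _ = w'.adjugate * (w' * w) * w' := by simp only [Matrix.mul_assoc]
    _ = (γ : ZMod c) • (1 : Matrix (Fin 2) (Fin 2) (ZMod c)) := by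
        rw [h, Matrix.mul_smul, Matrix.mul_one, Matrix.smul_mul, h1]

theorem M_Deg_merge (c : ℕ) (a b γ : ℤ) (p q : ℤ × ℤ) (t : List (ℤ × ℤ))
    (hp : (c : ℤ) ∣ p.1) (h : Rel c a b γ (p :: q :: t)) :
    Rel c a b γ ((q.1, p.2 + q.2) :: t) := by
  rw [M_Deg_rel_iff] at h ⊢
  rw [← h]
  rw [M_Deg_F, M_Deg_F, E_cons, E_cons, E_cons, map_mul, map_mul, map_mul, Matrix.mul_assoc]
  congr 1
  have h0 : ((p.1 : ℤ) : ZMod c) = 0 := (ZMod.intCast_zmod_eq_zero_iff_dvd p.1 c).2 hp
  ext i j
  fin_cases i <;> fin_cases j <;>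
    simp [ul, Matrix.mul_apply, Fin.sum_univ_two, h0] <;> ring

/-- merge the first two pairs -/
def M_Deg_red : List (ℤ × ℤ) → (ℤ × ℤ) × List (ℤ × ℤ)
  | p :: q :: t => (p, (q.1, p.2 + q.2) :: t)
  | _ => ((0, 0), [])

theorem M_Deg_red_inj {l l' : List (ℤ × ℤ)} (hl : 2 ≤ l.length) (hl' : 2 ≤ l'.length)
    (h : M_Deg_red l = M_Deg_red l') : l = l' := by
  match l, l', hl, hl', h with
  | p :: q :: t, p' :: q' :: t', _, _, h =>
    simp only [M_Deg_red, Prod.mk.injEq, List.cons.injEq] at h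
    obtain ⟨h1, ⟨h2, h3⟩, h4⟩ := h
    subst h1
    have : q = q' := Prod.ext h2 (by linarith)
    rw [this, h4]

theorem stDeg (hAP : StAP) : StDeg := by
  classical
  intro c a b r A B hc ha hb hr
  -- degenerate lists with the degenerate pair at position `i`
  set D : ℕ → Finset (List (ℤ × ℤ)) := fun i =>
    (bx (I A) (I B) (r + 1)).filter fun l => (∃ γ ∈ Γ c, Rel c a b γ l) ∧
      ∃ p t, l.rotate i = p :: t ∧ (c : ℤ) ∣ p.1 with hD
  set M : Finset ℤ := (I A).filter fun h => (c : ℤ) ∣ h with hM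
  have hMcard : (M.card : ℝ) ≤ 2 * A / c + 1 := by
    refine hAP A c M hc (filter_subset _ _) ?_
    intro x hx y hy
    exact dvd_sub (mem_filter.1 hx).2 (mem_filter.1 hy).2
  have hDcard : ∀ i ∈ range (r + 1), (D i).card ≤ M.card * (I B).card * N c a b r A (2 * B) := by
    intro i hi
    have hcard : M.card * (I B).card * N c a b r A (2 * B) =
        ((M ×ˢ I B) ×ˢ ((bx (I A) (I (2 * B)) r).filter fun l => ∃ γ ∈ Γ c, Rel c a b γ l)).card := by
      rw [card_product, card_product, N]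
    rw [hcard]
    refine card_le_card_of_injOn (fun l => M_Deg_red (l.rotate i)) ?_ ?_
    · intro l hl
      rw [mem_coe, hD, mem_filter] at hl
      obtain ⟨hl1, ⟨γ, hγ, hrel⟩, p, t, hrot, hp⟩ := hl
      rw [mem_bx] at hl1
      obtain ⟨hlen, hmem⟩ := hl1
      have hlen' : (l.rotate i).length = r + 1 := by rw [List.length_rotate, hlen]
      rw [hrot] at hlen'
      have hrel' : Rel c a b γ (l.rotate i) := by
        have hi' : i ≤ l.length := by rw [hlen]; exact (mem_range.1 hi).le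
        rw [List.rotate_eq_drop_append_take hi']
        refine M_Deg_rotate c a b γ _ _ ?_
        rw [List.take_append_drop]
        exact hrel
      have hmem' : ∀ q ∈ l.rotate i, q.1 ∈ I A ∧ q.2 ∈ I B := fun q hq =>
        hmem q (List.mem_rotate.1 hq)
      rw [hrot] at hrel' hmem'
      cases t with
      | nil => simp at hlen'; omega
      | cons q t =>
        simp only [hrot]
        rw [mem_coe, M_Deg_red, mem_product, mem_product]
        have hp' := hmem' p (by simp)
        have hq' := hmem' q (by simp)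
        refine ⟨⟨mem_filter.2 ⟨hp'.1, hp⟩, hp'.2⟩, mem_filter.2 ⟨mem_bx.2 ⟨?_, ?_⟩, γ, hγ, ?_⟩⟩
        · simpa using hlen'
        · intro x hx
          rcases List.mem_cons.1 hx with rfl | hx
          · refine ⟨hq'.1, ?_⟩
            have h1 := mem_I.1 hp'.2
            have h2 := mem_I.1 hq'.2
            rw [mem_I]
            push_cast
            calc |p.2 + q.2| ≤ |p.2| + |q.2| := abs_add_le _ _
              _ ≤ 2 * (B : ℤ) := by linarith
          · have h3 := hmem' x (by simp [hx])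
            refine ⟨h3.1, ?_⟩
            have h4 := mem_I.1 h3.2
            rw [mem_I]
            push_cast
            linarith [abs_nonneg x.2]
        · exact M_Deg_merge c a b γ p q t hp hrel'
    · intro l hl l' hl' h
      rw [mem_coe, hD, mem_filter, mem_bx] at hl hl'
      have h1 := M_Deg_red_inj (by rw [List.length_rotate, hl.1.1]; omega)
        (by rw [List.length_rotate, hl'.1.1]; omega) h
      exact List.rotate_injective i h1
  have hsub : ((bx (I A) (I B) (r + 1)).filter fun l => ∃ γ ∈ Γ c, Rel c a b γ l) ⊆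
      ((bx (J c A) (I B) (r + 1)).filter fun l => ∃ γ ∈ Γ c, Rel c a b γ l) ∪
        (range (r + 1)).biUnion D := by
    intro l hl
    rw [mem_filter, mem_bx] at hl
    obtain ⟨⟨hlen, hmem⟩, hrel⟩ := hl
    by_cases hdeg : ∃ p ∈ l, (c : ℤ) ∣ p.1
    · obtain ⟨p, hp, hcp⟩ := hdeg
      obtain ⟨s, t, rfl⟩ := List.append_of_mem hp
      refine mem_union_right _ (mem_biUnion.2 ⟨s.length, ?_, ?_⟩)
      · rw [mem_range, ← hlen]; simp
      · rw [hD, mem_filter, mem_bx]
        refine ⟨⟨hlen, hmem⟩, hrel, p, t ++ s, ?_, hcp⟩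
        rw [List.rotate_append_length_eq, List.cons_append]
    · push Not at hdeg
      refine mem_union_left _ (mem_filter.2 ⟨mem_bx.2 ⟨hlen, fun p hp => ⟨?_, (hmem p hp).2⟩⟩, hrel⟩)
      exact mem_J.2 ⟨(hmem p hp).1, hdeg p hp⟩
  have hmain : N c a b (r + 1) A B ≤ N0 c a b (r + 1) A B +
      (r + 1) * (M.card * (I B).card * N c a b r A (2 * B)) := by
    have h1 := card_le_card hsub
    have h2 := h1.trans (card_union_le _ _)
    have h3 : ((range (r + 1)).biUnion D).card ≤
        (r + 1) * (M.card * (I B).card * N c a b r A (2 * B)) := by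
      have := card_biUnion_le_card_mul (range (r + 1)) D _ hDcard
      rwa [card_range] at this
    rw [N, N0]
    exact h2.trans (Nat.add_le_add_left h3 _)
  have hmain' : (N c a b (r + 1) A B : ℝ) ≤ N0 c a b (r + 1) A B +
      (r + 1) * (M.card * (I B).card * N c a b r A (2 * B)) := by exact_mod_cast hmain
  refine hmain'.trans ?_
  have hIB : ((I B).card : ℝ) = 2 * B + 1 := by rw [card_I]; push_cast; ring
  rw [hIB]
  have hr0 : (0 : ℝ) ≤ (r : ℝ) + 1 := by positivity
  have hN0 : (0 : ℝ) ≤ (N c a b r A (2 * B) : ℝ) := by positivity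
  have hB0 : (0 : ℝ) ≤ 2 * (B : ℝ) + 1 := by positivity
  have h5 : (M.card : ℝ) * (2 * B + 1) * (N c a b r A (2 * B) : ℝ) ≤
      (2 * A / c + 1) * (2 * B + 1) * (N c a b r A (2 * B) : ℝ) := by
    gcongr
  calc (N0 c a b (r + 1) A B : ℝ) + (r + 1) * (M.card * (2 * B + 1) * N c a b r A (2 * B))
      ≤ N0 c a b (r + 1) A B + (r + 1) * ((2 * A / c + 1) * (2 * B + 1) * N c a b r A (2 * B)) := by
        gcongr
    _ = N0 c a b (r + 1) A B + (r + 1) * (2 * A / c + 1) * (2 * B + 1) * N c a b r A (2 * B) := by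
        ring

end Pool.Agent.Helper56.SW
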