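import Pool.Agent.Helper56.SW.Basic
import Pool.Agent.Helper56.SW.Statements

/-! # MP_e188f1_nt, module M_Fac -/

set_option autoImplicit false

namespace Pool.Agent.Helper56.SW

open Finset Matrix

/-- integer divisors -/
def mFac_idiv (j : ℤ) : Finset ℤ :=
  (j.natAbs.divisors.image fun d : ℕ => (d : ℤ)) ∪
    (j.natAbs.divisors.image fun d : ℕ => -(d : ℤ))

theorem mFac_card (j : ℤ) : ((mFac_idiv j).card : ℝ) ≤ 2 * τ j.natAbs := by
  have h1 : (mFac_idiv j).card ≤ j.natAbs.divisors.card + j.natAbs.divisors.card :=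
    (card_union_le _ _).trans (Nat.add_le_add card_image_le card_image_le)
  have h2 : ((mFac_idiv j).card : ℝ) ≤ (j.natAbs.divisors.card : ℝ) + j.natAbs.divisors.card := by
    exact_mod_cast h1
  unfold τ
  linarith

theorem mFac_mem {j h : ℤ} (hj : j ≠ 0) (hd : h ∣ j) : h ∈ mFac_idiv j := by
  unfold mFac_idiv
  have h1 : h.natAbs ∈ j.natAbs.divisors :=
    Nat.mem_divisors.2 ⟨Int.natAbs_dvd_natAbs.2 hd, Int.natAbs_ne_zero.2 hj⟩
  rw [mem_union, mem_image, mem_image]
  rcases Int.natAbs_eq h with h2 | h2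
  · exact Or.inl ⟨_, h1, h2.symm⟩
  · exact Or.inr ⟨_, h1, h2.symm⟩

theorem stFac : StFac := by
  intro A B D S hS
  have hτ0 : ∀ n, 0 ≤ τ n := fun n => by unfold τ; positivity
  constructor
  · have h1 : (((I A) ×ˢ (I B)).filter fun p => p.1 * p.2 ∈ S).card ≤
        (S.sigma fun j => mFac_idiv j).card := by
      refine card_le_card_of_injOn (fun p => (⟨p.1 * p.2, p.1⟩ : (_ : ℤ) × ℤ)) ?_ ?_
      · intro p hp
        rw [mem_coe, mem_filter] at hp
        rw [mem_coe, mem_sigma]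
        exact ⟨hp.2, mFac_mem (hS _ hp.2).1 (Dvd.intro _ rfl)⟩
      · intro p hp q hq hpq
        rw [mem_coe, mem_filter] at hp hq
        simp only [Sigma.mk.injEq, heq_eq_eq] at hpq
        obtain ⟨h2, h3⟩ := hpq
        have hne : q.1 ≠ 0 := by
          intro h0
          exact (hS _ hq.2).1 (by rw [h0, zero_mul])
        rw [h3] at h2
        exact Prod.ext h3 (mul_left_cancel₀ hne h2)
    rw [card_sigma] at h1
    have h2 : ((((I A) ×ˢ (I B)).filter fun p => p.1 * p.2 ∈ S).card : ℝ) ≤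
        ∑ j ∈ S, ((mFac_idiv j).card : ℝ) := by exact_mod_cast h1
    refine h2.trans ?_
    calc ∑ j ∈ S, ((mFac_idiv j).card : ℝ) ≤ ∑ _j ∈ S, 2 * D := by
          refine sum_le_sum fun j hj => (mFac_card j).trans ?_
          have := (hS j hj).2
          linarith
      _ = S.card * (2 * D) := by rw [sum_const, nsmul_eq_mul]
  · have h1 : (((I A) ×ˢ (I B) ×ˢ (I A)).filter fun p => p.1 * p.2.2 * p.2.1 ∈ S).card ≤
        (S.sigma fun j => mFac_idiv j ×ˢ mFac_idiv j).card := by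
      refine card_le_card_of_injOn
        (fun p => (⟨p.1 * p.2.2 * p.2.1, (p.1, p.2.2)⟩ : (_ : ℤ) × (ℤ × ℤ))) ?_ ?_
      · intro p hp
        rw [mem_coe, mem_filter] at hp
        rw [mem_coe, mem_sigma, mem_product]
        exact ⟨hp.2, mFac_mem (hS _ hp.2).1 ⟨p.2.2 * p.2.1, by ring⟩,
          mFac_mem (hS _ hp.2).1 ⟨p.1 * p.2.1, by ring⟩⟩
      · intro p hp q hq hpq
        rw [mem_coe, mem_filter] at hp hq
        simp only [Sigma.mk.injEq, heq_eq_eq, Prod.mk.injEq] at hpq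
        obtain ⟨h2, h3, h4⟩ := hpq
        have hne : q.1 * q.2.2 ≠ 0 := by
          intro h0
          exact (hS _ hq.2).1 (by rw [h0, zero_mul])
        rw [h3, h4] at h2
        exact Prod.ext h3 (Prod.ext (mul_left_cancel₀ hne h2) h4)
    rw [card_sigma] at h1
    have h2 : ((((I A) ×ˢ (I B) ×ˢ (I A)).filter fun p => p.1 * p.2.2 * p.2.1 ∈ S).card : ℝ) ≤
        ∑ j ∈ S, ((mFac_idiv j ×ˢ mFac_idiv j).card : ℝ) := by exact_mod_cast h1
    refine h2.trans ?_
    calc ∑ j ∈ S, ((mFac_idiv j ×ˢ mFac_idiv j).card : ℝ) ≤ ∑ _j ∈ S, 4 * D ^ 2 := by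
          refine sum_le_sum fun j hj => ?_
          rw [card_product, Nat.cast_mul]
          have h3 := mFac_card j
          have h4 := (hS j hj).2
          have h5 := hτ0 j.natAbs
          have h6 : (0 : ℝ) ≤ ((mFac_idiv j).card : ℝ) := by positivity
          have h7 : ((mFac_idiv j).card : ℝ) ≤ 2 * D := by linarith
          nlinarith
      _ = S.card * (4 * D ^ 2) := by rw [sum_const, nsmul_eq_mul]

end Pool.Agent.Helper56.SW
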