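import Pool.Agent.Helper56.SW.Basic
import Pool.Agent.Helper56.SW.Statements

/-! # MP_e188f1_nt, module M_Fin: the general bound, by induction on the number of pairs -/

set_option autoImplicit false

namespace Pool.Agent.Helper56.SW

open Finset Matrix

/-- real inequality for the induction start -/
theorem fin_r0 (A B c K N N0 N2 C0 C2 e : ℝ) (hA : 1 ≤ A) (hAB : A ≤ B) (hc : 1 ≤ c)
    (hK : 1 ≤ K) (hBK : B ≤ K * c) (he : 0 ≤ e) (hC0 : 0 < C0) (hC2 : 0 < C2) (hN2' : 0 ≤ N2)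
    (h : N ≤ N0 + 3 * (2 * A / c + 1) * (2 * B + 1) * N2)
    (hN0 : N0 ≤ C0 * e * (A ^ 2 + A ^ 3 * B / c)) (hN2 : N2 ≤ C2 * e * (2 * B)) :
    N ≤ (C0 + 54 * K * C2) * e * (B ^ 2 + A ^ 2 + A ^ 3 * B / c) := by
  have hc0 : 0 < c := by linarith
  have hB : 1 ≤ B := hA.trans hAB
  have h1 : 2 * A / c + 1 ≤ 3 * K := by
    have : A / c ≤ K := by rw [div_le_iff₀ hc0]; exact hAB.trans hBK
    have h2 : 2 * A / c = 2 * (A / c) := by ring
    linarith
  have h2 : 2 * B + 1 ≤ 3 * B := by linarith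
  have h3 : 3 * (2 * A / c + 1) * (2 * B + 1) * N2 ≤ 3 * (3 * K) * (3 * B) * (C2 * e * (2 * B)) := by
    refine mul_le_mul ?_ hN2 hN2' (by positivity)
    refine mul_le_mul ?_ h2 (by positivity) (by positivity)
    linarith
  have h4 : 0 ≤ 54 * K * C2 * e * (A ^ 2 + A ^ 3 * B / c) := by positivity
  have h5 : 0 ≤ C0 * e * B ^ 2 := by positivity
  calc N ≤ C0 * e * (A ^ 2 + A ^ 3 * B / c) + 3 * (3 * K) * (3 * B) * (C2 * e * (2 * B)) := by
        linarith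
    _ ≤ (C0 * e * (A ^ 2 + A ^ 3 * B / c) + 3 * (3 * K) * (3 * B) * (C2 * e * (2 * B))) +
        (54 * K * C2 * e * (A ^ 2 + A ^ 3 * B / c) + C0 * e * B ^ 2) := by linarith
    _ = _ := by ring

/-- real inequality for the induction step -/
theorem fin_r1 (n : ℕ) (A B c K N N0 N2 C0 C2 e : ℝ) (hA : 1 ≤ A) (hAB : A ≤ B) (hc : 1 ≤ c)
    (hK : 1 ≤ K) (hBK : B ≤ K * c) (he : 0 ≤ e) (hC0 : 0 < C0) (hC2 : 0 < C2) (hN2' : 0 ≤ N2)
    (h : N ≤ N0 + (n + 4) * (2 * A / c + 1) * (2 * B + 1) * N2)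
    (hN0 : N0 ≤ C0 * e * (A ^ (n + 3) * B ^ (n + 1) + A ^ (n + 4) * B ^ (n + 2) / c))
    (hN2 : N2 ≤ C2 * e * ((2 * B) ^ (n + 2) + A ^ (n + 2) * (2 * B) ^ n +
      A ^ (n + 3) * (2 * B) ^ (n + 1) / c)) :
    N ≤ (C0 + 9 * (n + 4) * K * (C2 * 2 ^ (n + 2))) * e *
      (B ^ (n + 3) + A ^ (n + 3) * B ^ (n + 1) + A ^ (n + 4) * B ^ (n + 2) / c) := by
  have hc0 : 0 < c := by linarith
  have hB : 1 ≤ B := hA.trans hAB
  have h1 : 2 * A / c + 1 ≤ 3 * K := by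
    have : A / c ≤ K := by rw [div_le_iff₀ hc0]; exact hAB.trans hBK
    have h2 : 2 * A / c = 2 * (A / c) := by ring
    linarith
  have h2 : 2 * B + 1 ≤ 3 * B := by linarith
  set R := B ^ (n + 2) + A ^ (n + 2) * B ^ n + A ^ (n + 3) * B ^ (n + 1) / c with hR
  have hR0 : 0 ≤ R := by positivity
  have h22 : (2 * B) ^ (n + 2) + A ^ (n + 2) * (2 * B) ^ n + A ^ (n + 3) * (2 * B) ^ (n + 1) / c ≤
      2 ^ (n + 2) * R := by
    have e0 : (2 : ℝ) ^ n ≤ 2 ^ (n + 2) := pow_le_pow_right₀ (by norm_num) (by omega)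
    have e1 : (2 : ℝ) ^ (n + 1) ≤ 2 ^ (n + 2) := pow_le_pow_right₀ (by norm_num) (by omega)
    have p0 : A ^ (n + 2) * (2 * B) ^ n ≤ 2 ^ (n + 2) * (A ^ (n + 2) * B ^ n) := by
      rw [mul_pow]
      calc A ^ (n + 2) * (2 ^ n * B ^ n) = 2 ^ n * (A ^ (n + 2) * B ^ n) := by ring
        _ ≤ _ := mul_le_mul_of_nonneg_right e0 (by positivity)
    have p1 : A ^ (n + 3) * (2 * B) ^ (n + 1) / c ≤
        2 ^ (n + 2) * (A ^ (n + 3) * B ^ (n + 1) / c) := by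
      rw [mul_pow]
      calc A ^ (n + 3) * (2 ^ (n + 1) * B ^ (n + 1)) / c
          = 2 ^ (n + 1) * (A ^ (n + 3) * B ^ (n + 1) / c) := by ring
        _ ≤ _ := mul_le_mul_of_nonneg_right e1 (by positivity)
    rw [mul_pow 2 B (n + 2), hR]
    linarith
  have h3 : (n + 4) * (2 * A / c + 1) * (2 * B + 1) * N2 ≤
      (n + 4) * (3 * K) * (3 * B) * (C2 * e * (2 ^ (n + 2) * R)) := by
    refine mul_le_mul ?_ (hN2.trans (mul_le_mul_of_nonneg_left h22 (by positivity))) hN2'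
      (by positivity)
    refine mul_le_mul ?_ h2 (by positivity) (by positivity)
    exact mul_le_mul_of_nonneg_left h1 (by positivity)
  set Q := B ^ (n + 3) + A ^ (n + 3) * B ^ (n + 1) + A ^ (n + 4) * B ^ (n + 2) / c with hQ
  have hBR : B * R ≤ Q := by
    have e1 : B * R = B ^ (n + 3) + A ^ (n + 2) * B ^ (n + 1) + A ^ (n + 3) * B ^ (n + 2) / c := by
      rw [hR]; ring
    rw [e1, hQ]
    have a1 : A ^ (n + 2) ≤ A ^ (n + 3) := pow_le_pow_right₀ hA (by omega)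
    have a2 : A ^ (n + 3) ≤ A ^ (n + 4) := pow_le_pow_right₀ hA (by omega)
    have b1 : A ^ (n + 2) * B ^ (n + 1) ≤ A ^ (n + 3) * B ^ (n + 1) :=
      mul_le_mul_of_nonneg_right a1 (by positivity)
    have b2 : A ^ (n + 3) * B ^ (n + 2) / c ≤ A ^ (n + 4) * B ^ (n + 2) / c :=
      div_le_div_of_nonneg_right (mul_le_mul_of_nonneg_right a2 (by positivity)) hc0.le
    linarith
  have h0Q : A ^ (n + 3) * B ^ (n + 1) + A ^ (n + 4) * B ^ (n + 2) / c ≤ Q := by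
    have : 0 ≤ B ^ (n + 3) := by positivity
    rw [hQ]; linarith
  calc N ≤ C0 * e * Q + (n + 4) * (3 * K) * (3 * B) * (C2 * e * (2 ^ (n + 2) * R)) := by
        have := mul_le_mul_of_nonneg_left h0Q (show 0 ≤ C0 * e by positivity)
        linarith
    _ = C0 * e * Q + 9 * (n + 4) * K * (C2 * 2 ^ (n + 2)) * e * (B * R) := by ring
    _ ≤ C0 * e * Q + 9 * (n + 4) * K * (C2 * 2 ^ (n + 2)) * e * Q := by
        have := mul_le_mul_of_nonneg_left hBR
          (show 0 ≤ 9 * ((n : ℝ) + 4) * K * (C2 * 2 ^ (n + 2)) * e by positivity)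
        linarith
    _ = _ := by ring

theorem fin_aux (hMain : StMain) (hTwo : StTwo) (hDeg : StDeg) (n : ℕ) :
    ∀ K ε : ℝ, 1 ≤ K → 0 < ε → ∃ C : ℝ, 0 < C ∧
    ∀ (c : ℕ) (a b : ℤ) (A B : ℕ), 1 ≤ c → IsCoprime a c → IsCoprime b c → 1 ≤ A → A ≤ B →
      (B : ℝ) ≤ K * c →
      (N c a b (n + 3) A B : ℝ) ≤ C * (c : ℝ) ^ ε *
        ((B : ℝ) ^ (n + 2) + (A : ℝ) ^ (n + 2) * (B : ℝ) ^ n +
          (A : ℝ) ^ (n + 3) * (B : ℝ) ^ (n + 1) / c) := by
  induction n with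
  | zero =>
    intro K ε hK hε
    obtain ⟨C0, hC0, h0⟩ := hMain 0 K ε hK hε
    obtain ⟨C2, hC2, h2⟩ := hTwo (2 * K) ε (by linarith) hε
    refine ⟨C0 + 54 * K * C2, by positivity, ?_⟩
    intro c a b A B hc ha hb hA hAB hBK
    have hA' : (1 : ℝ) ≤ A := by exact_mod_cast hA
    have hAB' : (A : ℝ) ≤ B := by exact_mod_cast hAB
    have hc' : (1 : ℝ) ≤ c := by exact_mod_cast hc
    have g0 := h0 c a b A B hc ha hb hA hAB hBK
    have g2 := h2 c a b A (2 * B) hc ha hb hA (by omega) (by push_cast; linarith)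
    have g3 := hDeg c a b 2 A B hc ha hb (by norm_num)
    have := fin_r0 A B c K (N c a b 3 A B) (N0 c a b 3 A B) (N c a b 2 A (2 * B)) C0 C2
      ((c : ℝ) ^ ε) hA' hAB' hc' hK hBK (by positivity) hC0 hC2 (Nat.cast_nonneg _)
      (by
        push_cast at g3 ⊢
        norm_num at g3 ⊢
        linarith)
      (by simpa using g0) (by push_cast at g2; linarith)
    simpa using this
  | succ n ih =>
    intro K ε hK hε
    obtain ⟨C0, hC0, h0⟩ := hMain (n + 1) K ε hK hε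
    obtain ⟨C2, hC2, h2⟩ := ih (2 * K) ε (by linarith) hε
    refine ⟨C0 + 9 * (n + 4) * K * (C2 * 2 ^ (n + 2)), by positivity, ?_⟩
    intro c a b A B hc ha hb hA hAB hBK
    have hA' : (1 : ℝ) ≤ A := by exact_mod_cast hA
    have hAB' : (A : ℝ) ≤ B := by exact_mod_cast hAB
    have hc' : (1 : ℝ) ≤ c := by exact_mod_cast hc
    have g0 := h0 c a b A B hc ha hb hA hAB hBK
    have g2 := h2 c a b A (2 * B) hc ha hb hA (by omega) (by push_cast; linarith)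
    have g3 := hDeg c a b (n + 3) A B hc ha hb (by omega)
    have e4 : n + 1 + 3 = n + 3 + 1 := by omega
    rw [e4] at g0
    rw [e4]
    refine fin_r1 n A B c K (N c a b (n + 3 + 1) A B) (N0 c a b (n + 3 + 1) A B)
      (N c a b (n + 3) A (2 * B)) C0 C2
      ((c : ℝ) ^ ε) hA' hAB' hc' hK hBK (by positivity) hC0 hC2 (Nat.cast_nonneg _) ?_ ?_ ?_
    · push_cast at g3 ⊢
      have e5 : ((n : ℝ) + 3 + 1) = n + 4 := by ring
      rw [e5] at g3
      exact g3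
    · exact g0
    · push_cast at g2 ⊢
      exact g2

theorem stFin (hMain : StMain) (hTwo : StTwo) (hDeg : StDeg) : StFin := by
  intro r K ε hr hK hε
  obtain ⟨n, rfl⟩ := Nat.exists_eq_add_of_le' hr
  exact fin_aux hMain hTwo hDeg n K ε hK hε

end Pool.Agent.Helper56.SW
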