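import Pool.Agent.Helper56.SW.Basic
import Pool.Agent.Helper56.SW.Statements

/-! # MP_e188f1_nt, module M_P -/

set_option autoImplicit false

namespace Pool.Agent.Helper56.SW

open Finset Matrix

theorem M_P_eq (c : ℕ) (a b : ℤ) (s A B g : ℕ) :
    (P c a b s A B g : ℝ) =
      ∑ t ∈ bx (J c A) (I B) s, ∑ h ∈ J c A, (if (g : ℤ) ∣ m a b t h then (1 : ℝ) else 0) := by
  unfold P
  rw [Finset.card_filter, Finset.sum_product]
  push_cast
  rfl

theorem M_P_cop {a : ℤ} {c : ℕ} (ha : IsCoprime a (c : ℤ)) {d : ℕ} (hd : d ∣ c) :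
    IsCoprime a (d : ℤ) := by
  obtain ⟨e, rfl⟩ := hd
  rw [Nat.cast_mul] at ha
  exact ha.of_mul_right_left

theorem M_P_dvd_h {a b : ℤ} {g c : ℕ} (hac : IsCoprime a (c : ℤ)) (hg : g ∣ c) {p q h k : ℤ}
    (hpq : IsCoprime p q) (h0 : (g : ℤ) ∣ (p + q * (b * k)) * (a * h) + q) :
    ((Int.gcd q g : ℕ) : ℤ) ∣ h := by
  set δ : ℕ := Int.gcd q g with hδ
  have hδq : (δ : ℤ) ∣ q := Int.gcd_dvd_left q g
  have hδg : (δ : ℤ) ∣ g := Int.gcd_dvd_right q g
  have h1 : (δ : ℤ) ∣ (p + q * (b * k)) * (a * h) := by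
    have := (hδg.trans h0)
    exact (dvd_add_left hδq).1 this
  have hcu : IsCoprime (p + q * (b * k)) q := hpq.add_mul_left_left (b * k)
  have hcu' : IsCoprime (δ : ℤ) (p + q * (b * k)) := (hcu.of_isCoprime_of_dvd_right hδq).symm
  have h2 : (δ : ℤ) ∣ a * h := hcu'.dvd_of_dvd_mul_left h1
  have hδc : δ ∣ c := (Int.natCast_dvd_natCast.1 hδg).trans hg
  exact (M_P_cop hac hδc).symm.dvd_of_dvd_mul_left h2

theorem M_P_dvd_k {a b : ℤ} {g c : ℕ} (hac : IsCoprime a (c : ℤ)) (hbc : IsCoprime b (c : ℤ))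
    (hg : g ∣ c) {p q h k k' : ℤ}
    (h0 : (g : ℤ) ∣ (p + q * (b * k)) * (a * h) + q)
    (h0' : (g : ℤ) ∣ (p + q * (b * k')) * (a * h) + q) :
    (g : ℤ) ∣ (q * h) * (k - k') := by
  have h1 : (g : ℤ) ∣ a * (b * ((q * h) * (k - k'))) := by
    have := dvd_sub h0 h0'
    have h2 : (p + q * (b * k)) * (a * h) + q - ((p + q * (b * k')) * (a * h) + q) =
        a * (b * ((q * h) * (k - k'))) := by ring
    rwa [h2] at this
  exact (M_P_cop hbc hg).symm.dvd_of_dvd_mul_left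
    ((M_P_cop hac hg).symm.dvd_of_dvd_mul_left h1)

/-- The number of `k` for fixed `h`. -/
theorem M_P_count_k (hAP : StAP) {a b : ℤ} {g c B : ℕ} (hc : 1 ≤ c)
    (hac : IsCoprime a (c : ℤ)) (hbc : IsCoprime b (c : ℤ)) (hg : g ∣ c) {p q h : ℤ} :
    (((I B).filter fun k => (g : ℤ) ∣ (p + q * (b * k)) * (a * h) + q).card : ℝ) ≤
      2 * B * (Int.gcd q g : ℝ) ^ 2 / g + 1 := by
  have hg1 : 1 ≤ g := Nat.pos_of_dvd_of_pos hg hc
  have hgpos : (0 : ℝ) < g := by exact_mod_cast hg1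
  set F := (I B).filter fun k => (g : ℤ) ∣ (p + q * (b * k)) * (a * h) + q with hF
  rcases F.eq_empty_or_nonempty with hE | ⟨k₀, hk₀⟩
  · rw [hE, Finset.card_empty]
    push_cast
    positivity
  set δ : ℕ := Int.gcd q g with hδ
  set D : ℕ := Int.gcd (q * h) g with hD
  have hDg : D ∣ g := Int.natCast_dvd_natCast.1 (Int.gcd_dvd_right (q * h) g)
  have hDpos : 1 ≤ D := Nat.pos_of_dvd_of_pos hDg hg1
  have hδg : δ ∣ g := Int.natCast_dvd_natCast.1 (Int.gcd_dvd_right q g)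
  have hδpos : 1 ≤ δ := Nat.pos_of_dvd_of_pos hδg hg1
  have hk₀' := (Finset.mem_filter.1 hk₀).2
  -- gcd (h, g) divides δ
  have hhδ : Int.gcd h g ∣ δ := by
    apply Int.dvd_gcd
    · have h1 : ((Int.gcd h g : ℕ) : ℤ) ∣ (p + q * (b * k₀)) * (a * h) + q :=
        (Int.gcd_dvd_right h g).trans hk₀'
      have h2 : ((Int.gcd h g : ℕ) : ℤ) ∣ (p + q * (b * k₀)) * (a * h) :=
        Dvd.dvd.mul_left (Dvd.dvd.mul_left (Int.gcd_dvd_left h g) a) _
      exact (dvd_add_right h2).1 h1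
    · exact Int.gcd_dvd_right h g
  have hDle : D ≤ δ ^ 2 := by
    have h1 : D ∣ δ * Int.gcd h g := by
      have h2 : D = Nat.gcd (q.natAbs * h.natAbs) g := by
        rw [hD, Int.gcd, Int.natAbs_mul, Int.natAbs_natCast]
      have h3 : δ = Nat.gcd q.natAbs g := by rw [hδ, Int.gcd, Int.natAbs_natCast]
      have h4 : Int.gcd h g = Nat.gcd h.natAbs g := by rw [Int.gcd, Int.natAbs_natCast]
      rw [h2, h3, h4]
      rw [Nat.gcd_comm _ g, Nat.gcd_comm q.natAbs g, Nat.gcd_comm h.natAbs g]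
      exact Nat.gcd_mul_right_dvd_mul_gcd g q.natAbs h.natAbs
    have h5 : D ∣ δ ^ 2 := by
      rw [pow_two]
      exact h1.trans (Nat.mul_dvd_mul_left δ hhδ)
    exact Nat.le_of_dvd (by positivity) h5
  obtain ⟨n, hn⟩ := hDg
  have hn1 : 1 ≤ n := by
    rcases Nat.eq_zero_or_pos n with h0 | h0
    · rw [h0, Nat.mul_zero] at hn; omega
    · exact h0
  have hAP' := hAP B n F hn1 (Finset.filter_subset _ _) (by
    intro x hx y hy
    have h1 := M_P_dvd_k hac hbc hg (Finset.mem_filter.1 hx).2 (Finset.mem_filter.1 hy).2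
    have h2 : ((D : ℕ) : ℤ) ∣ q * h := Int.gcd_dvd_left (q * h) g
    obtain ⟨r, hr⟩ := h2
    have hcop : IsCoprime (n : ℤ) r := by
      have h3 : Int.gcd ((D : ℤ) * r) ((D : ℤ) * n) = D * Int.gcd r n := by
        rw [Int.gcd_mul_left, Int.natAbs_natCast]
      have h4 : Int.gcd (q * h) g = D * Int.gcd r n := by
        rw [← h3, ← hr, hn]
        push_cast
        rfl
      have h5 : D * 1 = D * Int.gcd r n := by rw [Nat.mul_one, ← h4]
      have h6 : 1 = Int.gcd r n := Nat.eq_of_mul_eq_mul_left hDpos h5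
      exact (Int.isCoprime_iff_gcd_eq_one.2 h6.symm).symm
    rw [hr, hn] at h1
    push_cast at h1
    have h7 : (n : ℤ) ∣ r * (x - y) := by
      have hD0 : (D : ℤ) ≠ 0 := by exact_mod_cast (by omega : D ≠ 0)
      have h8 : (D : ℤ) * n ∣ (D : ℤ) * (r * (x - y)) := by
        rw [← mul_assoc]; exact h1
      exact (mul_dvd_mul_iff_left hD0).1 h8
    exact hcop.dvd_of_dvd_mul_left h7)
  refine hAP'.trans ?_
  have hnpos : (0 : ℝ) < n := by exact_mod_cast hn1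
  have hDr : (0 : ℝ) < D := by exact_mod_cast hDpos
  have h9 : (2 * B / n : ℝ) = 2 * B * D / g := by
    have : (g : ℝ) = D * n := by rw [hn]; push_cast; ring
    rw [this]
    field_simp
  rw [h9]
  have h10 : (D : ℝ) ≤ (δ : ℝ) ^ 2 := by exact_mod_cast hDle
  have h11 : (2 * B * D / g : ℝ) ≤ 2 * B * (δ : ℝ) ^ 2 / g := by
    gcongr
  linarith

/-- The contribution of one `(t, h')`. -/
theorem M_P_inner (hAP : StAP) (hMul : StMul) {a b : ℤ} {g c A B : ℕ} (hc : 1 ≤ c)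
    (hac : IsCoprime a (c : ℤ)) (hbc : IsCoprime b (c : ℤ)) (hg : g ∣ c) {p q : ℤ}
    (hpq : IsCoprime p q) :
    ∑ k ∈ I B, ∑ h ∈ J c A, (if (g : ℤ) ∣ (p + q * (b * k)) * (a * h) + q then (1 : ℝ) else 0) ≤
      ∑ δ ∈ c.divisors.filter (fun δ => δ ≤ A), (if (δ : ℤ) ∣ q then
        (2 * A / δ : ℝ) * (2 * B * (δ : ℝ) ^ 2 / g + 1) else 0) := by
  classical
  have hg1 : 1 ≤ g := Nat.pos_of_dvd_of_pos hg hc
  have hgpos : (0 : ℝ) < g := by exact_mod_cast hg1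
  rw [Finset.sum_comm]
  set δ : ℕ := Int.gcd q g with hδ
  have hδg : δ ∣ g := Int.natCast_dvd_natCast.1 (Int.gcd_dvd_right q g)
  have hδpos : 1 ≤ δ := Nat.pos_of_dvd_of_pos hδg hg1
  have hδr : (0 : ℝ) < δ := by exact_mod_cast hδpos
  set S := (J c A).filter fun h => ∃ k ∈ I B, (g : ℤ) ∣ (p + q * (b * k)) * (a * h) + q with hS
  have hterm : ∀ h ∈ J c A, ∑ k ∈ I B,
      (if (g : ℤ) ∣ (p + q * (b * k)) * (a * h) + q then (1 : ℝ) else 0) ≤
      if h ∈ S then (2 * B * (δ : ℝ) ^ 2 / g + 1) else 0 := by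
    intro h hh
    by_cases hhS : h ∈ S
    · rw [if_pos hhS, ← Finset.sum_filter, Finset.sum_const, nsmul_eq_mul, mul_one]
      exact M_P_count_k hAP hc hac hbc hg
    · rw [if_neg hhS]
      apply le_of_eq
      apply Finset.sum_eq_zero
      intro k hk
      rw [if_neg]
      intro hd
      exact hhS (Finset.mem_filter.2 ⟨hh, k, hk, hd⟩)
  have hnn : (0 : ℝ) ≤ 2 * B * (δ : ℝ) ^ 2 / g + 1 := by positivity
  have hstep : ∑ h ∈ J c A, ∑ k ∈ I B,
      (if (g : ℤ) ∣ (p + q * (b * k)) * (a * h) + q then (1 : ℝ) else 0) ≤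
      S.card * (2 * B * (δ : ℝ) ^ 2 / g + 1) := by
    refine (Finset.sum_le_sum hterm).trans (le_of_eq ?_)
    rw [← Finset.sum_filter, Finset.sum_const, nsmul_eq_mul]
    congr 3
    ext h
    rw [Finset.mem_filter]
    exact ⟨fun hh => hh.2, fun hh => ⟨(Finset.mem_filter.1 hh).1, hh⟩⟩
  refine hstep.trans ?_
  have hterm_nn : ∀ x ∈ c.divisors.filter (fun δ => δ ≤ A), (0 : ℝ) ≤ (if (x : ℤ) ∣ q then
        (2 * A / x : ℝ) * (2 * B * (x : ℝ) ^ 2 / g + 1) else 0) := by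
    intro x _
    split_ifs
    · positivity
    · exact le_rfl
  have hSdvd : ∀ h ∈ S, h ≠ 0 ∧ (δ : ℤ) ∣ h := by
    intro h hh
    obtain ⟨hJ, k, _, hd⟩ := Finset.mem_filter.1 hh
    exact ⟨ne_zero_of_mem_J hJ, M_P_dvd_h hac hg hpq hd⟩
  have hSI : S ⊆ I A := (Finset.filter_subset _ _).trans (J_subset c A)
  rcases S.eq_empty_or_nonempty with hE | ⟨h₀, hh₀⟩
  · rw [hE, Finset.card_empty, Nat.cast_zero, zero_mul]
    exact Finset.sum_nonneg hterm_nn
  · have hδA : δ ≤ A := by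
      obtain ⟨h1, h2⟩ := hSdvd h₀ hh₀
      have h3 := mem_I'.1 (hSI hh₀)
      have h4 : δ ∣ h₀.natAbs := Int.natCast_dvd.1 h2
      exact (Nat.le_of_dvd (Int.natAbs_pos.2 h1) h4).trans h3
    have hmem : δ ∈ c.divisors.filter (fun δ => δ ≤ A) := by
      rw [Finset.mem_filter, Nat.mem_divisors]
      exact ⟨⟨hδg.trans hg, by omega⟩, hδA⟩
    have hcard := hMul A δ S hδpos hSI hSdvd
    have hδq : (δ : ℤ) ∣ q := Int.gcd_dvd_left q g
    calc (S.card : ℝ) * (2 * B * (δ : ℝ) ^ 2 / g + 1)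
        ≤ (2 * A / δ : ℝ) * (2 * B * (δ : ℝ) ^ 2 / g + 1) :=
          mul_le_mul_of_nonneg_right hcard hnn
      _ = (if (δ : ℤ) ∣ q then (2 * A / δ : ℝ) * (2 * B * (δ : ℝ) ^ 2 / g + 1) else 0) := by
          rw [if_pos hδq]
      _ ≤ _ := Finset.single_le_sum (f := fun x : ℕ => (if (x : ℤ) ∣ q then
          (2 * A / x : ℝ) * (2 * B * (x : ℝ) ^ 2 / g + 1) else 0)) hterm_nn hmem

theorem M_P_arith {C A B g δ : ℝ} {s : ℕ} (hC : 0 ≤ C) (hA : 0 < A) (hB : 0 < B)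
    (hg : 0 < g) (hδ : 1 ≤ δ) (hδA : δ ≤ A) (hAB : A ≤ B) :
    (2 * A / δ) * (2 * B * δ ^ 2 / g + 1) * (C * A ^ (s + 1) * B ^ s * (1 / δ + 1 / B)) ≤
      8 * C * A ^ (s + 2) * B ^ (s + 1) * (1 / g + 1 / B) := by
  have hδ0 : 0 < δ := by linarith
  have h1 : 1 / δ + 1 / B ≤ 2 / δ := by
    have : 1 / B ≤ 1 / δ := one_div_le_one_div_of_le hδ0 (hδA.trans hAB)
    have h2 : 2 / δ = 1 / δ + 1 / δ := by ring
    linarith
  have h3 : (0 : ℝ) ≤ (2 * A / δ) * (2 * B * δ ^ 2 / g + 1) * (C * A ^ (s + 1) * B ^ s) := by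
    positivity
  have h4 : (1 : ℝ) / δ ^ 2 ≤ 1 := by
    rw [div_le_one (by positivity)]
    nlinarith
  calc (2 * A / δ) * (2 * B * δ ^ 2 / g + 1) * (C * A ^ (s + 1) * B ^ s * (1 / δ + 1 / B))
      = (2 * A / δ) * (2 * B * δ ^ 2 / g + 1) * (C * A ^ (s + 1) * B ^ s) * (1 / δ + 1 / B) := by
        ring
    _ ≤ (2 * A / δ) * (2 * B * δ ^ 2 / g + 1) * (C * A ^ (s + 1) * B ^ s) * (2 / δ) :=
        mul_le_mul_of_nonneg_left h1 h3
    _ = C * A ^ (s + 2) * B ^ s * (8 * B / g + 4 * (1 / δ ^ 2)) := by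
        rw [pow_succ A (s + 1)]
        field_simp
        ring
    _ ≤ C * A ^ (s + 2) * B ^ s * (8 * B / g + 8) := by
        apply mul_le_mul_of_nonneg_left _ (by positivity)
        linarith
    _ = 8 * C * A ^ (s + 2) * B ^ (s + 1) * (1 / g + 1 / B) := by
        rw [pow_succ B s]
        field_simp

theorem stP (hAP : StAP) (hMul : StMul) : StP := by
  intro c a b s
  induction s with
  | zero =>
    intro A B g hc hac hbc hA hAB hg
    have hg1 : 1 ≤ g := Nat.pos_of_dvd_of_pos hg hc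
    have hgpos : (0 : ℝ) < g := by exact_mod_cast hg1
    have hB : (0 : ℝ) < B := by exact_mod_cast (by omega : 0 < B)
    rw [M_P_eq]
    simp only [bx, Finset.sum_singleton, m_nil]
    rw [← Finset.sum_filter, Finset.sum_const, nsmul_eq_mul, mul_one]
    have h1 := hMul A g ((J c A).filter fun h => (g : ℤ) ∣ a * h) hg1
      ((Finset.filter_subset _ _).trans (J_subset c A)) (by
        intro x hx
        obtain ⟨h2, h3⟩ := Finset.mem_filter.1 hx
        exact ⟨ne_zero_of_mem_J h2, (M_P_cop hac hg).symm.dvd_of_dvd_mul_left h3⟩)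
    refine h1.trans ?_
    have h4 : (0 : ℝ) ≤ 2 * (A : ℝ) * (1 / B) := by positivity
    calc (2 * A / g : ℝ) = 2 * A * (1 / g) := by ring
      _ ≤ 2 * A * (1 / g) + 2 * A * (1 / B) := by linarith
      _ = 2 * 8 ^ 0 * τ c ^ 0 * (A : ℝ) ^ (0 + 1) * (B : ℝ) ^ 0 * (1 / g + 1 / B) := by ring
  | succ s ih =>
    intro A B g hc hac hbc hA hAB hg
    have hg1 : 1 ≤ g := Nat.pos_of_dvd_of_pos hg hc
    have hgpos : (0 : ℝ) < g := by exact_mod_cast hg1
    have hApos : (0 : ℝ) < A := by exact_mod_cast hA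
    have hBpos : (0 : ℝ) < B := by exact_mod_cast (by omega : 0 < B)
    have hABr : (A : ℝ) ≤ B := by exact_mod_cast hAB
    have hτ : 0 ≤ τ c := by unfold τ; positivity
    rw [M_P_eq, sum_bx_succ]
    have hin : ∀ t ∈ bx (J c A) (I B) s, ∀ h' ∈ J c A,
        ∑ k ∈ I B, ∑ h ∈ J c A,
          (if (g : ℤ) ∣ m a b ((h', k) :: t) h then (1 : ℝ) else 0) ≤
        ∑ δ ∈ c.divisors.filter (fun δ => δ ≤ A), (2 * A / δ : ℝ) *
          (2 * B * (δ : ℝ) ^ 2 / g + 1) * (if (δ : ℤ) ∣ m a b t h' then (1 : ℝ) else 0) := by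
      intro t _ h' _
      have h1 := M_P_inner (A := A) (B := B) hAP hMul hc hac hbc hg (coprime_m a b t h')
      simp only [← m_cons] at h1
      refine h1.trans (le_of_eq ?_)
      refine Finset.sum_congr rfl fun δ _ => ?_
      split_ifs
      · rw [mul_one]
      · rw [mul_zero]
    calc ∑ t ∈ bx (J c A) (I B) s, ∑ h' ∈ J c A, ∑ k ∈ I B, ∑ h ∈ J c A,
          (if (g : ℤ) ∣ m a b ((h', k) :: t) h then (1 : ℝ) else 0)
        ≤ ∑ t ∈ bx (J c A) (I B) s, ∑ h' ∈ J c A,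
          ∑ δ ∈ c.divisors.filter (fun δ => δ ≤ A), (2 * A / δ : ℝ) *
          (2 * B * (δ : ℝ) ^ 2 / g + 1) * (if (δ : ℤ) ∣ m a b t h' then (1 : ℝ) else 0) :=
          Finset.sum_le_sum fun t ht => Finset.sum_le_sum fun h' hh' => hin t ht h' hh'
      _ = ∑ δ ∈ c.divisors.filter (fun δ => δ ≤ A), (2 * A / δ : ℝ) *
          (2 * B * (δ : ℝ) ^ 2 / g + 1) * (P c a b s A B δ : ℝ) := by
          have : ∀ t ∈ bx (J c A) (I B) s, ∑ h' ∈ J c A,
              ∑ δ ∈ c.divisors.filter (fun δ => δ ≤ A), (2 * A / δ : ℝ) *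
              (2 * B * (δ : ℝ) ^ 2 / g + 1) * (if (δ : ℤ) ∣ m a b t h' then (1 : ℝ) else 0) =
              ∑ δ ∈ c.divisors.filter (fun δ => δ ≤ A), ∑ h' ∈ J c A, (2 * A / δ : ℝ) *
              (2 * B * (δ : ℝ) ^ 2 / g + 1) * (if (δ : ℤ) ∣ m a b t h' then (1 : ℝ) else 0) :=
            fun t _ => Finset.sum_comm
          rw [Finset.sum_congr rfl this, Finset.sum_comm]
          refine Finset.sum_congr rfl fun δ _ => ?_
          rw [M_P_eq, Finset.mul_sum]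
          refine Finset.sum_congr rfl fun t _ => ?_
          rw [Finset.mul_sum]
      _ ≤ ∑ δ ∈ c.divisors.filter (fun δ => δ ≤ A),
          8 * (2 * 8 ^ s * τ c ^ s) * (A : ℝ) ^ (s + 2) * (B : ℝ) ^ (s + 1) * (1 / g + 1 / B) := by
          refine Finset.sum_le_sum fun δ hδ => ?_
          rw [Finset.mem_filter, Nat.mem_divisors] at hδ
          obtain ⟨⟨hδc, _⟩, hδA⟩ := hδ
          have hδ1 : 1 ≤ δ := Nat.pos_of_dvd_of_pos hδc hc
          have hδr : (1 : ℝ) ≤ δ := by exact_mod_cast hδ1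
          have hδAr : (δ : ℝ) ≤ A := by exact_mod_cast hδA
          have h1 := ih A B δ hc hac hbc hA hAB hδc
          have hδ0 : (0 : ℝ) < δ := by linarith
          have h2 : (0 : ℝ) ≤ (2 * A / δ : ℝ) * (2 * B * (δ : ℝ) ^ 2 / g + 1) := by positivity
          refine (mul_le_mul_of_nonneg_left h1 h2).trans ?_
          exact M_P_arith (by positivity) hApos hBpos hgpos hδr hδAr hABr
      _ ≤ τ c * (8 * (2 * 8 ^ s * τ c ^ s) * (A : ℝ) ^ (s + 2) * (B : ℝ) ^ (s + 1) *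
          (1 / g + 1 / B)) := by
          rw [Finset.sum_const, nsmul_eq_mul]
          apply mul_le_mul_of_nonneg_right _ (by positivity)
          unfold τ
          exact_mod_cast Finset.card_le_card (Finset.filter_subset _ _)
      _ = 2 * 8 ^ (s + 1) * τ c ^ (s + 1) * (A : ℝ) ^ (s + 1 + 1) * (B : ℝ) ^ (s + 1) *
          (1 / g + 1 / B) := by ring

end Pool.Agent.Helper56.SW
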