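import Pool.Agent.Helper56.SW.Basic
import Pool.Agent.Helper56.SW.Statements

/-! # MP_e188f1_nt, module M_Rel -/

set_option autoImplicit false

namespace Pool.Agent.Helper56.SW

open Finset Matrix

/-- entry (0,1) of `L(y₁) X L(y₃) = M⁻¹ R` -/
theorem mRel_01 (a b : ℤ) (t : List (ℤ × ℤ)) (h1 k1 h2 k2 h3 k3 : ℤ) :
    β a b h2 k2 h3 =
      (E a b t 1 1 + a * h1 * E a b t 1 0) * E a b ((h3, k3) :: (h2, k2) :: (h1, k1) :: t) 0 1 -
      m a b t h1 * E a b ((h3, k3) :: (h2, k2) :: (h1, k1) :: t) 1 1 := by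
  have hd := E_det a b t
  simp only [E_cons_01, E_cons_11, E_cons_00, E_cons_10, m, β]
  linear_combination (-(a * h2 + a * h3 + a * h2 * (a * h3) * (b * k2))) * hd

/-- entry (0,0) -/
theorem mRel_00 (a b : ℤ) (t : List (ℤ × ℤ)) (h1 k1 h2 k2 h3 k3 : ℤ) :
    1 + a * h2 * (b * k2) + β a b h2 k2 h3 * (b * k3) =
      (E a b t 1 1 + a * h1 * E a b t 1 0) * E a b ((h3, k3) :: (h2, k2) :: (h1, k1) :: t) 0 0 -
      m a b t h1 * E a b ((h3, k3) :: (h2, k2) :: (h1, k1) :: t) 1 0 := by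
  have hd := E_det a b t
  simp only [E_cons_01, E_cons_11, E_cons_00, E_cons_10, m, β]
  linear_combination (-(1 + a * h2 * (b * k2) +
    (a * h2 + a * h3 + a * h2 * (a * h3) * (b * k2)) * (b * k3))) * hd

/-- entry (1,1) -/
theorem mRel_11 (a b : ℤ) (t : List (ℤ × ℤ)) (h1 k1 h2 k2 h3 k3 : ℤ) :
    b * k1 * β a b h2 k2 h3 + (1 + b * k2 * (a * h3)) =
      E a b t 0 0 * E a b ((h3, k3) :: (h2, k2) :: (h1, k1) :: t) 1 1 -
      E a b t 1 0 * E a b ((h3, k3) :: (h2, k2) :: (h1, k1) :: t) 0 1 := by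
  have hd := E_det a b t
  simp only [E_cons_01, E_cons_11, E_cons_00, E_cons_10, β]
  linear_combination (-(b * k1 * (a * h2 + a * h3 + a * h2 * (a * h3) * (b * k2)) +
    (1 + b * k2 * (a * h3)))) * hd

/-- entry (1,0) -/
theorem mRel_10 (a b : ℤ) (t : List (ℤ × ℤ)) (h1 k1 h2 k2 h3 k3 : ℤ) :
    b * k1 * (1 + a * h2 * (b * k2)) + b * k2 +
      (b * k1 * β a b h2 k2 h3 + (1 + b * k2 * (a * h3))) * (b * k3) =
      E a b t 0 0 * E a b ((h3, k3) :: (h2, k2) :: (h1, k1) :: t) 1 0 -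
      E a b t 1 0 * E a b ((h3, k3) :: (h2, k2) :: (h1, k1) :: t) 0 0 := by
  have hd := E_det a b t
  simp only [E_cons_01, E_cons_11, E_cons_00, E_cons_10, β]
  linear_combination (-(b * k1 * (1 + a * h2 * (b * k2)) + b * k2 +
      (b * k1 * (a * h2 + a * h3 + a * h2 * (a * h3) * (b * k2)) +
        (1 + b * k2 * (a * h3))) * (b * k3))) * hd

theorem mRel_first {c : ℕ} {a b γ : ℤ} {t : List (ℤ × ℤ)} {h1 k1 h2 k2 h3 k3 : ℤ}
    (h : Rel c a b γ ((h3, k3) :: (h2, k2) :: (h1, k1) :: t)) :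
    (c : ℤ) ∣ β a b h2 k2 h3 + γ * m a b t h1 := by
  obtain ⟨_, r01, _, r11⟩ := h
  have e := mRel_01 a b t h1 k1 h2 k2 h3 k3
  have e2 : β a b h2 k2 h3 + γ * m a b t h1 =
      (E a b t 1 1 + a * h1 * E a b t 1 0) * E a b ((h3, k3) :: (h2, k2) :: (h1, k1) :: t) 0 1 -
      m a b t h1 * (E a b ((h3, k3) :: (h2, k2) :: (h1, k1) :: t) 1 1 - γ) := by
    rw [e]; ring
  rw [e2]
  exact dvd_sub (Dvd.dvd.mul_left r01 _) (Dvd.dvd.mul_left r11 _)

theorem stRel : StRel := by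
  intro c a b γ t h1 k1 h2 k2 h3 k3 _ h
  refine ⟨mRel_first h, ?_⟩
  intro g hg hgm
  have hgc : (g : ℤ) ∣ (c : ℤ) := by exact_mod_cast hg
  have h0 := hgc.trans (mRel_first h)
  have hβ : (g : ℤ) ∣ β a b h2 k2 h3 := (dvd_add_left (Dvd.dvd.mul_left hgm γ)).1 h0
  refine ⟨hβ, ?_⟩
  obtain ⟨r00, _, _, _⟩ := h
  have e := mRel_00 a b t h1 k1 h2 k2 h3 k3
  have e2 : 1 + a * h2 * (b * k2) - γ * (E a b t 1 1 + a * h1 * E a b t 1 0) =
      (E a b t 1 1 + a * h1 * E a b t 1 0) *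
        (E a b ((h3, k3) :: (h2, k2) :: (h1, k1) :: t) 0 0 - γ) -
      m a b t h1 * E a b ((h3, k3) :: (h2, k2) :: (h1, k1) :: t) 1 0 -
      β a b h2 k2 h3 * (b * k3) := by
    linear_combination e
  rw [e2]
  exact dvd_sub (dvd_sub (Dvd.dvd.mul_left (hgc.trans r00) _) (Dvd.dvd.mul_right hgm _))
    (Dvd.dvd.mul_right hβ _)

theorem stFib (hAP : StAP) : StFib := by
  intro c a b γ t h1 h2 k2 h3 B hc ha hb hγ S hS
  have hc0 : (0 : ℝ) < (c : ℝ) := by exact_mod_cast hc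
  have hcZ : (c : ℤ) ≠ 0 := by exact_mod_cast (by omega : c ≠ 0)
  have hγu : IsCoprime γ (c : ℤ) := by
    obtain ⟨w, hw⟩ := hγ
    exact ⟨γ, -w, by linear_combination hw⟩
  -- first coordinates
  set G : ℕ := Int.gcd (m a b t h1) c with hG
  have hGc : G ∣ c := by
    have := Int.gcd_dvd_right (m a b t h1) (c : ℤ)
    exact_mod_cast this
  have hGpos : 0 < G := Nat.pos_of_dvd_of_pos hGc hc
  obtain ⟨n, hn⟩ := hGc
  have hnpos : 1 ≤ n := by
    rcases Nat.eq_zero_or_pos n with h0 | h0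
    · rw [h0, mul_zero] at hn; omega
    · exact h0
  have key1 : ∀ p ∈ S, ∀ q ∈ S, (n : ℤ) ∣ p.1 - q.1 := by
    intro p hp q hq
    obtain ⟨_, _, hRp⟩ := hS p hp
    obtain ⟨_, _, hRq⟩ := hS q hq
    have e1 := mRel_11 a b t h1 p.1 h2 k2 h3 p.2
    have e2 := mRel_11 a b t h1 q.1 h2 k2 h3 q.2
    obtain ⟨_, p01, _, p11⟩ := hRp
    have hRq' := hRq
    obtain ⟨_, q01, _, q11⟩ := hRq
    have hh3 : (c : ℤ) ∣ b * ((p.1 - q.1) * β a b h2 k2 h3) := by
      have e3 : b * ((p.1 - q.1) * β a b h2 k2 h3) =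
          E a b t 0 0 * (E a b ((h3, p.2) :: (h2, k2) :: (h1, p.1) :: t) 1 1 - γ) -
          E a b t 1 0 * E a b ((h3, p.2) :: (h2, k2) :: (h1, p.1) :: t) 0 1 -
          (E a b t 0 0 * (E a b ((h3, q.2) :: (h2, k2) :: (h1, q.1) :: t) 1 1 - γ) -
          E a b t 1 0 * E a b ((h3, q.2) :: (h2, k2) :: (h1, q.1) :: t) 0 1) := by
        linear_combination e1 - e2
      rw [e3]
      exact dvd_sub (dvd_sub (Dvd.dvd.mul_left p11 _) (Dvd.dvd.mul_left p01 _))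
        (dvd_sub (Dvd.dvd.mul_left q11 _) (Dvd.dvd.mul_left q01 _))
    have h4 : (c : ℤ) ∣ (p.1 - q.1) * β a b h2 k2 h3 := hb.symm.dvd_of_dvd_mul_left hh3
    have h5 := mRel_first hRq'
    have h6 : (c : ℤ) ∣ γ * ((p.1 - q.1) * m a b t h1) := by
      have e4 : γ * ((p.1 - q.1) * m a b t h1) =
          (p.1 - q.1) * (β a b h2 k2 h3 + γ * m a b t h1) - (p.1 - q.1) * β a b h2 k2 h3 := by
        ring
      rw [e4]
      exact dvd_sub (Dvd.dvd.mul_left h5 _) h4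
    have h7 : (c : ℤ) ∣ (p.1 - q.1) * m a b t h1 := hγu.symm.dvd_of_dvd_mul_left h6
    -- divide by the gcd
    have hg1 : (G : ℤ) ∣ m a b t h1 := Int.gcd_dvd_left _ _
    obtain ⟨m', hm'⟩ := hg1
    have hcn : (c : ℤ) = G * n := by exact_mod_cast hn
    have hcop : IsCoprime (m' : ℤ) (n : ℤ) := by
      rw [Int.isCoprime_iff_gcd_eq_one]
      have h8 : Int.gcd (m a b t h1) c = G * Int.gcd m' n := by
        rw [hm', hcn, Int.gcd_mul_left]
        simp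
      rw [← hG] at h8
      have h9 : G * Int.gcd m' n = G * 1 := by rw [← h8, mul_one]
      exact Nat.eq_of_mul_eq_mul_left hGpos h9
    rw [hcn, hm'] at h7
    have h10 : (G : ℤ) * n ∣ G * ((p.1 - q.1) * m') := by
      have : (p.1 - q.1) * (G * m') = G * ((p.1 - q.1) * m') := by ring
      rwa [this] at h7
    have hG0 : (G : ℤ) ≠ 0 := by exact_mod_cast hGpos.ne'
    have h11 : (n : ℤ) ∣ (p.1 - q.1) * m' := (mul_dvd_mul_iff_left hG0).1 h10
    exact hcop.symm.dvd_of_dvd_mul_right h11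
  have key2 : ∀ p ∈ S, ∀ q ∈ S, p.1 = q.1 → (c : ℤ) ∣ p.2 - q.2 := by
    intro p hp q hq hpq
    obtain ⟨_, _, hRp⟩ := hS p hp
    obtain ⟨_, _, hRq⟩ := hS q hq
    have e1 := mRel_00 a b t h1 p.1 h2 k2 h3 p.2
    have e2 := mRel_00 a b t h1 q.1 h2 k2 h3 q.2
    have f1 := mRel_10 a b t h1 p.1 h2 k2 h3 p.2
    have f2 := mRel_10 a b t h1 q.1 h2 k2 h3 q.2
    obtain ⟨p00, p01, p10, p11⟩ := hRp
    obtain ⟨q00, q01, q10, q11⟩ := hRq
    have hh3 : (c : ℤ) ∣ b * ((p.2 - q.2) * β a b h2 k2 h3) := by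
      have e3 : b * ((p.2 - q.2) * β a b h2 k2 h3) =
          (E a b t 1 1 + a * h1 * E a b t 1 0) *
            (E a b ((h3, p.2) :: (h2, k2) :: (h1, p.1) :: t) 0 0 - γ) -
          m a b t h1 * E a b ((h3, p.2) :: (h2, k2) :: (h1, p.1) :: t) 1 0 -
          ((E a b t 1 1 + a * h1 * E a b t 1 0) *
            (E a b ((h3, q.2) :: (h2, k2) :: (h1, q.1) :: t) 0 0 - γ) -
          m a b t h1 * E a b ((h3, q.2) :: (h2, k2) :: (h1, q.1) :: t) 1 0) := by
        linear_combination e1 - e2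
      rw [e3]
      exact dvd_sub (dvd_sub (Dvd.dvd.mul_left p00 _) (Dvd.dvd.mul_left p10 _))
        (dvd_sub (Dvd.dvd.mul_left q00 _) (Dvd.dvd.mul_left q10 _))
    have h4 : (c : ℤ) ∣ (p.2 - q.2) * β a b h2 k2 h3 := hb.symm.dvd_of_dvd_mul_left hh3
    have h5 : (c : ℤ) ∣ b * ((p.2 - q.2) *
        (b * p.1 * β a b h2 k2 h3 + (1 + b * k2 * (a * h3)))) := by
      have e3 : b * ((p.2 - q.2) * (b * p.1 * β a b h2 k2 h3 + (1 + b * k2 * (a * h3)))) =
          E a b t 0 0 * E a b ((h3, p.2) :: (h2, k2) :: (h1, p.1) :: t) 1 0 -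
          E a b t 1 0 * (E a b ((h3, p.2) :: (h2, k2) :: (h1, p.1) :: t) 0 0 - γ) -
          (E a b t 0 0 * E a b ((h3, q.2) :: (h2, k2) :: (h1, q.1) :: t) 1 0 -
          E a b t 1 0 * (E a b ((h3, q.2) :: (h2, k2) :: (h1, q.1) :: t) 0 0 - γ)) := by
        rw [← hpq] at f2 ⊢
        linear_combination f1 - f2
      rw [e3]
      exact dvd_sub (dvd_sub (Dvd.dvd.mul_left p10 _) (Dvd.dvd.mul_left p00 _))
        (dvd_sub (Dvd.dvd.mul_left q10 _) (Dvd.dvd.mul_left q00 _))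
    have h6 := hb.symm.dvd_of_dvd_mul_left h5
    have e4 : p.2 - q.2 = (1 + a * h2 * (b * k2)) *
        ((p.2 - q.2) * (b * p.1 * β a b h2 k2 h3 + (1 + b * k2 * (a * h3)))) -
        (b * p.1 * (1 + a * h2 * (b * k2)) + b * k2) * ((p.2 - q.2) * β a b h2 k2 h3) := by
      unfold β
      ring
    rw [e4]
    exact dvd_sub (Dvd.dvd.mul_left h6 _) (Dvd.dvd.mul_left h4 _)
  -- counting
  have hfst : ((S.image Prod.fst).card : ℝ) ≤ 2 * B / n + 1 := by
    refine hAP B n (S.image Prod.fst) hnpos ?_ ?_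
    · intro x hx
      obtain ⟨p, hp, rfl⟩ := mem_image.1 hx
      exact (hS p hp).1
    · intro x hx y hy
      obtain ⟨p, hp, rfl⟩ := mem_image.1 hx
      obtain ⟨q, hq, rfl⟩ := mem_image.1 hy
      exact key1 p hp q hq
  have hfib : ∀ x ∈ S.image Prod.fst, ((S.filter fun p => p.1 = x).card : ℝ) ≤ 2 * B / c + 1 := by
    intro x _
    have h1' : (S.filter fun p => p.1 = x).card =
        ((S.filter fun p => p.1 = x).image Prod.snd).card := by
      rw [card_image_of_injOn]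
      intro p hp q hq hpq
      rw [mem_coe, mem_filter] at hp hq
      exact Prod.ext (hp.2.trans hq.2.symm) hpq
    rw [h1']
    refine hAP B c _ hc ?_ ?_
    · intro y hy
      obtain ⟨p, hp, rfl⟩ := mem_image.1 hy
      rw [mem_filter] at hp
      exact (hS p hp.1).2.1
    · intro y hy z hz
      obtain ⟨p, hp, rfl⟩ := mem_image.1 hy
      obtain ⟨q, hq, rfl⟩ := mem_image.1 hz
      rw [mem_filter] at hp hq
      exact key2 p hp.1 q hq.1 (hp.2.trans hq.2.symm)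
  have hsum : (S.card : ℝ) = ∑ x ∈ S.image Prod.fst, ((S.filter fun p => p.1 = x).card : ℝ) := by
    have := card_eq_sum_card_image Prod.fst S
    exact_mod_cast this
  rw [hsum]
  have hn2 : 2 * (B : ℝ) / n + 1 = 2 * B * G / c + 1 := by
    have hcn : (c : ℝ) = G * n := by exact_mod_cast hn
    have hGr : (G : ℝ) ≠ 0 := by exact_mod_cast hGpos.ne'
    have hnr : (n : ℝ) ≠ 0 := by exact_mod_cast (by omega : n ≠ 0)
    rw [hcn]
    field_simp
  calc ∑ x ∈ S.image Prod.fst, ((S.filter fun p => p.1 = x).card : ℝ)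
      ≤ ∑ _x ∈ S.image Prod.fst, (2 * (B : ℝ) / c + 1) := sum_le_sum hfib
    _ = ((S.image Prod.fst).card : ℝ) * (2 * (B : ℝ) / c + 1) := by
        rw [sum_const, nsmul_eq_mul]
    _ ≤ (2 * B / n + 1) * (2 * (B : ℝ) / c + 1) :=
        mul_le_mul_of_nonneg_right hfst (by positivity)
    _ = _ := by rw [hn2]

end Pool.Agent.Helper56.SW
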