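import Pool.Agent.Helper56.SW.Basic
import Pool.Agent.Helper56.SW.Statements

/-! # MP_e188f1_nt, module M_S -/

set_option autoImplicit false

namespace Pool.Agent.Helper56.SW

open Finset Matrix

theorem M_S_cop {a : ℤ} {c : ℕ} (ha : IsCoprime a (c : ℤ)) {d : ℕ} (hd : d ∣ c) :
    IsCoprime a (d : ℤ) := by
  obtain ⟨e, rfl⟩ := hd
  rw [Nat.cast_mul] at ha
  exact ha.of_mul_right_left

/-- The number of `k` with `d ∣ p + q b k`. -/
theorem M_S_count (hAP : StAP) {b : ℤ} {c d B : ℕ} (hc : 1 ≤ c) (hbc : IsCoprime b (c : ℤ))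
    (hd : d ∣ c) {p q : ℤ} (hpq : IsCoprime p q) :
    (((I B).filter fun k => (d : ℤ) ∣ p + q * (b * k)).card : ℝ) ≤ 2 * B / d + 1 := by
  have hd1 : 1 ≤ d := Nat.pos_of_dvd_of_pos hd hc
  apply hAP B d _ hd1 (Finset.filter_subset _ _)
  intro x hx y hy
  have h1 := (Finset.mem_filter.1 hx).2
  have h2 := (Finset.mem_filter.1 hy).2
  have hqd : IsCoprime (d : ℤ) q := by
    have h3 : IsCoprime (p + q * (b * x)) q := hpq.add_mul_left_left (b * x)
    exact h3.of_isCoprime_of_dvd_left h1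
  have h4 : (d : ℤ) ∣ q * (b * (x - y)) := by
    have := dvd_sub h1 h2
    have h5 : p + q * (b * x) - (p + q * (b * y)) = q * (b * (x - y)) := by ring
    rwa [h5] at this
  exact (M_S_cop hbc hd).symm.dvd_of_dvd_mul_left (hqd.dvd_of_dvd_mul_left h4)

theorem M_S_inner (hAP : StAP) {b : ℤ} {c B : ℕ} (hc : 1 ≤ c) (hbc : IsCoprime b (c : ℤ))
    {p q : ℤ} (hpq : IsCoprime p q) :
    ∑ k ∈ I B, (Int.gcd (p + q * (b * k)) c : ℝ) ≤ τ c * (2 * B + c) := by
  have h1 : ∀ k ∈ I B, (Int.gcd (p + q * (b * k)) c : ℝ) ≤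
      ∑ d ∈ c.divisors, (if (d : ℤ) ∣ p + q * (b * k) then (d : ℝ) else 0) := by
    intro k _
    have hmem : Int.gcd (p + q * (b * k)) c ∈ c.divisors := by
      rw [Nat.mem_divisors]
      exact ⟨Int.natCast_dvd_natCast.1 (Int.gcd_dvd_right _ _), by omega⟩
    have h2 := Finset.single_le_sum
      (f := fun d : ℕ => (if (d : ℤ) ∣ p + q * (b * k) then (d : ℝ) else 0))
      (s := c.divisors) (fun d _ => by
        show (0 : ℝ) ≤ (if (d : ℤ) ∣ p + q * (b * k) then (d : ℝ) else 0)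
        split_ifs
        · exact Nat.cast_nonneg _
        · exact le_rfl) hmem
    refine le_trans (le_of_eq ?_) h2
    show _ = (if ((Int.gcd (p + q * (b * k)) c : ℕ) : ℤ) ∣ p + q * (b * k) then
      ((Int.gcd (p + q * (b * k)) c : ℕ) : ℝ) else 0)
    rw [if_pos (Int.gcd_dvd_left _ _)]
  calc ∑ k ∈ I B, (Int.gcd (p + q * (b * k)) c : ℝ)
      ≤ ∑ k ∈ I B, ∑ d ∈ c.divisors, (if (d : ℤ) ∣ p + q * (b * k) then (d : ℝ) else 0) :=
        Finset.sum_le_sum h1
    _ = ∑ d ∈ c.divisors, (((I B).filter fun k => (d : ℤ) ∣ p + q * (b * k)).card : ℝ) * d := by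
        rw [Finset.sum_comm]
        refine Finset.sum_congr rfl fun d _ => ?_
        rw [← Finset.sum_filter, Finset.sum_const, nsmul_eq_mul]
    _ ≤ ∑ d ∈ c.divisors, (2 * B + c : ℝ) := by
        refine Finset.sum_le_sum fun d hd => ?_
        rw [Nat.mem_divisors] at hd
        have hd1 : 1 ≤ d := Nat.pos_of_dvd_of_pos hd.1 hc
        have hdr : (0 : ℝ) < d := by exact_mod_cast hd1
        have hdc : (d : ℝ) ≤ c := by exact_mod_cast Nat.le_of_dvd hc hd.1
        have h2 := M_S_count (B := B) hAP hc hbc hd.1 hpq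
        calc (((I B).filter fun k => (d : ℤ) ∣ p + q * (b * k)).card : ℝ) * d
            ≤ (2 * B / d + 1) * d := mul_le_mul_of_nonneg_right h2 hdr.le
          _ = 2 * B + d := by field_simp
          _ ≤ 2 * B + c := by linarith
    _ = τ c * (2 * B + c) := by
        rw [Finset.sum_const, nsmul_eq_mul]
        rfl

theorem stS (hAP : StAP) : StS := by
  intro c a b s A B hc hac hbc hA hB
  have hApos : (0 : ℝ) < A := by exact_mod_cast hA
  have hBpos : (0 : ℝ) < B := by exact_mod_cast hB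
  have hcpos : (0 : ℝ) < c := by exact_mod_cast hc
  have hJ : ((J c A).card : ℝ) ≤ 2 * A := by exact_mod_cast card_J_le c A
  have hI : ((I B).card : ℝ) ≤ 3 * B := by
    rw [card_I]
    push_cast
    have : (1 : ℝ) ≤ B := by exact_mod_cast hB
    linarith
  have hcard : ∀ s : ℕ, ((bx (J c A) (I B) s).card : ℝ) ≤ (6 * A * B : ℝ) ^ s := by
    intro s
    rw [card_bx]
    push_cast
    apply pow_le_pow_left₀ (by positivity)
    calc ((J c A).card : ℝ) * ((I B).card : ℝ) ≤ (2 * A) * (3 * B) :=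
          mul_le_mul hJ hI (by positivity) (by positivity)
      _ = 6 * A * B := by ring
  refine ⟨?_, hcard s⟩
  have hτ1 : 1 ≤ τ c := one_le_τ hc
  cases s with
  | zero =>
    have h0 : bx (J c A) (I B) 0 = {[]} := rfl
    rw [h0, Finset.sum_singleton, E_nil]
    have h1 : Int.gcd ((1 : Matrix (Fin 2) (Fin 2) ℤ) 0 0) c = 1 := by
      rw [Matrix.one_apply_eq, Int.gcd, Int.natAbs_one, Nat.gcd_one_left]
    rw [h1, pow_zero, one_mul, Nat.cast_one]
    have h2 : (0 : ℝ) ≤ c / B := by positivity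
    nlinarith
  | succ s =>
    rw [sum_bx_succ]
    have h1 : ∀ t ∈ bx (J c A) (I B) s, ∀ h ∈ J c A,
        ∑ k ∈ I B, (Int.gcd (E a b ((h, k) :: t) 0 0) c : ℝ) ≤ τ c * (2 * B + c) := by
      intro t _ h _
      simp only [E_cons_00']
      exact M_S_inner hAP hc hbc (coprime_m a b t h)
    calc ∑ t ∈ bx (J c A) (I B) s, ∑ h ∈ J c A, ∑ k ∈ I B,
          (Int.gcd (E a b ((h, k) :: t) 0 0) c : ℝ)
        ≤ ∑ t ∈ bx (J c A) (I B) s, ∑ h ∈ J c A, τ c * (2 * B + c) :=
          Finset.sum_le_sum fun t ht => Finset.sum_le_sum fun h hh => h1 t ht h hh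
      _ = ((bx (J c A) (I B) s).card : ℝ) * (((J c A).card : ℝ) * (τ c * (2 * B + c))) := by
          rw [Finset.sum_const, Finset.sum_const, nsmul_eq_mul, nsmul_eq_mul]
      _ ≤ (6 * A * B : ℝ) ^ s * ((2 * A) * (τ c * (2 * B + c))) := by
          have hnn : (0 : ℝ) ≤ τ c * (2 * B + c) := by positivity
          apply mul_le_mul (hcard s) (mul_le_mul_of_nonneg_right hJ hnn) (by positivity)
            (by positivity)
      _ ≤ (6 * A * B : ℝ) ^ s * ((6 * A) * (τ c * (2 * B + c))) := by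
          have hnn : (0 : ℝ) ≤ τ c * (2 * B + c) := by positivity
          apply mul_le_mul_of_nonneg_left _ (by positivity)
          apply mul_le_mul_of_nonneg_right _ hnn
          linarith
      _ = (6 * A * B : ℝ) ^ (s + 1) * (τ c * (2 + c / B)) := by
          rw [pow_succ]
          field_simp

end Pool.Agent.Helper56.SW
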