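import Pool.Agent.Helper56.SW.Basic
import Pool.Agent.Helper56.SW.Statements

/-! # MP_e188f1_nt, module M_Sqrt -/

set_option autoImplicit false

namespace Pool.Agent.Helper56.SW

open Finset Matrix

/-- `c / gcd (γ - 1, c)` divides `γ + 1`. -/
theorem M_Sqrt_dvd {c : ℕ} {x : ℤ} (hc : 1 ≤ c) (h : (c : ℤ) ∣ x ^ 2 - 1) {d e : ℕ}
    (hd : Int.gcd (x - 1) c = d) (he : c = d * e) : (e : ℤ) ∣ x + 1 := by
  have hdpos : 0 < d := by
    rcases Nat.eq_zero_or_pos d with h0 | h0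
    · rw [h0, Nat.zero_mul] at he; omega
    · exact h0
  have hd1 : (d : ℤ) ∣ x - 1 := by
    rw [← hd]
    exact Int.gcd_dvd_left _ _
  obtain ⟨r, hr⟩ := hd1
  have hcop : Int.gcd r e = 1 := by
    have h3 : Int.gcd ((d : ℤ) * r) ((d : ℤ) * e) = d * Int.gcd r e := by
      rw [Int.gcd_mul_left, Int.natAbs_natCast]
    have h4 : d * 1 = d * Int.gcd r e := by
      rw [← h3, ← hr, Nat.mul_one]
      conv_lhs => rw [← hd, he]
      push_cast
      rfl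
    exact (Nat.eq_of_mul_eq_mul_left hdpos h4).symm
  have h5 : (d : ℤ) * e ∣ (d : ℤ) * (r * (x + 1)) := by
    have h6 : (d : ℤ) * (r * (x + 1)) = x ^ 2 - 1 := by
      rw [← mul_assoc, ← hr]; ring
    rw [h6]
    have h7 : ((d * e : ℕ) : ℤ) = (d : ℤ) * e := by push_cast; rfl
    rw [← h7, ← he]
    exact h
  have hd0 : (d : ℤ) ≠ 0 := by exact_mod_cast hdpos.ne'
  have h8 : (e : ℤ) ∣ r * (x + 1) := (mul_dvd_mul_iff_left hd0).1 h5
  exact (Int.isCoprime_iff_gcd_eq_one.2 hcop).symm.dvd_of_dvd_mul_left h8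

theorem M_Sqrt_two {c : ℕ} {x y : ℤ} (hc : 1 ≤ c) (hx : (c : ℤ) ∣ x ^ 2 - 1)
    (hy : (c : ℤ) ∣ y ^ 2 - 1) (hxy : Int.gcd (x - 1) c = Int.gcd (y - 1) c) :
    (c : ℤ) ∣ 2 * (x - y) := by
  set d := Int.gcd (y - 1) c with hd
  have hdc : d ∣ c := Int.natCast_dvd_natCast.1 (Int.gcd_dvd_right _ _)
  obtain ⟨e, he⟩ := hdc
  have hex := M_Sqrt_dvd hc hx hxy he
  have hey := M_Sqrt_dvd hc hy hd.symm he
  have hdx : (d : ℤ) ∣ x - 1 := by
    rw [← hxy]
    exact Int.gcd_dvd_left _ _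
  have hdy : (d : ℤ) ∣ y - 1 := Int.gcd_dvd_left _ _
  have h1 : (d : ℤ) ∣ x - y := by
    have := dvd_sub hdx hdy
    have h2 : x - 1 - (y - 1) = x - y := by ring
    rwa [h2] at this
  have h2 : (e : ℤ) ∣ x - y := by
    have := dvd_sub hex hey
    have h2 : x + 1 - (y + 1) = x - y := by ring
    rwa [h2] at this
  have h3 : ((Int.gcd d e : ℕ) : ℤ) ∣ 2 := by
    have h4 : ((Int.gcd d e : ℕ) : ℤ) ∣ x + 1 - (x - 1) :=
      dvd_sub ((Int.gcd_dvd_right _ _).trans hex) ((Int.gcd_dvd_left _ _).trans hdx)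
    have h5 : x + 1 - (x - 1) = 2 := by ring
    rwa [h5] at h4
  -- write gcd (d, e) = d u + e v
  have h6 : (c : ℤ) ∣ ((Int.gcd d e : ℕ) : ℤ) * (x - y) := by
    rw [Int.gcd_eq_gcd_ab, add_mul, he]
    push_cast
    apply dvd_add
    · obtain ⟨s, hs⟩ := h2
      exact ⟨Int.gcdA d e * s, by rw [hs]; ring⟩
    · obtain ⟨s, hs⟩ := h1
      exact ⟨Int.gcdB d e * s, by rw [hs]; ring⟩
  obtain ⟨u, hu⟩ := h3
  have h7 : 2 * (x - y) = u * (((Int.gcd d e : ℕ) : ℤ) * (x - y)) := by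
    rw [hu]; ring
  rw [h7]
  exact Dvd.dvd.mul_left h6 u

theorem M_Sqrt_cases {c x y : ℕ} (hx : x < c) (hy : y < c)
    (h : (c : ℤ) ∣ 2 * ((x : ℤ) - y)) : x = y ∨ 2 * x = 2 * y + c ∨ 2 * y = 2 * x + c := by
  obtain ⟨k, hk⟩ := h
  have h1 : k < 2 := by
    by_contra hcon
    have : 2 ≤ k := not_lt.1 hcon
    have hc0 : (0 : ℤ) < c := by omega
    nlinarith
  have h2 : -2 < k := by
    by_contra hcon
    have : k ≤ -2 := not_lt.1 hcon
    have hc0 : (0 : ℤ) < c := by omega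
    nlinarith
  have h3 : k = -1 ∨ k = 0 ∨ k = 1 := by omega
  rcases h3 with rfl | rfl | rfl
  · right; right; omega
  · left; omega
  · right; left; omega

theorem stSqrt : StSqrt := by
  intro c hc
  have h1 : (Γ c).card ≤ 2 * ((Γ c).image fun x : ℕ => Int.gcd ((x : ℤ) - 1) c).card := by
    apply Finset.card_le_mul_card_image
    intro d _
    by_contra hcon
    rw [not_le, Finset.two_lt_card] at hcon
    obtain ⟨x, hx, y, hy, z, hz, hxy, hxz, hyz⟩ := hcon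
    rw [Finset.mem_filter, Γ, Finset.mem_filter, Finset.mem_range] at hx hy hz
    have c1 := M_Sqrt_cases hx.1.1 hy.1.1
      (M_Sqrt_two hc hx.1.2 hy.1.2 (hx.2.trans hy.2.symm))
    have c2 := M_Sqrt_cases hx.1.1 hz.1.1
      (M_Sqrt_two hc hx.1.2 hz.1.2 (hx.2.trans hz.2.symm))
    have c3 := M_Sqrt_cases hy.1.1 hz.1.1
      (M_Sqrt_two hc hy.1.2 hz.1.2 (hy.2.trans hz.2.symm))
    omega
  have h2 : ((Γ c).image fun x : ℕ => Int.gcd ((x : ℤ) - 1) c).card ≤ c.divisors.card := by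
    apply Finset.card_le_card
    intro d hd
    obtain ⟨x, _, rfl⟩ := Finset.mem_image.1 hd
    rw [Nat.mem_divisors]
    exact ⟨Int.natCast_dvd_natCast.1 (Int.gcd_dvd_right _ _), by omega⟩
  have h3 : (Γ c).card ≤ 2 * c.divisors.card := h1.trans (Nat.mul_le_mul_left 2 h2)
  unfold τ
  exact_mod_cast h3

end Pool.Agent.Helper56.SW
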