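import Pool.Agent.Helper56.SW.Basic
import Pool.Agent.Helper56.SW.Statements

/-! # MP_e188f1_nt, module M_T -/

set_option autoImplicit false

namespace Pool.Agent.Helper56.SW

open Finset Matrix

/-- the difference set of the module M_T -/
noncomputable def mtQ (c : ℕ) (a b γ : ℤ) (A B g : ℕ) (e : ℤ) : Finset (ℤ × ℤ × ℤ × ℤ) :=
  ((J c A) ×ˢ (J c A) ×ˢ (I (2 * A)) ×ˢ (I (2 * B))).filter fun p =>
    (g : ℤ) ∣ p.2.2.1 ∧ (c : ℤ) ∣ a * b * (p.1 * p.2.1 * p.2.2.2) + γ * e * p.2.2.1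

theorem mt_sub_mem {B : ℕ} {x y : ℤ} (hx : x ∈ I B) (hy : y ∈ I B) : x - y ∈ I (2 * B) := by
  rw [I, mem_Icc] at *
  push_cast
  omega

theorem mt_inj (c : ℕ) (a b γ : ℤ) (A B g : ℕ) (t : List (ℤ × ℤ)) (hgc : g ∣ c)
    (ha : IsCoprime a c) :
    (((J c A) ×ˢ (J c A) ×ˢ (I B) ×ˢ (J c A)).filter
      fun p => (c : ℤ) ∣ β a b p.2.1 p.2.2.1 p.2.2.2 + γ * m a b t p.1 ∧
        (g : ℤ) ∣ m a b t p.1).card ≤ (mtQ c a b γ A B g (E a b t 0 0)).card := by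
  classical
  let C : ℤ → ℤ → ℤ × ℤ → Prop := fun h2 h3 q => q.1 ∈ J c A ∧ q.2 ∈ I B ∧
    (c : ℤ) ∣ β a b h2 q.2 h3 + γ * m a b t q.1 ∧ (g : ℤ) ∣ m a b t q.1
  let star : ℤ → ℤ → ℤ × ℤ := fun h2 h3 =>
    if h : ∃ q : ℤ × ℤ, C h2 h3 q then h.choose else (0, 0)
  have hstar : ∀ h2 h3 q, C h2 h3 q → C h2 h3 (star h2 h3) := by
    intro h2 h3 q hq
    have hex : ∃ q : ℤ × ℤ, C h2 h3 q := ⟨q, hq⟩
    simp only [star, dif_pos hex]
    exact hex.choose_spec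
  refine Finset.card_le_card_of_injOn
    (fun p => (p.2.1, p.2.2.2, p.1 - (star p.2.1 p.2.2.2).1, p.2.2.1 - (star p.2.1 p.2.2.2).2))
    ?_ ?_
  · rintro ⟨h1, h2, k2, h3⟩ hp
    simp only [coe_filter, Set.mem_ofPred_eq, mem_product] at hp
    obtain ⟨⟨hh1, hh2, hk2, hh3⟩, hc, hg⟩ := hp
    obtain ⟨s1, s2, s3, s4⟩ := hstar h2 h3 (h1, k2) ⟨hh1, hk2, hc, hg⟩
    set h1' := (star h2 h3).1 with hh1'
    set k2' := (star h2 h3).2 with hk2'
    simp only [mtQ, coe_filter, Set.mem_ofPred_eq, mem_product]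
    have hcop : IsCoprime (E a b t 0 0) (g : ℤ) := (coprime_m a b t h1).of_isCoprime_of_dvd_right hg
    have hag : IsCoprime a (g : ℤ) :=
      ha.of_isCoprime_of_dvd_right (Int.natCast_dvd_natCast.2 hgc)
    refine ⟨⟨hh2, hh3, mt_sub_mem (J_subset _ _ hh1) (J_subset _ _ s1), mt_sub_mem hk2 s2⟩, ?_, ?_⟩
    · have h5 : (g : ℤ) ∣ m a b t h1 - m a b t h1' := dvd_sub hg s4
      have h6 : m a b t h1 - m a b t h1' = (a * E a b t 0 0) * (h1 - h1') := by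
        rw [m, m]; ring
      rw [h6] at h5
      exact (IsCoprime.mul_left hag hcop).symm.dvd_of_dvd_mul_left h5
    · have h5 : (c : ℤ) ∣ (β a b h2 k2 h3 + γ * m a b t h1) - (β a b h2 k2' h3 + γ * m a b t h1') :=
        dvd_sub hc s3
      have h6 : (β a b h2 k2 h3 + γ * m a b t h1) - (β a b h2 k2' h3 + γ * m a b t h1') =
          a * (a * b * (h2 * h3 * (k2 - k2')) + γ * E a b t 0 0 * (h1 - h1')) := by
        rw [m, m, β, β]; ring
      rw [h6] at h5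
      exact ha.symm.dvd_of_dvd_mul_left h5
  · rintro ⟨h1, h2, k2, h3⟩ _ ⟨h1', h2', k2', h3'⟩ _ heq
    simp only [Prod.mk.injEq] at heq
    obtain ⟨e1, e2, e3, e4⟩ := heq
    subst e1
    subst e2
    have e5 : h1 = h1' := by linarith
    have e6 : k2 = k2' := by linarith
    rw [e5, e6]

theorem mt_prod_mem {A B : ℕ} {x y z : ℤ} (hx : x ∈ I A) (hy : y ∈ I A) (hz : z ∈ I (2 * B)) :
    x * y * z ∈ I (2 * A ^ 2 * B) := by
  rw [mem_I'] at *
  rw [Int.natAbs_mul, Int.natAbs_mul]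
  calc x.natAbs * y.natAbs * z.natAbs ≤ A * A * (2 * B) :=
        Nat.mul_le_mul (Nat.mul_le_mul hx hy) hz
    _ = 2 * A ^ 2 * B := by ring

theorem mt_Q (hAP : StAP) (hMul : StMul) (hFac : StFac) (c : ℕ) (a b γ : ℤ) (A B g : ℕ) (D : ℝ)
    (hc : 1 ≤ c) (ha : IsCoprime a c) (hb : IsCoprime b c) (hγ : (c : ℤ) ∣ γ ^ 2 - 1)
    (hgc : g ∣ c) (hD : ∀ j : ℕ, 1 ≤ j → j ≤ 2 * A ^ 2 * B → τ j ≤ D) (e : ℤ) :
    ((mtQ c a b γ A B g e).card : ℝ) ≤ (4 * (A : ℝ) ^ 2 +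
        (4 * A / g) * (4 * (A : ℝ) ^ 2 * B / c + 1) * (4 * D ^ 2) +
        (4 * (A : ℝ) ^ 2 * B / c) * (4 * D ^ 2)) +
      16 * (A : ℝ) ^ 3 / c * (Int.gcd e c : ℝ) := by
  classical
  have hcpos : (0 : ℝ) < (c : ℝ) := by exact_mod_cast hc
  have hg1 : 1 ≤ g := Nat.pos_of_dvd_of_pos hgc hc
  have hab : IsCoprime (a * b) (c : ℤ) := ha.mul_left hb
  have hJc : ((J c A).card : ℝ) ≤ 2 * A := by exact_mod_cast card_J_le c A
  have hD2 : (0 : ℝ) ≤ 4 * D ^ 2 := by positivity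
  -- the four parts
  set Q := mtQ c a b γ A B g e with hQ
  set Q1 := Q.filter fun p => p.2.2.2 = 0 ∧ p.2.2.1 = 0 with hQ1
  set Q2 := Q.filter fun p => p.2.2.2 = 0 ∧ p.2.2.1 ≠ 0 with hQ2
  set Q3 := Q.filter fun p => p.2.2.2 ≠ 0 ∧ p.2.2.1 = 0 with hQ3
  set Q4 := Q.filter fun p => p.2.2.2 ≠ 0 ∧ p.2.2.1 ≠ 0 with hQ4
  have hsplit : Q.card ≤ Q1.card + Q2.card + Q3.card + Q4.card := by
    have hsub : Q ⊆ ((Q1 ∪ Q2) ∪ Q3) ∪ Q4 := by
      intro p hp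
      simp only [hQ1, hQ2, hQ3, hQ4, mem_union, mem_filter, hp, true_and]
      tauto
    have h1 := card_le_card hsub
    have h2 := card_union_le ((Q1 ∪ Q2) ∪ Q3) Q4
    have h3 := card_union_le (Q1 ∪ Q2) Q3
    have h4 := card_union_le Q1 Q2
    omega
  have hmem : ∀ p : ℤ × ℤ × ℤ × ℤ, p ∈ Q → p.1 ∈ J c A ∧ p.2.1 ∈ J c A ∧ p.2.2.1 ∈ I (2 * A) ∧
      p.2.2.2 ∈ I (2 * B) ∧ (g : ℤ) ∣ p.2.2.1 ∧
      (c : ℤ) ∣ a * b * (p.1 * p.2.1 * p.2.2.2) + γ * e * p.2.2.1 := by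
    intro p hp
    simp only [hQ, mtQ, mem_filter, mem_product] at hp
    tauto
  -- part 1
  have b1 : (Q1.card : ℝ) ≤ 4 * (A : ℝ) ^ 2 := by
    have hsub : Q1 ⊆ (J c A) ×ˢ (J c A) ×ˢ {(0 : ℤ)} ×ˢ {(0 : ℤ)} := by
      intro p hp
      rw [hQ1, mem_filter] at hp
      have := hmem p hp.1
      simp only [mem_product, mem_singleton]
      exact ⟨this.1, this.2.1, hp.2.2, hp.2.1⟩
    have h1 := card_le_card hsub
    simp only [card_product, card_singleton, mul_one] at h1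
    calc (Q1.card : ℝ) ≤ ((J c A).card : ℝ) * (J c A).card := by exact_mod_cast h1
      _ ≤ (2 * A) * (2 * A) := mul_le_mul hJc hJc (Nat.cast_nonneg _) (by positivity)
      _ = 4 * (A : ℝ) ^ 2 := by ring
  -- part 2
  have b2 : (Q2.card : ℝ) ≤ 16 * (A : ℝ) ^ 3 / c * (Int.gcd e c : ℝ) := by
    set d := Int.gcd e c with hd
    have hdpos : 0 < d := Int.gcd_pos_of_ne_zero_right _ (by exact_mod_cast (by omega : c ≠ 0))
    have hdc : d ∣ c := by
      have : ((d : ℕ) : ℤ) ∣ (c : ℤ) := Int.gcd_dvd_right _ _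
      exact Int.natCast_dvd_natCast.1 this
    obtain ⟨n, hn⟩ := hdc
    have hn1 : 1 ≤ n := by
      rcases Nat.eq_zero_or_pos n with h | h
      · subst h; omega
      · exact h
    set H := (I (2 * A)).filter fun h : ℤ => h ≠ 0 ∧ (n : ℤ) ∣ h with hH
    have hHc : (H.card : ℝ) ≤ 2 * ((2 * A : ℕ) : ℝ) / n := by
      refine hMul (2 * A) n H hn1 (filter_subset _ _) fun x hx => ?_
      rw [hH, mem_filter] at hx
      exact hx.2
    have hsub : Q2 ⊆ (J c A) ×ˢ (J c A) ×ˢ H ×ˢ {(0 : ℤ)} := by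
      intro p hp
      rw [hQ2, mem_filter] at hp
      obtain ⟨h1, h2, h3, h4, h5, h6⟩ := hmem p hp.1
      simp only [mem_product, mem_singleton, hH, mem_filter]
      refine ⟨h1, h2, ⟨h3, hp.2.2, ?_⟩, hp.2.1⟩
      rw [hp.2.1, mul_zero, mul_zero, zero_add] at h6
      -- c ∣ γ e h
      have h7 : (c : ℤ) ∣ e * p.2.2.1 := by
        have h8 : (c : ℤ) ∣ γ * (γ * e * p.2.2.1) := Dvd.dvd.mul_left h6 γ
        have h9 : (c : ℤ) ∣ (γ ^ 2 - 1) * (e * p.2.2.1) := Dvd.dvd.mul_right hγ _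
        have h10 := dvd_sub h8 h9
        have h11 : γ * (γ * e * p.2.2.1) - (γ ^ 2 - 1) * (e * p.2.2.1) = e * p.2.2.1 := by ring
        rwa [h11] at h10
      obtain ⟨e', he'⟩ : ((d : ℕ) : ℤ) ∣ e := Int.gcd_dvd_left _ _
      have hcop : IsCoprime (n : ℤ) e' := by
        have h12 : Int.gcd (e / d) ((c : ℤ) / d) = 1 :=
          Int.gcd_div_gcd_div_gcd hdpos
        have hd0 : ((d : ℕ) : ℤ) ≠ 0 := by exact_mod_cast hdpos.ne'
        have h13 : e / (d : ℤ) = e' := by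
          rw [he']
          exact Int.mul_ediv_cancel_left _ hd0
        have h14 : (c : ℤ) / (d : ℤ) = n := by
          rw [hn]
          push_cast
          exact Int.mul_ediv_cancel_left _ hd0
        rw [h13, h14] at h12
        exact (Int.isCoprime_iff_gcd_eq_one.2 h12).symm
      have h15 : (n : ℤ) ∣ e' * p.2.2.1 := by
        have hd0 : ((d : ℕ) : ℤ) ≠ 0 := by exact_mod_cast hdpos.ne'
        have h16 : ((d : ℕ) : ℤ) * n ∣ d * (e' * p.2.2.1) := by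
          have h17 : (c : ℤ) = (d : ℤ) * n := by rw [hn]; push_cast; ring
          rw [← h17]
          have h18 : (d : ℤ) * (e' * p.2.2.1) = e * p.2.2.1 := by
            conv_rhs => rw [he']
            ring
          rw [h18]
          exact h7
        exact Int.dvd_of_mul_dvd_mul_left hd0 h16
      exact hcop.dvd_of_dvd_mul_left h15
    have h1 := card_le_card hsub
    simp only [card_product, card_singleton, mul_one] at h1
    have hnr : (0 : ℝ) < n := by exact_mod_cast hn1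
    have hdr : (0 : ℝ) < d := by exact_mod_cast hdpos
    have hcr : (c : ℝ) = d * n := by rw [hn]; push_cast; ring
    have hA0 : (0 : ℝ) ≤ 2 * A := mul_nonneg zero_le_two (Nat.cast_nonneg _)
    calc (Q2.card : ℝ) ≤ ((J c A).card : ℝ) * ((J c A).card * H.card) := by exact_mod_cast h1
      _ ≤ (2 * A) * ((2 * A) * (2 * ((2 * A : ℕ) : ℝ) / n)) :=
          mul_le_mul hJc (mul_le_mul hJc hHc (Nat.cast_nonneg _) hA0)
            (mul_nonneg (Nat.cast_nonneg _) (Nat.cast_nonneg _)) hA0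
      _ = 16 * (A : ℝ) ^ 3 / c * d := by
          rw [hcr, Nat.cast_mul, Nat.cast_ofNat]
          field_simp
          ring
  -- the sets of products
  have fib : ∀ (h : ℤ) (S : Finset ℤ), (∀ j ∈ S, j ∈ I (2 * A ^ 2 * B) ∧ j ≠ 0) →
      (∀ p ∈ Q, p.2.2.2 ≠ 0 → p.2.2.1 = h → p.1 * p.2.1 * p.2.2.2 ∈ S) →
      ((Q.filter fun p => p.2.2.2 ≠ 0 ∧ p.2.2.1 = h).card : ℝ) ≤ S.card * (4 * D ^ 2) := by
    intro h S hS hp
    have h1 := (hFac A (2 * B) D S (fun j hj => by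
      have := hS j hj
      refine ⟨this.2, hD _ (Int.natAbs_pos.2 this.2) (mem_I'.1 this.1)⟩)).2
    refine le_trans ?_ h1
    have h2 : (Q.filter fun p => p.2.2.2 ≠ 0 ∧ p.2.2.1 = h).card ≤
        (((I A) ×ˢ (I (2 * B)) ×ˢ (I A)).filter fun p => p.1 * p.2.2 * p.2.1 ∈ S).card := by
      refine Finset.card_le_card_of_injOn (fun p => (p.1, p.2.2.2, p.2.1)) ?_ ?_
      · intro p hpm
        have hpm' := mem_filter.1 (mem_coe.1 hpm)
        obtain ⟨m1, m2, m3, m4, m5, m6⟩ := hmem p hpm'.1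
        refine mem_coe.2 (mem_filter.2 ⟨mem_product.2 ⟨J_subset _ _ m1, mem_product.2
          ⟨m4, J_subset _ _ m2⟩⟩, hp p hpm'.1 hpm'.2.1 hpm'.2.2⟩)
      · rintro ⟨x1, x2, x3, x4⟩ hx ⟨y1, y2, y3, y4⟩ hy hxy
        have hx' := (mem_filter.1 (mem_coe.1 hx)).2.2
        have hy' := (mem_filter.1 (mem_coe.1 hy)).2.2
        simp only [Prod.mk.injEq] at hxy ⊢
        exact ⟨hxy.1, hxy.2.2, hx'.trans hy'.symm, hxy.2.1⟩
    exact_mod_cast h2
  have hjne : ∀ p ∈ Q, p.2.2.2 ≠ 0 → p.1 * p.2.1 * p.2.2.2 ≠ 0 := by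
    intro p hp hk
    obtain ⟨m1, m2, _⟩ := hmem p hp
    exact mul_ne_zero (mul_ne_zero (ne_zero_of_mem_J m1) (ne_zero_of_mem_J m2)) hk
  have hjmem : ∀ p ∈ Q, p.1 * p.2.1 * p.2.2.2 ∈ I (2 * A ^ 2 * B) := by
    intro p hp
    obtain ⟨m1, m2, m3, m4, _⟩ := hmem p hp
    exact mt_prod_mem (J_subset _ _ m1) (J_subset _ _ m2) m4
  have hcast : 2 * ((2 * A ^ 2 * B : ℕ) : ℝ) / c = 4 * (A : ℝ) ^ 2 * B / c := by
    push_cast; ring
  -- part 3
  have b3 : (Q3.card : ℝ) ≤ (4 * (A : ℝ) ^ 2 * B / c) * (4 * D ^ 2) := by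
    set S := (I (2 * A ^ 2 * B)).filter fun j : ℤ => j ≠ 0 ∧ (c : ℤ) ∣ j with hS
    have h1 : (S.card : ℝ) ≤ 2 * ((2 * A ^ 2 * B : ℕ) : ℝ) / c :=
      hMul _ c S hc (filter_subset _ _) fun x hx => by
        rw [hS, mem_filter] at hx
        exact hx.2
    rw [hcast] at h1
    refine (fib 0 S (fun j hj => ?_) (fun p hp hk hh => ?_)).trans
      (mul_le_mul_of_nonneg_right h1 hD2)
    · rw [hS, mem_filter] at hj
      exact ⟨hj.1, hj.2.1⟩
    · rw [hS, mem_filter]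
      refine ⟨hjmem p hp, hjne p hp hk, ?_⟩
      obtain ⟨_, _, _, _, _, m6⟩ := hmem p hp
      rw [hh, mul_zero, add_zero] at m6
      exact hab.symm.dvd_of_dvd_mul_left m6
  -- part 4
  have b4 : (Q4.card : ℝ) ≤ (4 * A / g) * (4 * (A : ℝ) ^ 2 * B / c + 1) * (4 * D ^ 2) := by
    set H := (I (2 * A)).filter fun h : ℤ => h ≠ 0 ∧ (g : ℤ) ∣ h with hH
    have hHc : (H.card : ℝ) ≤ 2 * ((2 * A : ℕ) : ℝ) / g := by
      refine hMul (2 * A) g H hg1 (filter_subset _ _) fun x hx => ?_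
      rw [hH, mem_filter] at hx
      exact hx.2
    have hmaps : ∀ p ∈ Q4, p.2.2.1 ∈ H := by
      intro p hp
      rw [hQ4, mem_filter] at hp
      obtain ⟨_, _, m3, _, m5, _⟩ := hmem p hp.1
      rw [hH, mem_filter]
      exact ⟨m3, hp.2.2, m5⟩
    have hcard := Finset.card_eq_sum_card_fiberwise (f := fun p : ℤ × ℤ × ℤ × ℤ => p.2.2.1)
      (s := Q4) (t := H) hmaps
    have hfib : ∀ h ∈ H, ((Q4.filter fun p => p.2.2.1 = h).card : ℝ) ≤
        (4 * (A : ℝ) ^ 2 * B / c + 1) * (4 * D ^ 2) := by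
      intro h hh
      set S := (I (2 * A ^ 2 * B)).filter fun j : ℤ => j ≠ 0 ∧ (c : ℤ) ∣ a * b * j + γ * e * h
        with hS
      have h1 : (S.card : ℝ) ≤ 2 * ((2 * A ^ 2 * B : ℕ) : ℝ) / c + 1 := by
        refine hAP _ c S hc (filter_subset _ _) fun x hx y hy => ?_
        rw [hS, mem_filter] at hx hy
        have h2 := dvd_sub hx.2.2 hy.2.2
        have h3 : a * b * x + γ * e * h - (a * b * y + γ * e * h) = a * b * (x - y) := by ring
        rw [h3] at h2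
        exact hab.symm.dvd_of_dvd_mul_left h2
      rw [hcast] at h1
      have h4 : Q4.filter (fun p => p.2.2.1 = h) ⊆
          Q.filter fun p => p.2.2.2 ≠ 0 ∧ p.2.2.1 = h := by
        intro p hp
        rw [mem_filter, hQ4, mem_filter] at hp
        rw [mem_filter]
        exact ⟨hp.1.1, hp.1.2.1, hp.2⟩
      have h5 : ((Q4.filter fun p => p.2.2.1 = h).card : ℝ) ≤
          ((Q.filter fun p => p.2.2.2 ≠ 0 ∧ p.2.2.1 = h).card : ℝ) := by
        exact_mod_cast card_le_card h4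
      refine h5.trans ((fib h S (fun j hj => ?_) (fun p hp hk hhp => ?_)).trans
        (mul_le_mul_of_nonneg_right h1 hD2))
      · rw [hS, mem_filter] at hj
        exact ⟨hj.1, hj.2.1⟩
      · rw [hS, mem_filter]
        refine ⟨hjmem p hp, hjne p hp hk, ?_⟩
        obtain ⟨_, _, _, _, _, m6⟩ := hmem p hp
        rwa [hhp] at m6
    rw [hcard]
    push_cast
    calc ∑ h ∈ H, ((Q4.filter fun p => p.2.2.1 = h).card : ℝ) ≤
          ∑ _h ∈ H, (4 * (A : ℝ) ^ 2 * B / c + 1) * (4 * D ^ 2) := sum_le_sum hfib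
      _ = H.card * ((4 * (A : ℝ) ^ 2 * B / c + 1) * (4 * D ^ 2)) := by
          rw [sum_const, nsmul_eq_mul]
      _ ≤ (4 * A / g) * ((4 * (A : ℝ) ^ 2 * B / c + 1) * (4 * D ^ 2)) := by
          refine mul_le_mul_of_nonneg_right ?_ (by positivity)
          refine hHc.trans (le_of_eq ?_)
          push_cast
          ring
      _ = _ := by ring
  have hs : (Q.card : ℝ) ≤ Q1.card + Q2.card + Q3.card + Q4.card := by exact_mod_cast hsplit
  linarith

theorem stT (hAP : StAP) (hMul : StMul) (hFac : StFac) : StT := by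
  classical
  intro c a b γ s A B g D hc ha hb hγ hA hAB hgc hD
  have hcpos : (0 : ℝ) < (c : ℝ) := by exact_mod_cast hc
  have hT : T c a b γ s A B g = ∑ t ∈ bx (J c A) (I B) s,
      (((J c A) ×ˢ (J c A) ×ˢ (I B) ×ˢ (J c A)).filter
        fun p => (c : ℤ) ∣ β a b p.2.1 p.2.2.1 p.2.2.2 + γ * m a b t p.1 ∧
          (g : ℤ) ∣ m a b t p.1).card := by
    rw [T, card_filter, sum_product]
    refine sum_congr rfl fun t _ => ?_
    rw [card_filter]
  set VS := (bx (J c A) (I B) s).filter fun t => ∃ h ∈ J c A, (g : ℤ) ∣ m a b t h with hVS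
  have hV : V c a b s A B g = VS.card := rfl
  have hT2 : T c a b γ s A B g ≤ ∑ t ∈ VS, (mtQ c a b γ A B g (E a b t 0 0)).card := by
    rw [hT, hVS, sum_filter]
    refine sum_le_sum fun t _ => ?_
    split_ifs with h
    · exact mt_inj c a b γ A B g t hgc ha
    · rw [Nat.le_zero, card_eq_zero, filter_eq_empty_iff]
      rintro p hp ⟨_, h2⟩
      rw [mem_product] at hp
      exact h ⟨p.1, hp.1, h2⟩
  calc (T c a b γ s A B g : ℝ) ≤ ∑ t ∈ VS, ((mtQ c a b γ A B g (E a b t 0 0)).card : ℝ) := by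
        exact_mod_cast hT2
    _ ≤ ∑ t ∈ VS, ((4 * (A : ℝ) ^ 2 +
        (4 * A / g) * (4 * (A : ℝ) ^ 2 * B / c + 1) * (4 * D ^ 2) +
        (4 * (A : ℝ) ^ 2 * B / c) * (4 * D ^ 2)) +
      16 * (A : ℝ) ^ 3 / c * (Int.gcd (E a b t 0 0) c : ℝ)) :=
        sum_le_sum fun t _ => mt_Q hAP hMul hFac c a b γ A B g D hc ha hb hγ hgc hD _
    _ = VS.card * (4 * (A : ℝ) ^ 2 +
        (4 * A / g) * (4 * (A : ℝ) ^ 2 * B / c + 1) * (4 * D ^ 2) +
        (4 * (A : ℝ) ^ 2 * B / c) * (4 * D ^ 2)) +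
      16 * (A : ℝ) ^ 3 / c * ∑ t ∈ VS, (Int.gcd (E a b t 0 0) c : ℝ) := by
        rw [sum_add_distrib, sum_const, nsmul_eq_mul, mul_sum]
    _ ≤ _ := by
        rw [hV]
        refine add_le_add le_rfl (mul_le_mul_of_nonneg_left ?_ (by positivity))
        exact sum_le_sum_of_subset_of_nonneg (filter_subset _ _) fun _ _ _ => Nat.cast_nonneg _

end Pool.Agent.Helper56.SW
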