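import Pool.Agent.Helper56.SW.Basic
import Pool.Agent.Helper56.SW.Statements

/-! # MP_e188f1_nt, module M_T2 -/

set_option autoImplicit false

namespace Pool.Agent.Helper56.SW

open Finset Matrix

theorem M_T2_fib {α β : Type*} [DecidableEq β] (s : Finset α) (t : Finset β) (f : α → β)
    (hf : ∀ x ∈ s, f x ∈ t) (K : ℝ) (hK : ∀ y ∈ t, ((s.filter fun x => f x = y).card : ℝ) ≤ K) :
    (s.card : ℝ) ≤ t.card * K := by
  rw [card_eq_sum_card_fiberwise (f := f) (t := t) (fun x hx => hf x hx), Nat.cast_sum]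
  calc ∑ y ∈ t, ((s.filter fun x => f x = y).card : ℝ) ≤ ∑ _y ∈ t, K := sum_le_sum hK
    _ = t.card * K := by rw [sum_const, nsmul_eq_mul]

theorem stT' (hAP : StAP) (hFac : StFac) : StT' := by
  classical
  intro c a b γ s A B g D hc ha hb hγ hA hAB hg hBg hD
  have hg1 : 1 ≤ g := by omega
  have hgc : (g : ℤ) ∣ (c : ℤ) := Int.natCast_dvd_natCast.2 hg
  have hgR : (0 : ℝ) < g := by exact_mod_cast hg1
  have hAR : (1 : ℝ) ≤ A := by exact_mod_cast hA
  have hABR : (A : ℝ) ≤ B := by exact_mod_cast hAB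
  have hBgR : (B : ℝ) ≤ g := by exact_mod_cast hBg
  have hD1 : 1 ≤ D := by
    have h1 := hD 1 le_rfl (Nat.mul_pos (by omega) (by omega))
    have h2 : τ 1 = 1 := by simp [τ]
    linarith
  have hcopg : ∀ x : ℤ, IsCoprime x (c : ℤ) → IsCoprime x (g : ℤ) := fun x hx =>
    hx.of_isCoprime_of_dvd_right hgc
  have hag := hcopg a ha
  have hbg := hcopg b hb
  have hγg : IsCoprime γ (g : ℤ) := by
    obtain ⟨q, hq⟩ := hγ
    refine hcopg γ ⟨γ, -q, ?_⟩
    linear_combination hq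
  refine M_T2_fib _ _ (fun p => (p.1, p.2.1)) ?_ _ ?_
  · intro p hp
    rw [mem_filter, mem_product, mem_product] at hp
    exact mem_filter.2 ⟨mem_product.2 ⟨hp.1.1, hp.1.2.1⟩, hp.2.1⟩
  rintro ⟨t, h1⟩ hth
  rw [mem_filter] at hth
  have hm : (g : ℤ) ∣ m a b t h1 := hth.2
  set m11 : ℤ := E a b t 1 1 + a * h1 * E a b t 1 0 with hm11
  have hm11g : IsCoprime m11 (g : ℤ) := by
    obtain ⟨q, hq⟩ := hm
    refine ⟨E a b t 0 0, - (q * E a b t 1 0), ?_⟩
    have := M_det a b t h1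
    rw [hq] at this
    linear_combination this
  -- the pairs `(h₂, k₂)`
  set R : Finset (ℤ × ℤ) := ((J c A) ×ˢ (I B)).filter fun q =>
    (g : ℤ) ∣ 1 + a * q.1 * (b * q.2) - γ * m11 with hR
  have hR0 : (((R.filter fun q => q.2 = 0).card : ℕ) : ℝ) ≤ 2 * A := by
    have h2 : (R.filter fun q => q.2 = 0).card ≤ (J c A).card := by
      refine card_le_card_of_injOn (fun q => q.1) ?_ ?_
      · intro q hq
        rw [mem_coe, mem_filter, hR, mem_filter, mem_product] at hq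
        exact hq.1.1.1
      · intro q hq q' hq' e
        rw [mem_coe, mem_filter] at hq hq'
        exact Prod.ext e (by rw [hq.2, hq'.2])
    have h3 := h2.trans (card_J_le c A)
    exact_mod_cast h3
  set R1 := R.filter fun q => ¬ q.2 = 0 with hR1def
  set S0 : Finset ℤ := R1.image fun q => q.1 * q.2 with hS0
  have hS0prop : ∀ j ∈ S0, j ≠ 0 ∧ |j| ≤ A * B ∧ (g : ℤ) ∣ 1 + a * b * j - γ * m11 := by
    intro j hj
    rw [hS0, mem_image] at hj
    obtain ⟨q, hq, rfl⟩ := hj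
    rw [hR1def, mem_filter, hR, mem_filter, mem_product] at hq
    obtain ⟨⟨⟨hq1, hq2⟩, hq3⟩, hq4⟩ := hq
    refine ⟨mul_ne_zero (ne_zero_of_mem_J hq1) hq4, ?_, ?_⟩
    · rw [abs_mul]
      exact mul_le_mul (mem_I.1 (J_subset c A hq1)) (mem_I.1 hq2) (abs_nonneg _) (by positivity)
    · have e : 1 + a * b * (q.1 * q.2) - γ * m11 = 1 + a * q.1 * (b * q.2) - γ * m11 := by ring
      rw [e]
      exact hq3
  have hS0card : (S0.card : ℝ) ≤ 3 * A := by
    have h2 := hAP (A * B) g S0 hg1 ?_ ?_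
    · refine h2.trans ?_
      have h3 : 2 * ((A * B : ℕ) : ℝ) / g ≤ 2 * A := by
        rw [div_le_iff₀ hgR]
        push_cast
        nlinarith
      linarith
    · intro j hj
      rw [mem_I]
      exact_mod_cast (hS0prop j hj).2.1
    · intro x hx y hy
      have h3 := dvd_sub (hS0prop x hx).2.2 (hS0prop y hy).2.2
      have h4 : (1 + a * b * x - γ * m11) - (1 + a * b * y - γ * m11) = (a * b) * (x - y) := by
        ring
      rw [h4] at h3
      exact ((hag.mul_left hbg).symm).dvd_of_dvd_mul_left h3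
  have hR1 : ((R1.card : ℕ) : ℝ) ≤ 6 * A * D := by
    have h2 := (hFac A B D S0 ?_).1
    · have h3 : R1.card ≤ (((I A) ×ˢ (I B)).filter fun p => p.1 * p.2 ∈ S0).card := by
        refine card_le_card fun q hq => ?_
        have hq' := hq
        rw [hR1def, mem_filter, hR, mem_filter, mem_product] at hq'
        exact mem_filter.2 ⟨mem_product.2 ⟨J_subset c A hq'.1.1.1, hq'.1.1.2⟩,
          mem_image.2 ⟨q, hq, rfl⟩⟩
      have h4 : (R1.card : ℝ) ≤ S0.card * (2 * D) := le_trans (by exact_mod_cast h3) h2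
      nlinarith
    · intro j hj
      obtain ⟨h3, h4, _⟩ := hS0prop j hj
      refine ⟨h3, hD _ (Int.natAbs_pos.2 h3) ?_⟩
      have h5 : ((j.natAbs : ℕ) : ℤ) ≤ ((A * B : ℕ) : ℤ) := by
        rw [Int.natCast_natAbs]; exact_mod_cast h4
      exact_mod_cast h5
  have hRcard : (R.card : ℝ) ≤ 2 * A + 6 * A * D := by
    have h2 := card_filter_add_card_filter_not (s := R) (fun q : ℤ × ℤ => q.2 = 0)
    have h3 : (R.card : ℝ) = ((R.filter fun q => q.2 = 0).card : ℝ) + (R1.card : ℝ) := by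
      rw [← h2]; push_cast; rfl
    rw [h3]
    linarith
  -- the triples
  set Q : Finset (ℤ × ℤ × ℤ) := ((J c A) ×ˢ (I B) ×ˢ (J c A)).filter fun q =>
    (g : ℤ) ∣ β a b q.1 q.2.1 q.2.2 ∧ (g : ℤ) ∣ 1 + a * q.1 * (b * q.2.1) - γ * m11 with hQ
  have hQcard : (Q.card : ℝ) ≤ R.card * 3 := by
    refine M_T2_fib Q R (fun q => (q.1, q.2.1)) ?_ 3 ?_
    · intro q hq
      rw [hQ, mem_filter, mem_product, mem_product] at hq
      exact mem_filter.2 ⟨mem_product.2 ⟨hq.1.1, hq.1.2.1⟩, hq.2.2⟩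
    · rintro ⟨h2, k2⟩ hhk
      rw [hR, mem_filter, mem_product] at hhk
      obtain ⟨_, hα⟩ := hhk
      simp only at hα
      have hαg : IsCoprime (1 + a * h2 * (b * k2)) (g : ℤ) := by
        obtain ⟨q, hq⟩ := hα
        have e : 1 + a * h2 * (b * k2) = γ * m11 + (g : ℤ) * q := by linear_combination hq
        rw [e]
        exact (hγg.mul_left hm11g).add_mul_left_left q
      have e1 : (Q.filter fun q => (q.1, q.2.1) = (h2, k2)).card =
          ((Q.filter fun q => (q.1, q.2.1) = (h2, k2)).image fun q => q.2.2).card := by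
        rw [card_image_of_injOn]
        intro q hq q' hq' e
        rw [mem_coe, mem_filter] at hq hq'
        have h3 := hq.2
        have h4 := hq'.2
        rw [← h4, Prod.mk.injEq] at h3
        exact Prod.ext h3.1 (Prod.ext h3.2 e)
      rw [e1]
      refine (hAP A g _ hg1 ?_ ?_).trans ?_
      · intro x hx
        rw [mem_image] at hx
        obtain ⟨q, hq, rfl⟩ := hx
        rw [mem_filter, hQ, mem_filter, mem_product, mem_product] at hq
        exact J_subset c A hq.1.1.2.2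
      · intro x hx y hy
        rw [mem_image] at hx hy
        obtain ⟨q, hq, rfl⟩ := hx
        obtain ⟨q', hq', rfl⟩ := hy
        rw [mem_filter, hQ, mem_filter, Prod.mk.injEq] at hq hq'
        obtain ⟨⟨_, hq1, _⟩, hq2, hq3⟩ := hq
        obtain ⟨⟨_, hq1', _⟩, hq2', hq3'⟩ := hq'
        rw [hq2, hq3] at hq1
        rw [hq2', hq3'] at hq1'
        have h3 := dvd_sub hq1 hq1'
        have h4 : β a b h2 k2 q.2.2 - β a b h2 k2 q'.2.2 =
            (a * (1 + a * h2 * (b * k2))) * (q.2.2 - q'.2.2) := by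
          simp only [β]; ring
        rw [h4] at h3
        exact ((hag.mul_left hαg).symm).dvd_of_dvd_mul_left h3
      · have h3 : 2 * (A : ℝ) / g ≤ 2 := by
          rw [div_le_iff₀ hgR]
          linarith
        linarith
  have hfin : (((((bx (J c A) (I B) s) ×ˢ (J c A) ×ˢ (J c A) ×ˢ (I B) ×ˢ (J c A)).filter
    fun p => (g : ℤ) ∣ m a b p.1 p.2.1 ∧ (g : ℤ) ∣ β a b p.2.2.1 p.2.2.2.1 p.2.2.2.2 ∧
      (g : ℤ) ∣ 1 + a * p.2.2.1 * (b * p.2.2.2.1) -
        γ * (E a b p.1 1 1 + a * p.2.1 * E a b p.1 1 0)).filter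
          fun p => (p.1, p.2.1) = (t, h1)).card : ℝ) ≤ Q.card := by
    have : ((((bx (J c A) (I B) s) ×ˢ (J c A) ×ˢ (J c A) ×ˢ (I B) ×ˢ (J c A)).filter
      fun p => (g : ℤ) ∣ m a b p.1 p.2.1 ∧ (g : ℤ) ∣ β a b p.2.2.1 p.2.2.2.1 p.2.2.2.2 ∧
        (g : ℤ) ∣ 1 + a * p.2.2.1 * (b * p.2.2.2.1) -
          γ * (E a b p.1 1 1 + a * p.2.1 * E a b p.1 1 0)).filter
            fun p => (p.1, p.2.1) = (t, h1)).card ≤ Q.card := by
      refine card_le_card_of_injOn (fun p => p.2.2) ?_ ?_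
      · intro p hp
        rw [mem_coe, mem_filter, mem_filter, mem_product, mem_product, Prod.mk.injEq] at hp
        obtain ⟨⟨⟨_, _, hp2⟩, _, hp4, hp5⟩, hp6, hp7⟩ := hp
        rw [mem_coe, hQ, mem_filter]
        refine ⟨hp2, hp4, ?_⟩
        rw [hp6, hp7] at hp5
        exact hp5
      · intro p hp p' hp' e
        rw [mem_coe, mem_filter] at hp hp'
        have h3 := hp.2
        rw [← hp'.2, Prod.mk.injEq] at h3
        exact Prod.ext h3.1 (Prod.ext h3.2 e)
    exact_mod_cast this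
  refine hfin.trans (hQcard.trans ?_)
  nlinarith [mul_nonneg (by linarith : (0 : ℝ) ≤ (A : ℝ)) (by linarith : (0 : ℝ) ≤ D - 1)]

end Pool.Agent.Helper56.SW
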