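import Pool.Agent.Helper56.SW.Basic
import Pool.Agent.Helper56.SW.Statements

/-! # MP_e188f1_nt, module M_Tr -/

set_option autoImplicit false

namespace Pool.Agent.Helper56.SW

open Finset Matrix

/-- the list of pairs of a tuple of even length, last pair first -/
def M_Tr_L : (r : ℕ) → (Fin (2 * r) → ℤ) → List (ℤ × ℤ)
  | 0, _ => []
  | r + 1, h => (h ⟨2 * r, by omega⟩, h ⟨2 * r + 1, by omega⟩) ::
      M_Tr_L r (fun i => h ⟨i, by omega⟩)

theorem M_Tr_len (r : ℕ) (h : Fin (2 * r) → ℤ) : (M_Tr_L r h).length = r := by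
  induction r with
  | zero => rfl
  | succ r ih => rw [M_Tr_L, List.length_cons, ih]

theorem M_Tr_mem (X Y : Finset ℤ) (r : ℕ) (h : Fin (2 * r) → ℤ) :
    (∀ p ∈ M_Tr_L r h, p.1 ∈ X ∧ p.2 ∈ Y) ↔
      ∀ i : Fin (2 * r), if (i : ℕ) % 2 = 0 then h i ∈ X else h i ∈ Y := by
  induction r with
  | zero => simp [M_Tr_L]
  | succ r ih =>
    rw [M_Tr_L]
    simp only [List.mem_cons, forall_eq_or_imp]
    rw [ih]
    constructor
    · rintro ⟨⟨h1, h2⟩, h3⟩ ⟨i, hi⟩
      rcases Nat.lt_or_ge i (2 * r) with hlt | hge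
      · exact h3 ⟨i, hlt⟩
      · rcases Nat.lt_or_ge i (2 * r + 1) with hlt | hge'
        · have : i = 2 * r := by omega
          subst this
          simp only [Nat.mul_mod_right, if_true]
          exact h1
        · have : i = 2 * r + 1 := by omega
          subst this
          have h4 : ¬ (2 * r + 1) % 2 = 0 := by omega
          simp only [h4, if_false]
          exact h2
    · intro h1
      refine ⟨⟨?_, ?_⟩, fun i => h1 ⟨i, by omega⟩⟩
      · have := h1 ⟨2 * r, by omega⟩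
        simpa using this
      · have := h1 ⟨2 * r + 1, by omega⟩
        have h4 : ¬ (2 * r + 1) % 2 = 0 := by omega
        simpa only [h4, if_false] using this

theorem M_Tr_inj (r : ℕ) : Function.Injective (M_Tr_L r) := by
  induction r with
  | zero => intro h h' _; funext i; exact absurd i.2 (by omega)
  | succ r ih =>
    intro h h' e
    rw [M_Tr_L, M_Tr_L, List.cons.injEq, Prod.mk.injEq] at e
    obtain ⟨⟨h1, h2⟩, h3⟩ := e
    have h4 := ih h3
    funext ⟨i, hi⟩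
    rcases Nat.lt_or_ge i (2 * r) with hlt | hge
    · exact congrFun h4 ⟨i, hlt⟩
    · rcases Nat.lt_or_ge i (2 * r + 1) with hlt | hge'
      · have : i = 2 * r := by omega
        subst this
        exact h1
      · have : i = 2 * r + 1 := by omega
        subst this
        exact h2

theorem M_Tr_surj (r : ℕ) (l : List (ℤ × ℤ)) (hl : l.length = r) : ∃ h, M_Tr_L r h = l := by
  induction r generalizing l with
  | zero => exact ⟨fun _ => 0, by rw [List.length_eq_zero_iff.1 hl]; rfl⟩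
  | succ r ih =>
    match l, hl with
    | p :: t, hl =>
      obtain ⟨h, hh⟩ := ih t (by simpa using hl)
      refine ⟨fun i => if hi : (i : ℕ) < 2 * r then h ⟨i, hi⟩ else
        if (i : ℕ) = 2 * r then p.1 else p.2, ?_⟩
      rw [M_Tr_L]
      congr 1
      · simp
      · rw [← hh]
        congr 1
        funext i
        simp

theorem M_Tr_ofFn {α : Type} (r : ℕ) (f : Fin (2 * (r + 1)) → α) :
    List.ofFn f = List.ofFn (fun i : Fin (2 * r) => f ⟨i, by omega⟩) ++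
      [f ⟨2 * r, by omega⟩, f ⟨2 * r + 1, by omega⟩] := by
  refine List.ext_getElem (by simp) fun i h1 h2 => ?_
  rw [List.getElem_ofFn]
  rcases Nat.lt_or_ge i (2 * r) with hlt | hge
  · rw [List.getElem_append_left (by simpa using hlt), List.getElem_ofFn]
  · rw [List.getElem_append_right (by simpa using hge)]
    rw [List.length_ofFn] at h1
    rcases Nat.lt_or_ge i (2 * r + 1) with hlt | hge'
    · have : i = 2 * r := by omega
      subst this
      simp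
    · have : i = 2 * r + 1 := by omega
      subst this
      simp

theorem M_Tr_pair {c : ℕ} (u v : ZMod c) :
    Tm u * Sm c * (Tm v * Sm c) = - !![1 + u * (-v), u; -v, 1] := by
  ext i j
  fin_cases i <;> fin_cases j <;>
    simp [Tm, Sm, Matrix.mul_apply, Fin.sum_univ_two]

theorem M_Tr_prod {c : ℕ} (a₁ a₂ : ZMod c) (a b : ℤ) (ha : (a : ZMod c) = a₁)
    (hb : (b : ZMod c) = - a₂) (r : ℕ) (h : Fin (2 * r) → ℤ) :
    (List.ofFn fun i : Fin (2 * r) =>
        Tm ((if (i : ℕ) % 2 = 0 then a₁ else a₂) * (h i : ZMod c)) * Sm c).prod =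
      (-1 : ZMod c) ^ r • (Int.castRingHom (ZMod c)).mapMatrix (E a b (M_Tr_L r h)) := by
  induction r with
  | zero => simp [M_Tr_L]
  | succ r ih =>
    rw [M_Tr_ofFn, List.prod_append]
    have h1 := ih (fun i => h ⟨i, by omega⟩)
    simp only at h1 ⊢
    rw [h1]
    have h4 : ¬ (2 * r + 1) % 2 = 0 := by omega
    simp only [List.prod_cons, List.prod_nil, mul_one, Nat.mul_mod_right, if_true, h4, if_false]
    rw [M_Tr_pair, M_Tr_L, E_cons, map_mul, pow_succ, mul_neg_one, neg_smul, Matrix.mul_neg,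
      Matrix.smul_mul]
    congr 3
    ext i j
    fin_cases i <;> fin_cases j <;> simp [ul, ha, hb]

theorem M_Tr_rel_iff (c : ℕ) (a b γ : ℤ) (l : List (ℤ × ℤ)) :
    Rel c a b γ l ↔ (Int.castRingHom (ZMod c)).mapMatrix (E a b l) =
      (γ : ZMod c) • (1 : Matrix (Fin 2) (Fin 2) (ZMod c)) := by
  have key : ∀ x : ℤ, (c : ℤ) ∣ x ↔ ((x : ℤ) : ZMod c) = 0 := fun x =>
    (ZMod.intCast_zmod_eq_zero_iff_dvd x c).symm
  unfold Rel
  rw [key, key, key, key]
  constructor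
  · rintro ⟨h1, h2, h3, h4⟩
    ext i j
    fin_cases i <;> fin_cases j
    · simpa [sub_eq_zero] using h1
    · simpa using h2
    · simpa using h3
    · simpa [sub_eq_zero] using h4
  · intro h
    have e := fun i j => congrFun (congrFun h i) j
    refine ⟨?_, ?_, ?_, ?_⟩
    · simpa [sub_eq_zero] using e 0 0
    · simpa using e 0 1
    · simpa using e 1 0
    · simpa [sub_eq_zero] using e 1 1

theorem M_Tr_Gam (c : ℕ) (hc : 1 ≤ c) (M : Matrix (Fin 2) (Fin 2) (ZMod c)) :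
    (∃ γ ∈ Γ c, M = (((γ : ℕ) : ℤ) : ZMod c) • (1 : Matrix (Fin 2) (Fin 2) (ZMod c))) ↔
      ∃ γ : ZMod c, γ ^ 2 = 1 ∧ M = γ • (1 : Matrix (Fin 2) (Fin 2) (ZMod c)) := by
  have : NeZero c := ⟨by omega⟩
  constructor
  · rintro ⟨γ, hγ, h⟩
    refine ⟨_, ?_, h⟩
    rw [Γ, mem_filter] at hγ
    have h1 := (ZMod.intCast_zmod_eq_zero_iff_dvd _ c).2 hγ.2
    push_cast at h1 ⊢
    linear_combination h1
  · rintro ⟨γ, hγ, h⟩
    refine ⟨γ.val, ?_, ?_⟩
    · rw [Γ, mem_filter, mem_range]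
      refine ⟨ZMod.val_lt γ, (ZMod.intCast_zmod_eq_zero_iff_dvd _ c).1 ?_⟩
      push_cast
      rw [ZMod.natCast_zmod_val, hγ, sub_self]
    · rw [h]
      congr 1
      push_cast
      rw [ZMod.natCast_zmod_val]

theorem stTr : StTr := by
  classical
  intro r c a₁ a₂ H₁ H₂ hc hH₁ hH₂
  have : NeZero c := ⟨by omega⟩
  have hcop : ∀ u : (ZMod c)ˣ, IsCoprime (((u : ZMod c).val : ℕ) : ℤ) (c : ℤ) := fun u =>
    Nat.isCoprime_iff_coprime.2 (ZMod.val_coe_unit_coprime u)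
  have hcast : ∀ u : (ZMod c)ˣ, ((((u : ZMod c).val : ℕ) : ℤ) : ZMod c) = u := fun u => by
    push_cast
    rw [ZMod.natCast_zmod_val]
  refine ⟨(((a₁ : ZMod c).val : ℕ) : ℤ), ((((-a₂ : (ZMod c)ˣ) : ZMod c).val : ℕ) : ℤ), hcop a₁,
    hcop (-a₂), ?_⟩
  set a : ℤ := (((a₁ : ZMod c).val : ℕ) : ℤ) with hadef
  set b : ℤ := ((((-a₂ : (ZMod c)ˣ) : ZMod c).val : ℕ) : ℤ) with hbdef
  have ha : (a : ZMod c) = (a₁ : ZMod c) := hcast a₁
  have hb : (b : ZMod c) = - (a₂ : ZMod c) := by rw [hbdef, hcast (-a₂)]; simp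
  have hH1 : (0 : ℝ) ≤ H₁ := by linarith
  have hH2 : (0 : ℝ) ≤ H₂ := by linarith
  have hfl : ∀ (H : ℝ), 0 ≤ H → ∀ x : ℤ, |(x : ℝ)| ≤ H ↔ x ∈ I ⌊H⌋₊ := by
    intro H hH x
    rw [mem_I', Nat.le_floor_iff hH, Nat.cast_natAbs, Int.cast_abs]
  have hcond : ∀ h : Fin (2 * r) → ℤ,
      ((∀ i : Fin (2 * r), |(h i : ℝ)| ≤ if (i : ℕ) % 2 = 0 then H₁ else H₂) ∧
      ∃ γ : ZMod c, γ ^ 2 = 1 ∧
        (List.ofFn fun i : Fin (2 * r) =>
          Tm ((if (i : ℕ) % 2 = 0 then (a₁ : ZMod c) else (a₂ : ZMod c)) * (h i : ZMod c))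
            * Sm c).prod
          = γ • (1 : Matrix (Fin 2) (Fin 2) (ZMod c))) ↔
      M_Tr_L r h ∈ (bx (I ⌊H₁⌋₊) (I ⌊H₂⌋₊) r).filter fun l => ∃ γ ∈ Γ c, Rel c a b γ l := by
    intro h
    rw [mem_filter, mem_bx, M_Tr_mem]
    have e1 : (∀ i : Fin (2 * r), |(h i : ℝ)| ≤ if (i : ℕ) % 2 = 0 then H₁ else H₂) ↔
        ∀ i : Fin (2 * r), if (i : ℕ) % 2 = 0 then h i ∈ I ⌊H₁⌋₊ else h i ∈ I ⌊H₂⌋₊ := by
      refine forall_congr' fun i => ?_
      split_ifs
      · exact hfl H₁ hH1 _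
      · exact hfl H₂ hH2 _
    have e2 : (∃ γ ∈ Γ c, Rel c a b γ (M_Tr_L r h)) ↔ ∃ γ : ZMod c, γ ^ 2 = 1 ∧
        (List.ofFn fun i : Fin (2 * r) =>
          Tm ((if (i : ℕ) % 2 = 0 then (a₁ : ZMod c) else (a₂ : ZMod c)) * (h i : ZMod c))
            * Sm c).prod
          = γ • (1 : Matrix (Fin 2) (Fin 2) (ZMod c)) := by
      simp only [M_Tr_rel_iff]
      rw [M_Tr_Gam c hc, M_Tr_prod (a₁ : ZMod c) (a₂ : ZMod c) a b ha hb r h]
      set M := (Int.castRingHom (ZMod c)).mapMatrix (E a b (M_Tr_L r h)) with hM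
      have hsq : ((-1 : ZMod c) ^ r) * ((-1 : ZMod c) ^ r) = 1 := by
        rw [← mul_pow]; simp
      constructor
      · rintro ⟨γ, hγ, h1⟩
        refine ⟨(-1) ^ r * γ, ?_, by rw [h1, smul_smul]⟩
        rw [mul_pow, hγ, mul_one, sq, hsq]
      · rintro ⟨γ, hγ, h1⟩
        refine ⟨(-1) ^ r * γ, ?_, ?_⟩
        · rw [mul_pow, hγ, mul_one, sq, hsq]
        · rw [← smul_smul, ← h1, smul_smul, hsq, one_smul]
    rw [e1, e2]
    simp [M_Tr_len]
  unfold Nq N
  rw [← Nat.card_eq_finsetCard]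
  refine Nat.card_congr (Equiv.ofBijective
    (fun h => ⟨M_Tr_L r h.1, (hcond h.1).1 h.2⟩) ⟨?_, ?_⟩)
  · intro h h' e
    exact Subtype.ext (M_Tr_inj r (Subtype.ext_iff.1 e))
  · rintro ⟨l, hl⟩
    have hl' := hl
    rw [mem_filter, mem_bx] at hl'
    obtain ⟨h, rfl⟩ := M_Tr_surj r l hl'.1.1
    exact ⟨⟨h, (hcond h).2 hl⟩, rfl⟩

end Pool.Agent.Helper56.SW
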