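import Pool.Agent.Helper56.SW.Basic
import Pool.Agent.Helper56.SW.Statements

/-! # MP_e188f1_nt, module M_Two -/

set_option autoImplicit false

namespace Pool.Agent.Helper56.SW

open Finset Matrix

theorem mTwo_rel {c : ℕ} {a b γ h1 k1 h2 k2 : ℤ} (ha : IsCoprime a (c : ℤ))
    (hb : IsCoprime b (c : ℤ)) (h : Rel c a b γ [(h2, k2), (h1, k1)]) :
    (c : ℤ) ∣ a * b * (h1 * k1) - (γ - 1) ∧ (c : ℤ) ∣ h1 + γ * h2 ∧ (c : ℤ) ∣ k1 + γ * k2 := by
  obtain ⟨r00, r01, r10, r11⟩ := h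
  simp only [E_cons_01, E_cons_11, E_cons_00, E_cons_10, E_nil, Matrix.one_apply_eq,
    Matrix.one_apply_ne (show (0 : Fin 2) ≠ 1 by decide),
    Matrix.one_apply_ne (show (1 : Fin 2) ≠ 0 by decide)] at r00 r01 r10 r11
  refine ⟨?_, ?_, ?_⟩
  · have e := dvd_sub r00 (Dvd.dvd.mul_right r01 (b * k2))
    obtain ⟨w, hw⟩ := e
    exact ⟨w, by linear_combination hw⟩
  · have e := dvd_add (Dvd.dvd.mul_right r00 (-(a * h2)))
      (Dvd.dvd.mul_right r01 (1 + a * h2 * (b * k2)))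
    have e2 : (c : ℤ) ∣ a * (h1 + γ * h2) := by
      obtain ⟨w, hw⟩ := e
      exact ⟨w, by linear_combination hw⟩
    exact ha.symm.dvd_of_dvd_mul_left e2
  · have e := dvd_sub r10 (Dvd.dvd.mul_right r11 (b * k2))
    have e2 : (c : ℤ) ∣ b * (k1 + γ * k2) := by
      obtain ⟨w, hw⟩ := e
      exact ⟨w, by linear_combination hw⟩
    exact hb.symm.dvd_of_dvd_mul_left e2

/-- pairs `(h₁, k₁)` with a prescribed product modulo `c` -/
noncomputable def mTwo_G (c : ℕ) (a b γ : ℤ) (A B : ℕ) : Finset (ℤ × ℤ) :=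
  ((I A) ×ˢ (I B)).filter fun p => (c : ℤ) ∣ a * b * (p.1 * p.2) - (γ - 1)

theorem mTwo_G_card (hAP : StAP) (hFac : StFac) {c : ℕ} {a b γ : ℤ} {A B : ℕ} (hc : 1 ≤ c)
    (ha : IsCoprime a (c : ℤ)) (hb : IsCoprime b (c : ℤ)) {D : ℝ} (hD : 1 ≤ D)
    (hDt : ∀ j : ℕ, 1 ≤ j → j ≤ A * B → τ j ≤ D) :
    ((mTwo_G c a b γ A B).card : ℝ) ≤
      (2 * B + 1) + (2 * A + 1) + (2 * A * B / c + 1) * (2 * D) := by
  classical
  set S : Finset ℤ := (I (A * B)).filter fun j => j ≠ 0 ∧ (c : ℤ) ∣ a * b * j - (γ - 1) with hS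
  have hScard : (S.card : ℝ) ≤ 2 * A * B / c + 1 := by
    have h1 := hAP (A * B) c S hc (filter_subset _ _) (by
      intro x hx y hy
      rw [hS, mem_filter] at hx hy
      have h2 : (c : ℤ) ∣ (a * b) * (x - y) := by
        have := dvd_sub hx.2.2 hy.2.2
        obtain ⟨w, hw⟩ := this
        exact ⟨w, by linear_combination hw⟩
      exact (ha.mul_left hb).symm.dvd_of_dvd_mul_left h2)
    push_cast at h1
    calc (S.card : ℝ) ≤ 2 * (A * B) / c + 1 := h1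
      _ = 2 * A * B / c + 1 := by ring
  have hF := (hFac A B D S (by
    intro j hj
    rw [hS, mem_filter, mem_I'] at hj
    exact ⟨hj.2.1, hDt _ (Nat.one_le_iff_ne_zero.2 (Int.natAbs_ne_zero.2 hj.2.1)) hj.1⟩)).1
  have hsub : mTwo_G c a b γ A B ⊆ (((I B).image fun k => ((0 : ℤ), k)) ∪
      ((I A).image fun h => (h, (0 : ℤ)))) ∪
      (((I A) ×ˢ (I B)).filter fun p => p.1 * p.2 ∈ S) := by
    intro p hp
    rw [mTwo_G, mem_filter, mem_product] at hp
    rw [mem_union, mem_union, mem_image, mem_image, mem_filter, mem_product]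
    by_cases h1 : p.1 = 0
    · exact Or.inl (Or.inl ⟨p.2, hp.1.2, Prod.ext h1.symm rfl⟩)
    · by_cases h2 : p.2 = 0
      · exact Or.inl (Or.inr ⟨p.1, hp.1.1, Prod.ext rfl h2.symm⟩)
      · refine Or.inr ⟨hp.1, ?_⟩
        rw [hS, mem_filter, mem_I']
        refine ⟨?_, mul_ne_zero h1 h2, hp.2⟩
        rw [Int.natAbs_mul]
        exact Nat.mul_le_mul (mem_I'.1 hp.1.1) (mem_I'.1 hp.1.2)
  have hcard := (card_le_card hsub).trans (card_union_le _ _)
  have hcard2 := card_union_le ((I B).image fun k => ((0 : ℤ), k))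
    ((I A).image fun h => (h, (0 : ℤ)))
  have h3 : ((I B).image fun k => ((0 : ℤ), k)).card ≤ 2 * B + 1 :=
    card_image_le.trans (card_I B).le
  have h4 : ((I A).image fun h => (h, (0 : ℤ))).card ≤ 2 * A + 1 :=
    card_image_le.trans (card_I A).le
  have h5 : ((mTwo_G c a b γ A B).card : ℝ) ≤ ((2 * B + 1 : ℕ) : ℝ) + ((2 * A + 1 : ℕ) : ℝ) +
      ((((I A) ×ˢ (I B)).filter fun p => p.1 * p.2 ∈ S).card : ℝ) := by
    have : (mTwo_G c a b γ A B).card ≤ (2 * B + 1) + (2 * A + 1) +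
      (((I A) ×ˢ (I B)).filter fun p => p.1 * p.2 ∈ S).card := by omega
    exact_mod_cast this
  push_cast at h5
  have h6 : (S.card : ℝ) * (2 * D) ≤ (2 * A * B / c + 1) * (2 * D) :=
    mul_le_mul_of_nonneg_right hScard (by linarith)
  linarith

theorem mTwo_count (hAP : StAP) (hFac : StFac) {c : ℕ} {a b γ : ℤ} {A B : ℕ} (hc : 1 ≤ c)
    (ha : IsCoprime a (c : ℤ)) (hb : IsCoprime b (c : ℤ)) (hγ : (c : ℤ) ∣ γ ^ 2 - 1) {D : ℝ}
    (hD : 1 ≤ D) (hDt : ∀ j : ℕ, 1 ≤ j → j ≤ A * B → τ j ≤ D)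
    (F : Finset (List (ℤ × ℤ))) (hF : ∀ l ∈ F, l ∈ bx (I A) (I B) 2 ∧ Rel c a b γ l) :
    (F.card : ℝ) ≤ ((2 * B + 1) + (2 * A + 1) + (2 * A * B / c + 1) * (2 * D)) *
      ((2 * A / c + 1) * (2 * B / c + 1)) := by
  classical
  have hγu : IsCoprime γ (c : ℤ) := by
    obtain ⟨w, hw⟩ := hγ
    exact ⟨γ, -w, by linear_combination hw⟩
  set H : ℤ × ℤ → Finset ℤ := fun q => (I A).filter fun h => (c : ℤ) ∣ q.1 + γ * h with hH
  set L : ℤ × ℤ → Finset ℤ := fun q => (I B).filter fun k => (c : ℤ) ∣ q.2 + γ * k with hL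
  have hHc : ∀ q, ((H q).card : ℝ) ≤ 2 * A / c + 1 := by
    intro q
    refine hAP A c (H q) hc (filter_subset _ _) ?_
    intro x hx y hy
    rw [hH, mem_filter] at hx hy
    have h2 : (c : ℤ) ∣ γ * (x - y) := by
      have := dvd_sub hx.2 hy.2
      obtain ⟨w, hw⟩ := this
      exact ⟨w, by linear_combination hw⟩
    exact hγu.symm.dvd_of_dvd_mul_left h2
  have hLc : ∀ q, ((L q).card : ℝ) ≤ 2 * B / c + 1 := by
    intro q
    refine hAP B c (L q) hc (filter_subset _ _) ?_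
    intro x hx y hy
    rw [hL, mem_filter] at hx hy
    have h2 : (c : ℤ) ∣ γ * (x - y) := by
      have := dvd_sub hx.2 hy.2
      obtain ⟨w, hw⟩ := this
      exact ⟨w, by linear_combination hw⟩
    exact hγu.symm.dvd_of_dvd_mul_left h2
  have hform : ∀ l ∈ F, ∃ h1 k1 h2 k2 : ℤ, l = [(h2, k2), (h1, k1)] ∧ h1 ∈ I A ∧ k1 ∈ I B ∧
      h2 ∈ I A ∧ k2 ∈ I B := by
    intro l hl
    have h1 := (mem_bx.1 (hF l hl).1)
    obtain ⟨hlen, hmem⟩ := h1
    obtain ⟨p, q, rfl⟩ := List.length_eq_two.1 hlen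
    have hp := hmem p (by simp)
    have hq := hmem q (by simp)
    exact ⟨q.1, q.2, p.1, p.2, rfl, hq.1, hq.2, hp.1, hp.2⟩
  have h1 : F.card ≤ ((mTwo_G c a b γ A B).sigma fun q => H q ×ˢ L q).card := by
    refine card_le_card_of_injOn (fun l => (⟨l.getD 1 (0, 0), l.getD 0 (0, 0)⟩ :
      (_ : ℤ × ℤ) × (ℤ × ℤ))) ?_ ?_
    · intro l hl
      rw [mem_coe] at hl
      obtain ⟨h1, k1, h2, k2, rfl, e1, e2, e3, e4⟩ := hform l hl
      obtain ⟨f1, f2, f3⟩ := mTwo_rel ha hb (hF _ hl).2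
      rw [mem_coe, mem_sigma, mem_product]
      refine ⟨?_, ?_, ?_⟩
      · simp only [List.getD_cons_succ, List.getD_cons_zero]
        rw [mTwo_G, mem_filter, mem_product]
        exact ⟨⟨e1, e2⟩, f1⟩
      · simp only [List.getD_cons_succ, List.getD_cons_zero]
        rw [hH, mem_filter]
        exact ⟨e3, f2⟩
      · simp only [List.getD_cons_succ, List.getD_cons_zero]
        rw [hL, mem_filter]
        exact ⟨e4, f3⟩
    · intro l hl l' hl' hll
      rw [mem_coe] at hl hl'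
      obtain ⟨h1, k1, h2, k2, rfl, _, _, _, _⟩ := hform l hl
      obtain ⟨h1', k1', h2', k2', rfl, _, _, _, _⟩ := hform l' hl'
      simp only [List.getD_cons_succ, List.getD_cons_zero, Sigma.mk.injEq, heq_eq_eq] at hll
      rw [hll.1, hll.2]
  rw [card_sigma] at h1
  have h2 : (F.card : ℝ) ≤ ∑ q ∈ mTwo_G c a b γ A B, ((H q ×ˢ L q).card : ℝ) := by
    exact_mod_cast h1
  refine h2.trans ?_
  calc ∑ q ∈ mTwo_G c a b γ A B, ((H q ×ˢ L q).card : ℝ)
      ≤ ∑ _q ∈ mTwo_G c a b γ A B, ((2 * (A : ℝ) / c + 1) * (2 * B / c + 1)) := by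
        refine sum_le_sum fun q _ => ?_
        rw [card_product, Nat.cast_mul]
        exact mul_le_mul (hHc q) (hLc q) (by positivity) (by positivity)
    _ = ((mTwo_G c a b γ A B).card : ℝ) * ((2 * (A : ℝ) / c + 1) * (2 * B / c + 1)) := by
        rw [sum_const, nsmul_eq_mul]
    _ ≤ _ := mul_le_mul_of_nonneg_right (mTwo_G_card hAP hFac hc ha hb hD hDt) (by positivity)

/-- The divisor bound is available as the hypothesis `hdiv` (it is proved in the pool). -/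
theorem stTwo (hAP : StAP) (hSqrt : StSqrt) (hFac : StFac)
    (hdiv : ∀ ε : ℝ, 0 < ε → ∃ C : ℝ, 1 ≤ C ∧ ∀ n : ℕ, 1 ≤ n → τ n ≤ C * (n : ℝ) ^ ε) :
    StTwo := by
  classical
  intro K ε hK hε
  obtain ⟨C1, hC1, hdiv1⟩ := hdiv (ε / 4) (by linarith)
  have hK0 : 0 < K := by linarith
  refine ⟨216 * K ^ 3 * (C1 ^ 2 * K ^ (ε / 2)), by positivity, ?_⟩
  intro c a b A B hc ha hb hA hAB hBK
  have hc0 : (0 : ℝ) < (c : ℝ) := by exact_mod_cast hc
  have hc1 : (1 : ℝ) ≤ (c : ℝ) := by exact_mod_cast hc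
  have hAr : (1 : ℝ) ≤ (A : ℝ) := by exact_mod_cast hA
  have hABr : (A : ℝ) ≤ (B : ℝ) := by exact_mod_cast hAB
  have hBr : (1 : ℝ) ≤ (B : ℝ) := hAr.trans hABr
  set D : ℝ := C1 * (K ^ (ε / 2) * (c : ℝ) ^ (ε / 2)) with hD
  have hKe : 1 ≤ K ^ (ε / 2) := Real.one_le_rpow hK (by linarith)
  have hce : 1 ≤ (c : ℝ) ^ (ε / 2) := Real.one_le_rpow hc1 (by linarith)
  have hD1 : 1 ≤ D := by
    have h1 : 1 ≤ K ^ (ε / 2) * (c : ℝ) ^ (ε / 2) := one_le_mul_of_one_le_of_one_le hKe hce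
    exact one_le_mul_of_one_le_of_one_le hC1 h1
  have hDt : ∀ j : ℕ, 1 ≤ j → j ≤ A * B → τ j ≤ D := by
    intro j hj hjAB
    refine (hdiv1 j hj).trans ?_
    rw [hD]
    refine mul_le_mul_of_nonneg_left ?_ (by linarith)
    have h1 : (j : ℝ) ≤ (K * c) ^ 2 := by
      have h2 : (j : ℝ) ≤ (A : ℝ) * B := by exact_mod_cast hjAB
      have h3 : (A : ℝ) * B ≤ (K * c) * (K * c) :=
        mul_le_mul (hABr.trans hBK) hBK (by positivity) (by positivity)
      calc (j : ℝ) ≤ (K * c) * (K * c) := h2.trans h3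
        _ = (K * c) ^ 2 := by ring
    calc (j : ℝ) ^ (ε / 4) ≤ ((K * c) ^ 2) ^ (ε / 4) :=
          Real.rpow_le_rpow (by positivity) h1 (by linarith)
      _ = (K * c) ^ (ε / 2) := by
          rw [← Real.rpow_natCast, ← Real.rpow_mul (by positivity)]
          congr 1
          push_cast
          ring
      _ = K ^ (ε / 2) * (c : ℝ) ^ (ε / 2) := Real.mul_rpow hK0.le hc0.le
  have hτc : τ c ≤ C1 * (c : ℝ) ^ (ε / 2) := by
    refine (hdiv1 c hc).trans ?_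
    refine mul_le_mul_of_nonneg_left ?_ (by linarith)
    exact Real.rpow_le_rpow_of_exponent_le hc1 (by linarith)
  -- the union over γ
  have h1 : N c a b 2 A B ≤ ∑ γ ∈ Γ c,
      ((bx (I A) (I B) 2).filter fun l => Rel c a b γ l).card := by
    unfold N
    refine le_trans (card_le_card ?_) (card_biUnion_le (s := Γ c)
      (t := fun γ => (bx (I A) (I B) 2).filter fun l => Rel c a b γ l))
    intro l hl
    rw [mem_filter] at hl
    obtain ⟨hl1, γ, hγ, hR⟩ := hl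
    rw [mem_biUnion]
    exact ⟨γ, hγ, mem_filter.2 ⟨hl1, hR⟩⟩
  have h2 : (N c a b 2 A B : ℝ) ≤ ∑ γ ∈ Γ c,
      (((bx (I A) (I B) 2).filter fun l => Rel c a b γ l).card : ℝ) := by exact_mod_cast h1
  have h3 : ∀ γ ∈ Γ c, (((bx (I A) (I B) 2).filter fun l => Rel c a b γ l).card : ℝ) ≤
      12 * K * B * D * (9 * K ^ 2) := by
    intro γ hγ
    rw [Γ, mem_filter] at hγ
    refine (mTwo_count hAP hFac hc ha hb hγ.2 hD1 hDt _ (fun l hl => mem_filter.1 hl)).trans ?_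
    have h4 : 2 * (B : ℝ) / c + 1 ≤ 3 * K := by
      have : 2 * (B : ℝ) / c ≤ 2 * K := by
        rw [div_le_iff₀ hc0]
        nlinarith
      linarith
    have h5 : 2 * (A : ℝ) / c + 1 ≤ 3 * K := by
      have : 2 * (A : ℝ) / c ≤ 2 * (B : ℝ) / c := by gcongr
      linarith
    have h6 : 2 * (A : ℝ) * B / c + 1 ≤ 3 * K * A := by
      have h7 : 2 * (A : ℝ) * B / c ≤ 2 * K * A := by
        rw [div_le_iff₀ hc0]
        nlinarith
      nlinarith
    have h7 : (2 * (B : ℝ) + 1) + (2 * A + 1) + (2 * A * B / c + 1) * (2 * D) ≤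
        12 * K * B * D := by
      have h8 : (2 * (A : ℝ) * B / c + 1) * (2 * D) ≤ (3 * K * A) * (2 * D) :=
        mul_le_mul_of_nonneg_right h6 (by linarith)
      have h9 : (3 * K * A) * (2 * D) ≤ 6 * K * B * D := by
        have : (A : ℝ) * (K * D) ≤ B * (K * D) :=
          mul_le_mul_of_nonneg_right hABr (by positivity)
        nlinarith
      have h10 : (B : ℝ) ≤ K * B * D := by
        have h11 : 1 ≤ K * D := one_le_mul_of_one_le_of_one_le hK hD1
        nlinarith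
      nlinarith
    refine mul_le_mul h7 ?_ (by positivity) (by positivity)
    calc (2 * (A : ℝ) / c + 1) * (2 * B / c + 1) ≤ (3 * K) * (3 * K) :=
          mul_le_mul h5 h4 (by positivity) (by positivity)
      _ = 9 * K ^ 2 := by ring
  calc (N c a b 2 A B : ℝ) ≤ ∑ _γ ∈ Γ c, 12 * K * B * D * (9 * K ^ 2) := h2.trans (sum_le_sum h3)
    _ = (Γ c).card * (12 * K * B * D * (9 * K ^ 2)) := by rw [sum_const, nsmul_eq_mul]
    _ ≤ (2 * (C1 * (c : ℝ) ^ (ε / 2))) * (12 * K * B * D * (9 * K ^ 2)) := by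
        refine mul_le_mul_of_nonneg_right ?_ (by positivity)
        exact (hSqrt c hc).trans (mul_le_mul_of_nonneg_left hτc (by norm_num))
    _ = 216 * K ^ 3 * (C1 ^ 2 * K ^ (ε / 2)) * ((c : ℝ) ^ (ε / 2) * (c : ℝ) ^ (ε / 2)) * B := by
        rw [hD]
        ring
    _ = 216 * K ^ 3 * (C1 ^ 2 * K ^ (ε / 2)) * (c : ℝ) ^ ε * B := by
        rw [← Real.rpow_add hc0]
        congr 3
        ring

end Pool.Agent.Helper56.SW
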