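import Pool.Agent.Helper28.PC.N3
import Pool.Agent.Helper56.SW.M_AP
import Pool.Agent.Helper56.SW.M_Sqrt
import Pool.Agent.Helper56.SW.M_Fac
import Pool.Agent.Helper56.SW.M_P
import Pool.Agent.Helper56.SW.M_S
import Pool.Agent.Helper56.SW.M_T
import Pool.Agent.Helper56.SW.M_T2
import Pool.Agent.Helper56.SW.M_Rel
import Pool.Agent.Helper56.SW.M_Two
import Pool.Agent.Helper56.SW.M_Deg
import Pool.Agent.Helper56.SW.M_Tr
import Pool.Agent.Helper56.SW.M_Main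
import Pool.Agent.Helper56.SW.M_Fin

/-! # MP_e188f1_nt: assembly -/

set_option autoImplicit false

namespace Pool.Agent.Helper56.SW

open Finset Matrix

theorem fn_div : ∀ ε : ℝ, 0 < ε → ∃ C : ℝ, 1 ≤ C ∧ ∀ n : ℕ, 1 ≤ n → τ n ≤ C * (n : ℝ) ^ ε :=
  fun ε hε => by
    obtain ⟨C, hC, h⟩ := Pool.Agent.Helper28.PC.N3 ε hε
    exact ⟨C, hC, h⟩

theorem fn_two : StTwo := stTwo stAP stSqrt stFac fn_div

theorem fn_fin : StFin :=
  stFin (stMain stSqrt (stP stAP stMul) (stS stAP) (stT stAP stMul stFac) (stT' stAP stFac)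
    stRel (stFib stAP) fn_div) fn_two (stDeg stAP)

/-- One pair. -/
theorem fn_one (c : ℕ) (a b : ℤ) (A B : ℕ) (K : ℝ) (hc : 1 ≤ c) (ha : IsCoprime a c)
    (hb : IsCoprime b c) (hAB : A ≤ B) (hK : 1 ≤ K) (hBK : (B : ℝ) ≤ K * c) :
    (N c a b 1 A B : ℝ) ≤ 9 * K ^ 2 := by
  classical
  have hc0 : (0 : ℝ) < c := by exact_mod_cast hc
  have hAB' : (A : ℝ) ≤ B := by exact_mod_cast hAB
  set X := (I A).filter fun h => (c : ℤ) ∣ h with hX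
  set Y := (I B).filter fun h => (c : ℤ) ∣ h with hY
  have h1 : N c a b 1 A B ≤ (X ×ˢ Y).card := by
    rw [N]
    have h2 : ((bx (I A) (I B) 1).filter fun l => ∃ γ ∈ Γ c, Rel c a b γ l) ⊆
        (X ×ˢ Y).image fun p => [p] := by
      intro l hl
      obtain ⟨hl1, γ, hγ, hr⟩ := mem_filter.1 hl
      rw [bx, mem_image] at hl1
      obtain ⟨⟨t, x, y⟩, hp, rfl⟩ := hl1
      rw [mem_product, mem_product, bx, mem_singleton] at hp
      obtain ⟨rfl, hx, hy⟩ := hp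
      simp only at hx hy hr
      refine mem_image.2 ⟨(x, y), ?_, rfl⟩
      rw [mem_product, mem_filter, mem_filter]
      obtain ⟨-, r2, r3, -⟩ := hr
      rw [E_cons_01] at r2
      rw [E_cons_10] at r3
      simp only [E_nil, Matrix.one_apply_eq, one_mul, add_zero, ne_eq, one_ne_zero,
        not_false_eq_true, Matrix.one_apply_ne, zero_mul, zero_add, zero_ne_one] at r2 r3
      exact ⟨⟨hx, (ha.symm.dvd_of_dvd_mul_left r2)⟩, ⟨hy, (hb.symm.dvd_of_dvd_mul_left r3)⟩⟩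
    exact (card_le_card h2).trans card_image_le
  have hXc : (X.card : ℝ) ≤ 2 * A / c + 1 :=
    stAP A c X hc (filter_subset _ _) fun x hx y hy =>
      dvd_sub (mem_filter.1 hx).2 (mem_filter.1 hy).2
  have hYc : (Y.card : ℝ) ≤ 2 * B / c + 1 :=
    stAP B c Y hc (filter_subset _ _) fun x hx y hy =>
      dvd_sub (mem_filter.1 hx).2 (mem_filter.1 hy).2
  have hBc : (2 : ℝ) * B / c + 1 ≤ 3 * K := by
    have : (B : ℝ) / c ≤ K := by rw [div_le_iff₀ hc0]; exact hBK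
    have h2 : (2 : ℝ) * B / c = 2 * (B / c) := by ring
    linarith
  have hAc : (2 : ℝ) * A / c + 1 ≤ 3 * K := by
    have : (2 : ℝ) * A / c ≤ 2 * B / c := div_le_div_of_nonneg_right (by linarith) hc0.le
    linarith
  calc (N c a b 1 A B : ℝ) ≤ ((X ×ˢ Y).card : ℝ) := by exact_mod_cast h1
    _ = X.card * Y.card := by rw [card_product]; push_cast; ring
    _ ≤ (3 * K) * (3 * K) := mul_le_mul (hXc.trans hAc) (hYc.trans hBc) (Nat.cast_nonneg _)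
        (by positivity)
    _ = _ := by ring

/-- The general bound for the integer model, in uniform shape, for all `r ≥ 1`. -/
theorem fn_gen (r : ℕ) (hr : 1 ≤ r) (K ε : ℝ) (hK : 1 ≤ K) (hε : 0 < ε) :
    ∃ C : ℝ, 0 < C ∧ ∀ (c : ℕ) (a b : ℤ) (A B : ℕ) (H₁ H₂ : ℝ), 1 ≤ c → IsCoprime a c →
      IsCoprime b c → 1 ≤ A → A ≤ B → (A : ℝ) ≤ H₁ → (B : ℝ) ≤ H₂ → H₂ ≤ K * c →
      (N c a b r A B : ℝ) ≤ C * (c : ℝ) ^ ε * (H₂ ^ (r - 1) +
        (((c : ℝ) / H₂) ^ 2 + ((c : ℝ) / H₂) ^ 3 / H₁) * ((H₁ * H₂) ^ r / (c : ℝ) ^ 3)) := by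
  rcases Nat.lt_or_ge r 3 with h3 | h3
  · rcases Nat.lt_or_ge r 2 with h2 | h2
    · -- r = 1
      obtain rfl : r = 1 := by omega
      refine ⟨9 * K ^ 2, by positivity, ?_⟩
      intro c a b A B H₁ H₂ hc ha hb hA hAB hAH hBH hHK
      have hc' : (1 : ℝ) ≤ c := by exact_mod_cast hc
      have hA' : (1 : ℝ) ≤ A := by exact_mod_cast hA
      have hAB' : (A : ℝ) ≤ B := by exact_mod_cast hAB
      have hH1 : 0 < H₁ := by linarith
      have hH2 : 0 < H₂ := by linarith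
      have h1 := fn_one c a b A B K hc ha hb hAB hK (hBH.trans hHK)
      have h4 : 1 ≤ (c : ℝ) ^ ε := Real.one_le_rpow hc' hε.le
      have h5 : (1 : ℝ) ≤ H₂ ^ (1 - 1) +
        (((c : ℝ) / H₂) ^ 2 + ((c : ℝ) / H₂) ^ 3 / H₁) * ((H₁ * H₂) ^ 1 / (c : ℝ) ^ 3) := by
        have : (0 : ℝ) ≤
          (((c : ℝ) / H₂) ^ 2 + ((c : ℝ) / H₂) ^ 3 / H₁) * ((H₁ * H₂) ^ 1 / (c : ℝ) ^ 3) := by
          positivity
        simpa using this
      calc (N c a b 1 A B : ℝ) ≤ 9 * K ^ 2 := h1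
        _ = 9 * K ^ 2 * 1 * 1 := by ring
        _ ≤ _ := by
          refine mul_le_mul ?_ h5 zero_le_one (by positivity)
          exact mul_le_mul_of_nonneg_left h4 (by positivity)
    · -- r = 2
      obtain rfl : r = 2 := by omega
      obtain ⟨C, hC, h⟩ := fn_two K ε hK hε
      refine ⟨C, hC, ?_⟩
      intro c a b A B H₁ H₂ hc ha hb hA hAB hAH hBH hHK
      have hc' : (1 : ℝ) ≤ c := by exact_mod_cast hc
      have hA' : (1 : ℝ) ≤ A := by exact_mod_cast hA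
      have hAB' : (A : ℝ) ≤ B := by exact_mod_cast hAB
      have hH1 : 0 < H₁ := by linarith
      have hH2 : 0 < H₂ := by linarith
      refine (h c a b A B hc ha hb hA hAB (hBH.trans hHK)).trans ?_
      refine mul_le_mul_of_nonneg_left ?_ (by positivity)
      have : (0 : ℝ) ≤
          (((c : ℝ) / H₂) ^ 2 + ((c : ℝ) / H₂) ^ 3 / H₁) * ((H₁ * H₂) ^ 2 / (c : ℝ) ^ 3) := by
        positivity
      have e : H₂ ^ (2 - 1) = H₂ := by norm_num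
      rw [e]
      linarith
  · obtain ⟨n, rfl⟩ := Nat.exists_eq_add_of_le' h3
    obtain ⟨C, hC, h⟩ := fn_fin (n + 3) K ε (by omega) hK hε
    refine ⟨C, hC, ?_⟩
    intro c a b A B H₁ H₂ hc ha hb hA hAB hAH hBH hHK
    have hc' : (1 : ℝ) ≤ c := by exact_mod_cast hc
    have hA' : (1 : ℝ) ≤ A := by exact_mod_cast hA
    have hAB' : (A : ℝ) ≤ B := by exact_mod_cast hAB
    have hc0 : (0 : ℝ) < c := by linarith
    have hA0 : (0 : ℝ) < A := by linarith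
    have hB0 : (0 : ℝ) < B := by linarith
    have hH1 : 0 < H₁ := by linarith
    have hH2 : 0 < H₂ := by linarith
    refine (h c a b A B hc ha hb hA hAB (hBH.trans hHK)).trans ?_
    refine mul_le_mul_of_nonneg_left ?_ (by positivity)
    have e : (((c : ℝ) / H₂) ^ 2 + ((c : ℝ) / H₂) ^ 3 / H₁) *
        ((H₁ * H₂) ^ (n + 3) / (c : ℝ) ^ 3) =
        H₁ ^ (n + 2) * H₂ ^ n + H₁ ^ (n + 3) * H₂ ^ (n + 1) / c := by
      field_simp
      ring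
    rw [e]
    show (B : ℝ) ^ (n + 2) + (A : ℝ) ^ (n + 2) * (B : ℝ) ^ n +
      (A : ℝ) ^ (n + 3) * (B : ℝ) ^ (n + 1) / c ≤ H₂ ^ (n + 2) + _
    have p1 : (B : ℝ) ^ (n + 2) ≤ H₂ ^ (n + 2) := pow_le_pow_left₀ hB0.le hBH _
    have p2 : (A : ℝ) ^ (n + 2) * (B : ℝ) ^ n ≤ H₁ ^ (n + 2) * H₂ ^ n :=
      mul_le_mul (pow_le_pow_left₀ hA0.le hAH _) (pow_le_pow_left₀ hB0.le hBH _) (by positivity)
        (by positivity)
    have p3 : (A : ℝ) ^ (n + 3) * (B : ℝ) ^ (n + 1) / c ≤ H₁ ^ (n + 3) * H₂ ^ (n + 1) / c :=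
      div_le_div_of_nonneg_right
        (mul_le_mul (pow_le_pow_left₀ hA0.le hAH _) (pow_le_pow_left₀ hB0.le hBH _)
          (by positivity) (by positivity)) hc0.le
    linarith

/-- The general bound for `N_q`. -/
theorem fn_Nq (r : ℕ) (hr : 1 ≤ r) (K ε : ℝ) (hK : 1 ≤ K) (hε : 0 < ε) :
    ∃ C : ℝ, 0 < C ∧ ∀ (c : ℕ) (a₁ a₂ : (ZMod c)ˣ) (H₁ H₂ : ℝ), 1 ≤ c → 1 ≤ H₁ → H₁ ≤ H₂ →
      H₂ ≤ K * c →
      (Nq (2 * r) c a₁ a₂ H₁ H₂ : ℝ) ≤ C * (c : ℝ) ^ ε * (H₂ ^ (r - 1) +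
        (((c : ℝ) / H₂) ^ 2 + ((c : ℝ) / H₂) ^ 3 / H₁) * ((H₁ * H₂) ^ r / (c : ℝ) ^ 3)) := by
  obtain ⟨C, hC, h⟩ := fn_gen r hr K ε hK hε
  refine ⟨C, hC, ?_⟩
  intro c a₁ a₂ H₁ H₂ hc h1 h12 h2K
  obtain ⟨a, b, ha, hb, hN⟩ := stTr r c a₁ a₂ H₁ H₂ hc h1 h12
  rw [hN]
  exact h c a b _ _ H₁ H₂ hc ha hb (Nat.le_floor (by simpa using h1)) (Nat.floor_le_floor h12)
    (Nat.floor_le (by linarith)) (Nat.floor_le (by linarith)) h2K

/-- The bound asked for, in two ranges. -/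
theorem fn_Q1 (r : ℕ) (K ε η : ℝ) (hr : 1 ≤ r) (hK : 1 ≤ K) (hε : 0 < ε) (hη : 0 < η) :
    ∃ C : ℝ, 0 < C ∧ ∀ (c : ℕ) (a₁ a₂ : (ZMod c)ˣ) (H₁ H₂ : ℝ), 1 ≤ c → 1 ≤ H₁ → H₁ ≤ H₂ →
      H₂ ≤ K * c →
      ((Nq (2 * r) c a₁ a₂ H₁ H₂ : ℝ) ≤ C * (c : ℝ) ^ ε * (H₂ ^ (r - 1) +
        (((c : ℝ) / H₂) ^ 2 + ((c : ℝ) / H₂) ^ 3 / H₁) * ((H₁ * H₂) ^ r / (c : ℝ) ^ 3))) ∧
      ((η * c ≤ H₂ ∨ (H₁ ^ (r - 1) ≤ H₂ ^ 2 ∧ H₁ ^ r ≤ c * H₂)) →
        (Nq (2 * r) c a₁ a₂ H₁ H₂ : ℝ) ≤ C * (c : ℝ) ^ ε *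
          (H₂ ^ (r - 1) + (H₁ * H₂) ^ r / (c : ℝ) ^ 3)) := by
  obtain ⟨C, hC, h⟩ := fn_Nq r hr K ε hK hε
  set M := 3 + η⁻¹ ^ 2 + η⁻¹ ^ 3 with hM
  have hM1 : 3 ≤ M := by
    have : 0 ≤ η⁻¹ ^ 2 + η⁻¹ ^ 3 := by positivity
    linarith
  refine ⟨C * M, by positivity, ?_⟩
  intro c a₁ a₂ H₁ H₂ hc h1 h12 h2K
  have hc' : (1 : ℝ) ≤ c := by exact_mod_cast hc
  have hc0 : (0 : ℝ) < c := by linarith
  have hH1 : 0 < H₁ := by linarith
  have hH2 : 0 < H₂ := by linarith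
  have hN := h c a₁ a₂ H₁ H₂ hc h1 h12 h2K
  set Q := (H₁ * H₂) ^ r / (c : ℝ) ^ 3 with hQ
  have hQ0 : 0 ≤ Q := by positivity
  set W := ((c : ℝ) / H₂) ^ 2 + ((c : ℝ) / H₂) ^ 3 / H₁ with hW
  have hW0 : 0 ≤ W := by positivity
  have hce : 0 ≤ C * (c : ℝ) ^ ε := by positivity
  constructor
  · refine hN.trans ?_
    have h3 : 0 ≤ C * (c : ℝ) ^ ε * (H₂ ^ (r - 1) + W * Q) := by positivity
    calc C * (c : ℝ) ^ ε * (H₂ ^ (r - 1) + W * Q)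
        ≤ (C * (c : ℝ) ^ ε * (H₂ ^ (r - 1) + W * Q)) * M := by
          refine le_mul_of_one_le_right h3 (by linarith)
      _ = _ := by ring
  · intro hyp
    refine hN.trans ?_
    have key : H₂ ^ (r - 1) + W * Q ≤ M * (H₂ ^ (r - 1) + Q) := by
      have hP0 : 0 ≤ H₂ ^ (r - 1) := by positivity
      rcases hyp with hη2 | ⟨g1, g2⟩
      · have q1 : (c : ℝ) / H₂ ≤ η⁻¹ := by
          rw [div_le_iff₀ hH2, ← div_eq_inv_mul, le_div_iff₀ hη]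
          linarith
        have q0 : 0 ≤ (c : ℝ) / H₂ := by positivity
        have q2 : ((c : ℝ) / H₂) ^ 2 ≤ η⁻¹ ^ 2 := pow_le_pow_left₀ q0 q1 2
        have q3 : ((c : ℝ) / H₂) ^ 3 / H₁ ≤ η⁻¹ ^ 3 :=
          (div_le_self (by positivity) h1).trans (pow_le_pow_left₀ q0 q1 3)
        have q4 : W ≤ M := by rw [hW, hM]; linarith
        have q5 : W * Q ≤ M * Q := mul_le_mul_of_nonneg_right q4 hQ0
        have q6 : H₂ ^ (r - 1) ≤ M * H₂ ^ (r - 1) := le_mul_of_one_le_left hP0 (by linarith)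
        linarith
      · have q1 : W * Q ≤ 2 * H₂ ^ (r - 1) := by
          obtain ⟨n, rfl⟩ := Nat.exists_eq_add_of_le' hr
          have e1 : n + 1 - 1 = n := by omega
          rw [e1] at g1 ⊢
          have hn : 0 < H₂ ^ n := by positivity
          have e2 : W * Q = H₂ ^ n * (H₁ ^ (n + 1) / (c * H₂) + H₁ ^ n / H₂ ^ 2) := by
            rw [hW, hQ]
            field_simp
            ring
          rw [e2]
          have q2 : H₁ ^ (n + 1) / (c * H₂) ≤ 1 := by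
            rw [div_le_one (by positivity)]; exact g2
          have q3 : H₁ ^ n / H₂ ^ 2 ≤ 1 := by
            rw [div_le_one (by positivity)]; exact g1
          nlinarith
        have q5 : 0 ≤ M * Q := by positivity
        have q6 : 3 * H₂ ^ (r - 1) ≤ M * H₂ ^ (r - 1) := mul_le_mul_of_nonneg_right hM1 hP0
        linarith
    calc C * (c : ℝ) ^ ε * (H₂ ^ (r - 1) + W * Q)
        ≤ C * (c : ℝ) ^ ε * (M * (H₂ ^ (r - 1) + Q)) := mul_le_mul_of_nonneg_left key hce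
      _ = _ := by ring

end Pool.Agent.Helper56.SW
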