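import Pool.Agent.Helper56.SW.Defs

/-!
# Basic lemmas for MP_e188f1_nt
-/

set_option autoImplicit false

namespace Pool.Agent.Helper56.SW

open Finset Matrix

variable (a b : ℤ)

@[simp] theorem E_nil : E a b [] = 1 := rfl

theorem E_cons (p : ℤ × ℤ) (t : List (ℤ × ℤ)) :
    E a b (p :: t) = E a b t * ul (a * p.1) (b * p.2) := rfl

theorem E_cons_00 (h k : ℤ) (t : List (ℤ × ℤ)) :
    E a b ((h, k) :: t) 0 0 = E a b t 0 0 * (1 + a * h * (b * k)) + E a b t 0 1 * (b * k) := by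
  simp [E_cons, ul, Matrix.mul_apply, Fin.sum_univ_two]

theorem E_cons_01 (h k : ℤ) (t : List (ℤ × ℤ)) :
    E a b ((h, k) :: t) 0 1 = E a b t 0 0 * (a * h) + E a b t 0 1 := by
  simp [E_cons, ul, Matrix.mul_apply, Fin.sum_univ_two]

theorem E_cons_10 (h k : ℤ) (t : List (ℤ × ℤ)) :
    E a b ((h, k) :: t) 1 0 = E a b t 1 0 * (1 + a * h * (b * k)) + E a b t 1 1 * (b * k) := by
  simp [E_cons, ul, Matrix.mul_apply, Fin.sum_univ_two]

theorem E_cons_11 (h k : ℤ) (t : List (ℤ × ℤ)) :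
    E a b ((h, k) :: t) 1 1 = E a b t 1 0 * (a * h) + E a b t 1 1 := by
  simp [E_cons, ul, Matrix.mul_apply, Fin.sum_univ_two]

theorem det_ul (x y : ℤ) : (ul x y).det = 1 := by
  simp [ul, Matrix.det_fin_two]

theorem det_E (t : List (ℤ × ℤ)) : (E a b t).det = 1 := by
  induction t with
  | nil => simp
  | cons p t ih => rw [E_cons, Matrix.det_mul, ih, det_ul, one_mul]

theorem E_det (t : List (ℤ × ℤ)) :
    E a b t 0 0 * E a b t 1 1 - E a b t 0 1 * E a b t 1 0 = 1 := by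
  have := det_E a b t
  rwa [Matrix.det_fin_two] at this

theorem coprime_row (t : List (ℤ × ℤ)) : IsCoprime (E a b t 0 0) (E a b t 0 1) :=
  ⟨E a b t 1 1, - E a b t 1 0, by linear_combination E_det a b t⟩

/-- the first row of `E t * U(a h)` is `(E t 0 0, m t h)` -/
theorem coprime_m (t : List (ℤ × ℤ)) (h : ℤ) : IsCoprime (E a b t 0 0) (m a b t h) := by
  have := coprime_row a b t
  rw [m]
  have h2 := this.add_mul_left_right (a * h)
  rwa [mul_comm (E a b t 0 0) (a * h)] at h2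

theorem m_nil (h : ℤ) : m a b [] h = a * h := by simp [m]

theorem m_cons (h' k' h : ℤ) (t : List (ℤ × ℤ)) :
    m a b ((h', k') :: t) h =
      (E a b t 0 0 + m a b t h' * (b * k')) * (a * h) + m a b t h' := by
  rw [m, E_cons_00, E_cons_01, m]; ring

theorem E_cons_00' (h k : ℤ) (t : List (ℤ × ℤ)) :
    E a b ((h, k) :: t) 0 0 = E a b t 0 0 + m a b t h * (b * k) := by
  rw [E_cons_00, m]; ring

/-- the determinant of `U(a h)⁻¹ (E t)⁻¹`: `m₁₁ m₂₂ - m₁₂ m₂₁ = 1` -/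
theorem M_det (t : List (ℤ × ℤ)) (h : ℤ) :
    (E a b t 1 1 + a * h * E a b t 1 0) * E a b t 0 0 - m a b t h * E a b t 1 0 = 1 := by
  rw [m]; linear_combination E_det a b t

theorem mem_I {B : ℕ} {x : ℤ} : x ∈ I B ↔ |x| ≤ B := by
  rw [I, mem_Icc, abs_le]

theorem mem_I' {B : ℕ} {x : ℤ} : x ∈ I B ↔ x.natAbs ≤ B := by
  rw [mem_I, ← Int.natCast_natAbs]
  exact Nat.cast_le

theorem card_I (B : ℕ) : (I B).card = 2 * B + 1 := by
  rw [I, Int.card_Icc]; omega

theorem mem_J {c A : ℕ} {h : ℤ} : h ∈ J c A ↔ h ∈ I A ∧ ¬ (c : ℤ) ∣ h := by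
  rw [J, mem_filter]

theorem J_subset (c A : ℕ) : J c A ⊆ I A := filter_subset _ _

theorem ne_zero_of_mem_J {c A : ℕ} {h : ℤ} (hh : h ∈ J c A) : h ≠ 0 := by
  rintro rfl
  exact (mem_J.1 hh).2 (dvd_zero _)

theorem card_J_le (c A : ℕ) : (J c A).card ≤ 2 * A := by
  have h1 : J c A ⊆ (I A).erase 0 := fun h hh =>
    mem_erase.2 ⟨ne_zero_of_mem_J hh, J_subset c A hh⟩
  have h2 := card_le_card h1
  have h3 : (0 : ℤ) ∈ I A := by rw [mem_I]; simp
  rw [card_erase_of_mem h3, card_I] at h2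
  omega

theorem mem_bx {X Y : Finset ℤ} {s : ℕ} {l : List (ℤ × ℤ)} :
    l ∈ bx X Y s ↔ l.length = s ∧ ∀ p ∈ l, p.1 ∈ X ∧ p.2 ∈ Y := by
  induction s generalizing l with
  | zero =>
    rw [bx, mem_singleton]
    constructor
    · rintro rfl; simp
    · rintro ⟨h, _⟩; exact List.length_eq_zero_iff.1 h
  | succ s ih =>
    rw [bx, mem_image]
    constructor
    · rintro ⟨⟨t, x, y⟩, hp, rfl⟩
      rw [mem_product, mem_product] at hp
      have h1 := ih.1 hp.1
      refine ⟨by simp [h1.1], ?_⟩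
      intro p hp'
      rcases List.mem_cons.1 hp' with rfl | h
      · exact hp.2
      · exact h1.2 p h
    · rintro ⟨h1, h2⟩
      cases l with
      | nil => simp at h1
      | cons p t =>
        refine ⟨(t, p), ?_, rfl⟩
        rw [mem_product, mem_product]
        refine ⟨ih.2 ⟨by simpa using h1, fun q hq => h2 q (List.mem_cons_of_mem _ hq)⟩, ?_⟩
        exact h2 p List.mem_cons_self

theorem sum_bx_succ {M : Type*} [AddCommMonoid M] (X Y : Finset ℤ) (s : ℕ)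
    (f : List (ℤ × ℤ) → M) :
    ∑ l ∈ bx X Y (s + 1), f l = ∑ t ∈ bx X Y s, ∑ x ∈ X, ∑ y ∈ Y, f ((x, y) :: t) := by
  rw [bx, sum_image, sum_product]
  · refine sum_congr rfl fun t _ => ?_
    rw [sum_product]
  · rintro ⟨t, p⟩ _ ⟨t', p'⟩ _ h
    simp only [List.cons.injEq] at h
    exact Prod.ext h.2 h.1

theorem card_bx (X Y : Finset ℤ) (s : ℕ) : (bx X Y s).card = (X.card * Y.card) ^ s := by
  induction s with
  | zero => simp [bx]
  | succ s ih =>
    rw [card_eq_sum_ones, sum_bx_succ]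
    simp only [sum_const, smul_eq_mul, mul_one]
    rw [ih, pow_succ]

theorem one_le_τ {c : ℕ} (hc : 1 ≤ c) : 1 ≤ τ c := by
  rw [τ]
  exact_mod_cast card_pos.2 ⟨1, Nat.one_mem_divisors.2 (by omega)⟩

end Pool.Agent.Helper56.SW
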