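import Mathlib

/-!
# Short words in `SL_2(ℤ/c)` (MP_e188f1_nt): definitions

Integer model.  A pair `(h, k)` stands for `U(a h) L(b k)`, `U(x) = [[1,x],[0,1]]`,
`L(y) = [[1,0],[y,1]]`.
-/

set_option autoImplicit false

namespace Pool.Agent.Helper56.SW

open Finset Matrix

noncomputable section

/-- `U(x) L(y)` -/
def ul (x y : ℤ) : Matrix (Fin 2) (Fin 2) ℤ := !![1 + x * y, x; y, 1]

/-- the word of a list of pairs; the head of the list is the LAST factor -/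
def E (a b : ℤ) : List (ℤ × ℤ) → Matrix (Fin 2) (Fin 2) ℤ
  | [] => 1
  | p :: t => E a b t * ul (a * p.1) (b * p.2)

/-- the word of `l` is `γ` times the identity modulo `c` -/
def Rel (c : ℕ) (a b γ : ℤ) (l : List (ℤ × ℤ)) : Prop :=
  (c : ℤ) ∣ E a b l 0 0 - γ ∧ (c : ℤ) ∣ E a b l 0 1 ∧ (c : ℤ) ∣ E a b l 1 0 ∧
    (c : ℤ) ∣ E a b l 1 1 - γ

/-- integers of absolute value at most `B` -/
def I (B : ℕ) : Finset ℤ := Icc (-(B : ℤ)) B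

/-- integers of absolute value at most `A` that are not divisible by `c` -/
def J (c A : ℕ) : Finset ℤ := (I A).filter fun h => ¬ (c : ℤ) ∣ h

/-- lists of `s` pairs from `X × Y` -/
def bx (X Y : Finset ℤ) : ℕ → Finset (List (ℤ × ℤ))
  | 0 => {[]}
  | s + 1 => ((bx X Y s) ×ˢ (X ×ˢ Y)).image fun p => p.2 :: p.1

/-- residues whose square is one -/
def Γ (c : ℕ) : Finset ℕ := (range c).filter fun γ => (c : ℤ) ∣ (γ : ℤ) ^ 2 - 1

/-- all lists of `r` pairs with `|h| ≤ A`, `|k| ≤ B` whose word is a scalar of square one -/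
def N (c : ℕ) (a b : ℤ) (r A B : ℕ) : ℕ := by
  classical
  exact ((bx (I A) (I B) r).filter fun l => ∃ γ ∈ Γ c, Rel c a b γ l).card

/-- the same with all `h` not divisible by `c` -/
def N0 (c : ℕ) (a b : ℤ) (r A B : ℕ) : ℕ := by
  classical
  exact ((bx (J c A) (I B) r).filter fun l => ∃ γ ∈ Γ c, Rel c a b γ l).card

/-- the entry `(1,2)` of `E t * U(a h)` -/
def m (a b : ℤ) (t : List (ℤ × ℤ)) (h : ℤ) : ℤ := E a b t 0 1 + a * h * E a b t 0 0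

/-- number of `(t, h)` with `g ∣ m t h` -/
def P (c : ℕ) (a b : ℤ) (s A B g : ℕ) : ℕ :=
  (((bx (J c A) (I B) s) ×ˢ (J c A)).filter fun p => (g : ℤ) ∣ m a b p.1 p.2).card

/-- `x₂ + x₃ + x₂ x₃ y₂` -/
def β (a b h2 k2 h3 : ℤ) : ℤ := a * h2 + a * h3 + a * h2 * (a * h3) * (b * k2)

/-- number of `(t, h₁, h₂, k₂, h₃)` with `β ≡ - γ m (mod c)` and `g ∣ m` -/
def T (c : ℕ) (a b γ : ℤ) (s A B g : ℕ) : ℕ :=
  (((bx (J c A) (I B) s) ×ˢ (J c A) ×ˢ (J c A) ×ˢ (I B) ×ˢ (J c A)).filter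
    fun p => (c : ℤ) ∣ β a b p.2.2.1 p.2.2.2.1 p.2.2.2.2 + γ * m a b p.1 p.2.1 ∧
      (g : ℤ) ∣ m a b p.1 p.2.1).card

/-- number of `(t, h₁, h₂, k₂, h₃)` with `g ∣ m`, `g ∣ β` and `α ≡ γ m₁₁ (mod g)` -/
def T' (c : ℕ) (a b γ : ℤ) (s A B g : ℕ) : ℕ :=
  (((bx (J c A) (I B) s) ×ˢ (J c A) ×ˢ (J c A) ×ˢ (I B) ×ˢ (J c A)).filter
    fun p => (g : ℤ) ∣ m a b p.1 p.2.1 ∧ (g : ℤ) ∣ β a b p.2.2.1 p.2.2.2.1 p.2.2.2.2 ∧
      (g : ℤ) ∣ 1 + a * p.2.2.1 * (b * p.2.2.2.1) -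
        γ * (E a b p.1 1 1 + a * p.2.1 * E a b p.1 1 0)).card

/-- number of `t` for which some `h` has `g ∣ m t h` -/
def V (c : ℕ) (a b : ℤ) (s A B g : ℕ) : ℕ :=
  ((bx (J c A) (I B) s).filter fun t => ∃ h ∈ J c A, (g : ℤ) ∣ m a b t h).card

/-- number of divisors, as a real number -/
def τ (n : ℕ) : ℝ := (n.divisors.card : ℝ)

/-! ### the original counting function -/

/-- `T ^ x` over `ℤ/c` -/
def Tm {c : ℕ} (x : ZMod c) : Matrix (Fin 2) (Fin 2) (ZMod c) := !![1, x; 0, 1]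

/-- `S` over `ℤ/c` -/
def Sm (c : ℕ) : Matrix (Fin 2) (Fin 2) (ZMod c) := !![0, -1; 1, 0]

/-- `N_q(c; a₁, a₂; H₁, H₂)`: the number of `h ∈ ℤ^q` with `|h_i| ≤ H₁` for the 1st, 3rd, ... entry and
`|h_i| ≤ H₂` for the 2nd, 4th, ... entry such that the product of the `T^(b_i h_i) S`
(`b_i = a₁, a₂, a₁, a₂, ...`) is `γ` times the identity with `γ ^ 2 = 1` -/
def Nq (q c : ℕ) (a₁ a₂ : (ZMod c)ˣ) (H₁ H₂ : ℝ) : ℕ :=
  Nat.card {h : Fin q → ℤ //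
    (∀ i : Fin q, |(h i : ℝ)| ≤ if (i : ℕ) % 2 = 0 then H₁ else H₂) ∧
    ∃ γ : ZMod c, γ ^ 2 = 1 ∧
      (List.ofFn fun i : Fin q =>
        Tm ((if (i : ℕ) % 2 = 0 then (a₁ : ZMod c) else (a₂ : ZMod c)) * (h i : ZMod c)) * Sm c).prod
        = γ • (1 : Matrix (Fin 2) (Fin 2) (ZMod c))}

end

end Pool.Agent.Helper56.SW
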