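import Pool.Agent.Helper56.SW.Basic
import Pool.Agent.Helper56.SW.Statements

/-! # MP_e188f1_nt, module M_Main -/

set_option autoImplicit false

namespace Pool.Agent.Helper56.SW

open Finset Matrix

/-- the data kept -/
def mainP : List (ℤ × ℤ) → List (ℤ × ℤ) × ℤ × ℤ × ℤ × ℤ
  | (h3, _) :: (h2, k2) :: (h1, _) :: t => (t, h1, h2, k2, h3)
  | _ => ([], 0, 0, 0, 0)

/-- the data forgotten -/
def mainQ : List (ℤ × ℤ) → ℤ × ℤ
  | (_, k3) :: (_, _) :: (_, k1) :: _ => (k1, k3)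
  | _ => (0, 0)

theorem main_bx3 {X Y : Finset ℤ} {s : ℕ} {l : List (ℤ × ℤ)} (h : l ∈ bx X Y (s + 3)) :
    ∃ t h1 k1 h2 k2 h3 k3, l = (h3, k3) :: (h2, k2) :: (h1, k1) :: t ∧ t ∈ bx X Y s ∧
      h1 ∈ X ∧ h2 ∈ X ∧ h3 ∈ X ∧ k1 ∈ Y ∧ k2 ∈ Y ∧ k3 ∈ Y := by
  rw [bx, mem_image] at h
  obtain ⟨⟨l', h3, k3⟩, hp, rfl⟩ := h
  rw [mem_product, mem_product, bx, mem_image] at hp
  obtain ⟨⟨⟨l'', h2, k2⟩, hp', e'⟩, h3X, k3Y⟩ := hp
  rw [mem_product, mem_product, bx, mem_image] at hp'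
  obtain ⟨⟨⟨t, h1, k1⟩, hp'', e''⟩, h2X, k2Y⟩ := hp'
  rw [mem_product, mem_product] at hp''
  simp only at e' e'' h3X k3Y h2X k2Y hp''
  refine ⟨t, h1, k1, h2, k2, h3, k3, ?_, hp''.1, hp''.2.1, h2X, h3X, hp''.2.2, k2Y, k3Y⟩
  simp only
  rw [← e', ← e'']

/-- The counting part. -/
theorem main_count (hRel : StRel) (hFib : StFib) (c : ℕ) (a b γ : ℤ) (s A B : ℕ) (hc : 1 ≤ c)
    (ha : IsCoprime a c) (hb : IsCoprime b c) (hγ : (c : ℤ) ∣ γ ^ 2 - 1)
    (hdec : DecidablePred fun l => Rel c a b γ l) :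
    (((bx (J c A) (I B) (s + 3)).filter fun l => Rel c a b γ l).card : ℝ) ≤
      (2 * B / c + 1) * (T c a b γ s A B 1 + ∑ g ∈ c.divisors,
        2 * B * (g : ℝ) / c * (if g < B then (T c a b γ s A B g : ℝ) else T' c a b γ s A B g)) := by
  classical
  set F := (bx (J c A) (I B) (s + 3)).filter fun l => Rel c a b γ l with hF
  set W := F.image mainP with hW
  have hc0 : (0 : ℝ) < c := by exact_mod_cast hc
  -- elements of W
  have hWmem : ∀ u ∈ W, (u.1 ∈ bx (J c A) (I B) s ∧ u.2.1 ∈ J c A ∧ u.2.2.1 ∈ J c A ∧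
      u.2.2.2.1 ∈ I B ∧ u.2.2.2.2 ∈ J c A) ∧ ∃ k1 k3, Rel c a b γ
        ((u.2.2.2.2, k3) :: (u.2.2.1, u.2.2.2.1) :: (u.2.1, k1) :: u.1) := by
    intro u hu
    obtain ⟨l, hl, rfl⟩ := mem_image.1 hu
    obtain ⟨hl1, hl2⟩ := mem_filter.1 hl
    obtain ⟨t, h1, k1, h2, k2, h3, k3, rfl, ht, h1X, h2X, h3X, k1Y, k2Y, k3Y⟩ := main_bx3 hl1
    exact ⟨⟨ht, h1X, h2X, k2Y, h3X⟩, k1, k3, hl2⟩
  have hcard : (F.card : ℝ) = ∑ u ∈ W, ((F.filter fun l => mainP l = u).card : ℝ) := by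
    rw [card_eq_sum_card_image mainP F]
    push_cast
    rfl
  have hfib : ∀ u ∈ W, ((F.filter fun l => mainP l = u).card : ℝ) ≤
      (2 * B * (Int.gcd (m a b u.1 u.2.1) c) / c + 1) * (2 * B / c + 1) := by
    intro u hu
    have hinj : Set.InjOn mainQ ((F.filter fun l => mainP l = u : Finset _) : Set _) := by
      intro l hl l' hl' e
      rw [mem_coe, mem_filter] at hl hl'
      obtain ⟨t, h1, k1, h2, k2, h3, k3, rfl, -⟩ := main_bx3 (mem_filter.1 hl.1).1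
      obtain ⟨t', h1', k1', h2', k2', h3', k3', rfl, -⟩ := main_bx3 (mem_filter.1 hl'.1).1
      have e2 := hl.2.trans hl'.2.symm
      simp only [mainP, mainQ, Prod.mk.injEq] at e e2
      obtain ⟨rfl, rfl, rfl, rfl, rfl⟩ := e2
      obtain ⟨rfl, rfl⟩ := e
      rfl
    rw [← card_image_of_injOn hinj]
    refine hFib c a b γ u.1 u.2.1 u.2.2.1 u.2.2.2.1 u.2.2.2.2 B hc ha hb hγ _ ?_
    intro p hp
    obtain ⟨l, hl, rfl⟩ := mem_image.1 hp
    obtain ⟨hl1, hl2⟩ := mem_filter.1 hl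
    obtain ⟨hl3, hl4⟩ := mem_filter.1 hl1
    obtain ⟨t, h1, k1, h2, k2, h3, k3, rfl, ht, h1X, h2X, h3X, k1Y, k2Y, k3Y⟩ := main_bx3 hl3
    subst hl2
    exact ⟨k1Y, k3Y, hl4⟩
  have hone : (W.card : ℝ) ≤ T c a b γ s A B 1 := by
    rw [T]
    refine Nat.cast_le.2 (card_le_card fun u hu => ?_)
    obtain ⟨⟨h1, h2, h3, h4, h5⟩, k1, k3, hr⟩ := hWmem u hu
    rw [mem_filter, mem_product, mem_product, mem_product, mem_product]
    refine ⟨⟨h1, h2, h3, h4, h5⟩, (hRel _ _ _ _ _ _ _ _ _ _ _ hc hr).1, ?_⟩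
    simp
  have hgW : ∀ g ∈ c.divisors, ((W.filter fun u => Int.gcd (m a b u.1 u.2.1) c = g).card : ℝ) ≤
      (if g < B then (T c a b γ s A B g : ℝ) else T' c a b γ s A B g) := by
    intro g hg
    have hgc : g ∣ c := Nat.dvd_of_mem_divisors hg
    split_ifs
    · rw [T]
      refine Nat.cast_le.2 (card_le_card fun u hu => ?_)
      obtain ⟨hu, hug⟩ := mem_filter.1 hu
      obtain ⟨⟨h1, h2, h3, h4, h5⟩, k1, k3, hr⟩ := hWmem u hu
      rw [mem_filter, mem_product, mem_product, mem_product, mem_product]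
      refine ⟨⟨h1, h2, h3, h4, h5⟩, (hRel _ _ _ _ _ _ _ _ _ _ _ hc hr).1, ?_⟩
      rw [← hug]
      exact Int.gcd_dvd_left _ _
    · rw [T']
      refine Nat.cast_le.2 (card_le_card fun u hu => ?_)
      obtain ⟨hu, hug⟩ := mem_filter.1 hu
      obtain ⟨⟨h1, h2, h3, h4, h5⟩, k1, k3, hr⟩ := hWmem u hu
      rw [mem_filter, mem_product, mem_product, mem_product, mem_product]
      have hgm : (g : ℤ) ∣ m a b u.1 u.2.1 := by
        rw [← hug]
        exact Int.gcd_dvd_left _ _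
      have := (hRel _ _ _ _ _ _ _ _ _ _ _ hc hr).2 g hgc hgm
      exact ⟨⟨h1, h2, h3, h4, h5⟩, hgm, this.1, this.2⟩
  have hsum : ∑ u ∈ W, 2 * B * (Int.gcd (m a b u.1 u.2.1) c : ℝ) / c ≤
      ∑ g ∈ c.divisors,
        2 * B * (g : ℝ) / c * (if g < B then (T c a b γ s A B g : ℝ) else T' c a b γ s A B g) := by
    have hmaps : ∀ u ∈ W, Int.gcd (m a b u.1 u.2.1) c ∈ c.divisors := by
      intro u _
      rw [Nat.mem_divisors]
      refine ⟨?_, by omega⟩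
      have := Int.gcd_dvd_right (m a b u.1 u.2.1) (c : ℤ)
      exact_mod_cast this
    rw [← sum_fiberwise_of_maps_to hmaps]
    refine sum_le_sum fun g hg => ?_
    rw [sum_congr rfl (g := fun _ => 2 * B * (g : ℝ) / c) (fun u hu => by
      rw [(mem_filter.1 hu).2]), sum_const, nsmul_eq_mul, mul_comm]
    exact mul_le_mul_of_nonneg_left (hgW g hg) (by positivity)
  rw [hcard]
  calc ∑ u ∈ W, ((F.filter fun l => mainP l = u).card : ℝ)
      ≤ ∑ u ∈ W, (2 * B * (Int.gcd (m a b u.1 u.2.1) c : ℝ) / c + 1) * (2 * B / c + 1) :=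
        sum_le_sum hfib
    _ = (2 * B / c + 1) * (W.card + ∑ u ∈ W, 2 * B * (Int.gcd (m a b u.1 u.2.1) c : ℝ) / c) := by
        rw [← sum_mul, sum_add_distrib, sum_const, nsmul_eq_mul]; ring
    _ ≤ _ := by
        refine mul_le_mul_of_nonneg_left (add_le_add hone hsum) (by positivity)

/-- `V ≤ P` -/
theorem main_V_le_P (c : ℕ) (a b : ℤ) (s A B g : ℕ) :
    (V c a b s A B g : ℝ) ≤ P c a b s A B g := by
  classical
  rw [V, P]
  refine Nat.cast_le.2 ?_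
  have : ((bx (J c A) (I B) s).filter fun t => ∃ h ∈ J c A, (g : ℤ) ∣ m a b t h) ⊆
      (((bx (J c A) (I B) s) ×ˢ (J c A)).filter fun p => (g : ℤ) ∣ m a b p.1 p.2).image
        Prod.fst := by
    intro t ht
    obtain ⟨ht, h, hh, hd⟩ := mem_filter.1 ht
    exact mem_image.2 ⟨(t, h), mem_filter.2 ⟨mem_product.2 ⟨ht, hh⟩, hd⟩, rfl⟩
  exact (card_le_card this).trans card_image_le

theorem main_V_le (c : ℕ) (a b : ℤ) (s A B g : ℕ) :
    (V c a b s A B g : ℝ) ≤ ((bx (J c A) (I B) s).card : ℝ) := by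
  rw [V]
  exact Nat.cast_le.2 (card_filter_le _ _)

/-- real inequality for `T 1` -/
theorem main_r1 (A B c F D S8 N V S : ℝ) (hA : 1 ≤ A) (hAB : A ≤ B) (hc : 1 ≤ c) (hF : 1 ≤ F)
    (hD0 : 0 ≤ D) (hD : D ≤ F) (hN : 0 ≤ N) (h8 : 0 ≤ S8) (hV : V ≤ S8 * N)
    (hS : S ≤ S8 * N * (F * (2 + c / B))) :
    V * (4 * A ^ 2 + (4 * A / 1) * (4 * A ^ 2 * B / c + 1) * (4 * D ^ 2) +
      (4 * A ^ 2 * B / c) * (4 * D ^ 2)) + 16 * A ^ 3 / c * S ≤
      148 * F ^ 2 * (S8 * N * (A ^ 2 + A ^ 3 * B / c)) := by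
  have hB : 1 ≤ B := hA.trans hAB
  have hc0 : 0 < c := by linarith
  have hB0 : 0 < B := by linarith
  have hA0 : 0 < A := by linarith
  have hD2 : D ^ 2 ≤ F ^ 2 := by nlinarith
  have hF2 : F ≤ F ^ 2 := by nlinarith
  have hF1 : 1 ≤ F ^ 2 := by nlinarith
  set x := A ^ 3 * B / c with hx
  have hx0 : 0 ≤ x := by positivity
  have e1 : A ^ 2 * B / c ≤ x := by
    rw [hx]
    refine div_le_div_of_nonneg_right ?_ hc0.le
    have : A ^ 2 ≤ A ^ 3 := pow_le_pow_right₀ hA (by norm_num)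
    nlinarith
  have e2 : A ^ 3 / c ≤ x := by
    rw [hx]
    refine div_le_div_of_nonneg_right ?_ hc0.le
    have : 0 ≤ A ^ 3 := by positivity
    nlinarith
  have e3 : A ^ 3 / B ≤ A ^ 2 := by
    rw [div_le_iff₀ hB0]
    have : A ^ 3 = A ^ 2 * A := by ring
    rw [this]
    exact mul_le_mul_of_nonneg_left hAB (by positivity)
  have e4 : A ≤ A ^ 2 := by nlinarith
  have h1 : V * (4 * A ^ 2 + (4 * A / 1) * (4 * A ^ 2 * B / c + 1) * (4 * D ^ 2) +
      (4 * A ^ 2 * B / c) * (4 * D ^ 2)) ≤ S8 * N * (F ^ 2 * (20 * A ^ 2 + 80 * x)) := by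
    have h2 : 4 * A ^ 2 + (4 * A / 1) * (4 * A ^ 2 * B / c + 1) * (4 * D ^ 2) +
      (4 * A ^ 2 * B / c) * (4 * D ^ 2) = 4 * A ^ 2 + (64 * x + 16 * A + 16 * (A ^ 2 * B / c)) * D ^ 2 := by
      rw [hx]; field_simp; ring
    rw [h2]
    have h3 : 4 * A ^ 2 + (64 * x + 16 * A + 16 * (A ^ 2 * B / c)) * D ^ 2 ≤
        F ^ 2 * (20 * A ^ 2 + 80 * x) := by
      have h4 : (64 * x + 16 * A + 16 * (A ^ 2 * B / c)) * D ^ 2 ≤
          (80 * x + 16 * A ^ 2) * F ^ 2 := by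
        refine mul_le_mul (by linarith) hD2 (by positivity) (by positivity)
      nlinarith [mul_le_mul_of_nonneg_right hF1 (show (0:ℝ) ≤ 4 * A ^ 2 by positivity)]
    exact mul_le_mul hV h3 (by positivity) (by positivity)
  have h5 : 16 * A ^ 3 / c * S ≤ S8 * N * (F ^ 2 * (32 * x + 16 * A ^ 2)) := by
    have h6 : 16 * A ^ 3 / c * S ≤ 16 * A ^ 3 / c * (S8 * N * (F * (2 + c / B))) :=
      mul_le_mul_of_nonneg_left hS (by positivity)
    refine h6.trans ?_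
    have h7 : 16 * A ^ 3 / c * (S8 * N * (F * (2 + c / B))) =
        S8 * N * (F * (32 * (A ^ 3 / c) + 16 * (A ^ 3 / B))) := by
      field_simp
      ring
    rw [h7]
    refine mul_le_mul_of_nonneg_left ?_ (by positivity)
    exact mul_le_mul hF2 (by linarith) (by positivity) (by positivity)
  have h8' : S8 * N * (F ^ 2 * (20 * A ^ 2 + 80 * x)) + S8 * N * (F ^ 2 * (32 * x + 16 * A ^ 2)) ≤
      148 * F ^ 2 * (S8 * N * (A ^ 2 + x)) := by
    have : 0 ≤ S8 * N * F ^ 2 := by positivity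
    nlinarith [mul_nonneg this hx0, mul_nonneg this (show (0:ℝ) ≤ A ^ 2 by positivity)]
  linarith

/-- real inequality for `T g`, `g < B` -/
theorem main_r2 (A B c K F D S8 N V S g Fs : ℝ) (hA : 1 ≤ A) (hAB : A ≤ B) (hc : 1 ≤ c)
    (hK : 1 ≤ K) (hBK : B ≤ K * c) (hF : 1 ≤ F) (hFs : 1 ≤ Fs) (hg : 1 ≤ g) (hgB : g ≤ B)
    (hD0 : 0 ≤ D) (hD : D ≤ F) (hN : 0 ≤ N) (h8 : 0 ≤ S8) (hV : V ≤ S8 * N)
    (hV2 : V ≤ 2 * S8 * Fs * A * N * (1 / g + 1 / B))
    (hS : S ≤ S8 * N * (F * (2 + c / B))) :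
    2 * B * g / c * (V * (4 * A ^ 2 + (4 * A / g) * (4 * A ^ 2 * B / c + 1) * (4 * D ^ 2) +
      (4 * A ^ 2 * B / c) * (4 * D ^ 2)) + 16 * A ^ 3 / c * S) ≤
      416 * K * (Fs * F ^ 2) * (S8 * N * (A ^ 2 + A ^ 3 * B / c)) := by
  have hB : 1 ≤ B := hA.trans hAB
  have hc0 : 0 < c := by linarith
  have hB0 : 0 < B := by linarith
  have hA0 : 0 < A := by linarith
  have hg0 : 0 < g := by linarith
  have hD2 : D ^ 2 ≤ F ^ 2 := by nlinarith
  have hF2 : F ≤ F ^ 2 := by nlinarith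
  have hF1 : 1 ≤ F ^ 2 := by nlinarith
  have hBc : B / c ≤ K := by rw [div_le_iff₀ hc0]; exact hBK
  set x := A ^ 3 * B / c with hx
  have hx0 : 0 ≤ x := by positivity
  have hSN : 0 ≤ S8 * N := by positivity
  have hG : Fs * F ^ 2 ≤ Fs * F ^ 2 := le_rfl
  have hFsF : F ^ 2 ≤ Fs * F ^ 2 := by nlinarith
  -- first term
  have hVg : V * g ≤ 4 * S8 * Fs * A * N := by
    have h1 : 1 / B ≤ 1 / g := one_div_le_one_div_of_le hg0 hgB
    have h2 : 2 * S8 * Fs * A * N * (1 / g + 1 / B) ≤ 2 * S8 * Fs * A * N * (2 / g) := by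
      refine mul_le_mul_of_nonneg_left ?_ (by positivity)
      have : (2 : ℝ) / g = 1 / g + 1 / g := by ring
      rw [this]; linarith
    have h3 : V * g ≤ 2 * S8 * Fs * A * N * (2 / g) * g :=
      mul_le_mul_of_nonneg_right (hV2.trans h2) hg0.le
    refine h3.trans (le_of_eq ?_)
    field_simp
    ring
  have hAB1 : A * B / c * A ^ 2 = x := by rw [hx]; ring
  have t1 : 2 * B * g / c * (V * (4 * A ^ 2 + (4 * A ^ 2 * B / c) * (4 * D ^ 2))) ≤
      160 * K * (Fs * F ^ 2) * (S8 * N * x) := by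
    have h1 : 2 * B * g / c * (V * (4 * A ^ 2 + (4 * A ^ 2 * B / c) * (4 * D ^ 2))) =
        (V * g) * (2 * (B / c) * A ^ 2 * (4 + 16 * (B / c) * D ^ 2)) := by
      field_simp
      ring
    rw [h1]
    have h2 : 4 + 16 * (B / c) * D ^ 2 ≤ 20 * K * F ^ 2 := by
      have h3 : 16 * (B / c) * D ^ 2 ≤ 16 * K * F ^ 2 :=
        mul_le_mul (by linarith) hD2 (by positivity) (by positivity)
      have h4 : 1 ≤ K * F ^ 2 := by nlinarith
      linarith
    calc (V * g) * (2 * (B / c) * A ^ 2 * (4 + 16 * (B / c) * D ^ 2))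
        ≤ (4 * S8 * Fs * A * N) * (2 * (B / c) * A ^ 2 * (20 * K * F ^ 2)) := by
          refine mul_le_mul hVg ?_ (by positivity) (by positivity)
          exact mul_le_mul_of_nonneg_left h2 (by positivity)
      _ = 160 * K * (Fs * F ^ 2) * (S8 * N * (A * B / c * A ^ 2)) := by ring
      _ = _ := by rw [hAB1]
  have hABx : A * B / c ≤ x := by
    rw [← hAB1]
    have : 1 ≤ A ^ 2 := by nlinarith
    exact le_mul_of_one_le_right (by positivity) this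
  have hx2 : A ^ 3 * B ^ 2 / c ^ 2 ≤ K * x := by
    have : A ^ 3 * B ^ 2 / c ^ 2 = (B / c) * x := by rw [hx]; field_simp
    rw [this]
    exact mul_le_mul_of_nonneg_right hBc hx0
  have hKx : x ≤ K * x := le_mul_of_one_le_left hx0 hK
  have t2 : 2 * B * g / c * (V * ((4 * A / g) * (4 * A ^ 2 * B / c + 1) * (4 * D ^ 2))) ≤
      160 * K * (Fs * F ^ 2) * (S8 * N * x) := by
    have h1 : 2 * B * g / c * (V * ((4 * A / g) * (4 * A ^ 2 * B / c + 1) * (4 * D ^ 2))) =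
        V * (32 * D ^ 2 * (4 * (A ^ 3 * B ^ 2 / c ^ 2) + A * B / c)) := by
      field_simp
      ring
    rw [h1]
    have h2 : 4 * (A ^ 3 * B ^ 2 / c ^ 2) + A * B / c ≤ 5 * K * x := by linarith
    calc V * (32 * D ^ 2 * (4 * (A ^ 3 * B ^ 2 / c ^ 2) + A * B / c))
        ≤ (S8 * N) * (32 * (Fs * F ^ 2) * (5 * K * x)) := by
          refine mul_le_mul hV ?_ (by positivity) hSN
          refine mul_le_mul (by linarith) h2 (by positivity) (by positivity)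
      _ = _ := by ring
  have t3 : 2 * B * g / c * (16 * A ^ 3 / c * S) ≤ 96 * K * (Fs * F ^ 2) * (S8 * N * x) := by
    have h1 : 2 * B * g / c * (16 * A ^ 3 / c * S) ≤
        2 * B * B / c * (16 * A ^ 3 / c * (S8 * N * (F * (2 + c / B)))) := by
      have h2 : 16 * A ^ 3 / c * S ≤ 16 * A ^ 3 / c * (S8 * N * (F * (2 + c / B))) :=
        mul_le_mul_of_nonneg_left hS (by positivity)
      calc 2 * B * g / c * (16 * A ^ 3 / c * S)
          ≤ 2 * B * g / c * (16 * A ^ 3 / c * (S8 * N * (F * (2 + c / B)))) :=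
            mul_le_mul_of_nonneg_left h2 (by positivity)
        _ ≤ _ := by
            refine mul_le_mul_of_nonneg_right ?_ (by positivity)
            refine div_le_div_of_nonneg_right ?_ hc0.le
            exact mul_le_mul_of_nonneg_left hgB (by positivity)
    refine h1.trans ?_
    have h3 : 2 * B * B / c * (16 * A ^ 3 / c * (S8 * N * (F * (2 + c / B)))) =
        (S8 * N) * (F * (64 * (A ^ 3 * B ^ 2 / c ^ 2) + 32 * x)) := by
      rw [hx]; field_simp; ring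
    rw [h3]
    have h4 : 64 * (A ^ 3 * B ^ 2 / c ^ 2) + 32 * x ≤ 96 * K * x := by linarith
    calc (S8 * N) * (F * (64 * (A ^ 3 * B ^ 2 / c ^ 2) + 32 * x))
        ≤ (S8 * N) * ((Fs * F ^ 2) * (96 * K * x)) := by
          refine mul_le_mul_of_nonneg_left ?_ hSN
          exact mul_le_mul (by linarith) h4 (by positivity) (by positivity)
      _ = _ := by ring
  have hsplit : 2 * B * g / c * (V * (4 * A ^ 2 + (4 * A / g) * (4 * A ^ 2 * B / c + 1) * (4 * D ^ 2) +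
      (4 * A ^ 2 * B / c) * (4 * D ^ 2)) + 16 * A ^ 3 / c * S) =
      2 * B * g / c * (V * (4 * A ^ 2 + (4 * A ^ 2 * B / c) * (4 * D ^ 2))) +
      2 * B * g / c * (V * ((4 * A / g) * (4 * A ^ 2 * B / c + 1) * (4 * D ^ 2))) +
      2 * B * g / c * (16 * A ^ 3 / c * S) := by ring
  rw [hsplit]
  have hfin : 0 ≤ 416 * K * (Fs * F ^ 2) * (S8 * N * A ^ 2) := by positivity
  have hfin2 : 416 * K * (Fs * F ^ 2) * (S8 * N * (A ^ 2 + x)) =
      416 * K * (Fs * F ^ 2) * (S8 * N * A ^ 2) + (160 * K * (Fs * F ^ 2) * (S8 * N * x) +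
        160 * K * (Fs * F ^ 2) * (S8 * N * x) + 96 * K * (Fs * F ^ 2) * (S8 * N * x)) := by ring
  rw [hfin2]
  linarith

/-- real inequality for `T' g` -/
theorem main_r3 (A B c K F D S8 N P T' g Fs : ℝ) (hA : 1 ≤ A) (hAB : A ≤ B) (hc : 1 ≤ c)
    (hK : 1 ≤ K) (hBK : B ≤ K * c) (hF : 1 ≤ F) (hFs : 1 ≤ Fs) (hg : 1 ≤ g) (hgc : g ≤ c)
    (hD0 : 0 ≤ D) (hD : D ≤ F) (hN : 0 ≤ N) (h8 : 0 ≤ S8)
    (hP : P ≤ 2 * S8 * Fs * A * N * (1 / g + 1 / B)) (hT : T' ≤ P * (24 * A * D)) :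
    2 * B * g / c * T' ≤ 416 * K * (Fs * F ^ 2) * (S8 * N * (A ^ 2 + A ^ 3 * B / c)) := by
  have hB : 1 ≤ B := hA.trans hAB
  have hc0 : 0 < c := by linarith
  have hB0 : 0 < B := by linarith
  have hA0 : 0 < A := by linarith
  have hg0 : 0 < g := by linarith
  have hF2 : F ≤ F ^ 2 := by nlinarith
  have hBc : B / c ≤ K := by rw [div_le_iff₀ hc0]; exact hBK
  have hgc' : g / c ≤ 1 := by rw [div_le_one hc0]; exact hgc
  have h1 : T' ≤ 2 * S8 * Fs * A * N * (1 / g + 1 / B) * (24 * A * F) := by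
    calc T' ≤ P * (24 * A * D) := hT
      _ ≤ 2 * S8 * Fs * A * N * (1 / g + 1 / B) * (24 * A * D) :=
          mul_le_mul_of_nonneg_right hP (by positivity)
      _ ≤ _ := mul_le_mul_of_nonneg_left (by nlinarith) (by positivity)
  have h2 : 2 * B * g / c * T' ≤ 96 * (Fs * F) * (S8 * N * A ^ 2) * (B / c + g / c) := by
    calc 2 * B * g / c * T' ≤ 2 * B * g / c *
          (2 * S8 * Fs * A * N * (1 / g + 1 / B) * (24 * A * F)) :=
          mul_le_mul_of_nonneg_left h1 (by positivity)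
      _ = _ := by field_simp; ring
  have h3 : 96 * (Fs * F) * (S8 * N * A ^ 2) * (B / c + g / c) ≤
      96 * (Fs * F ^ 2) * (S8 * N * A ^ 2) * (K + 1) := by
    refine mul_le_mul ?_ (by linarith) (by positivity) (by positivity)
    refine mul_le_mul_of_nonneg_right ?_ (by positivity)
    have : Fs * F ≤ Fs * F ^ 2 := mul_le_mul_of_nonneg_left hF2 (by linarith)
    linarith
  have h4 : 0 ≤ (Fs * F ^ 2) * (S8 * N * A ^ 2) := by positivity
  have h5 : 0 ≤ (Fs * F ^ 2) * (S8 * N * (A ^ 3 * B / c)) := by positivity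
  calc 2 * B * g / c * T' ≤ 96 * (Fs * F ^ 2) * (S8 * N * A ^ 2) * (K + 1) := h2.trans h3
    _ ≤ 416 * K * (Fs * F ^ 2) * (S8 * N * A ^ 2) := by nlinarith
    _ ≤ _ := by
        have : 0 ≤ 416 * K * ((Fs * F ^ 2) * (S8 * N * (A ^ 3 * B / c))) := by positivity
        nlinarith

/-- The bound for one `γ`. -/
theorem main_one (hP : StP) (hS : StS) (hT : StT) (hT' : StT') (hRel : StRel) (hFib : StFib)
    (c : ℕ) (a b γ : ℤ) (s A B : ℕ) (K F : ℝ) (hc : 1 ≤ c)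
    (ha : IsCoprime a c) (hb : IsCoprime b c) (hγ : (c : ℤ) ∣ γ ^ 2 - 1) (hA : 1 ≤ A)
    (hAB : A ≤ B) (hK : 1 ≤ K) (hBK : (B : ℝ) ≤ K * c) (hF : 1 ≤ F) (hτ : τ c ≤ F)
    (hD : ∀ j : ℕ, 1 ≤ j → j ≤ 2 * A ^ 2 * B → τ j ≤ F)
    (hdec : DecidablePred fun l => Rel c a b γ l) :
    (((bx (J c A) (I B) (s + 3)).filter fun l => Rel c a b γ l).card : ℝ) ≤
      (3 * K) * ((2 * F) * (416 * K * (F ^ s * F ^ 2) *
        (8 ^ s * ((A : ℝ) * B) ^ s * ((A : ℝ) ^ 2 + (A : ℝ) ^ 3 * B / c)))) := by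
  have hA' : (1 : ℝ) ≤ A := by exact_mod_cast hA
  have hAB' : (A : ℝ) ≤ B := by exact_mod_cast hAB
  have hc' : (1 : ℝ) ≤ c := by exact_mod_cast hc
  have hc0 : (0 : ℝ) < c := by linarith
  have hB1 : 1 ≤ B := hA.trans hAB
  have hτ0 : 0 ≤ τ c := zero_le_one.trans (one_le_τ hc)
  have hN : (0 : ℝ) ≤ ((A : ℝ) * B) ^ s := by positivity
  have h8 : (0 : ℝ) ≤ 8 ^ s := by positivity
  have hFs : 1 ≤ F ^ s := one_le_pow₀ hF
  have h68 : (6 * (A : ℝ) * B) ^ s ≤ 8 ^ s * ((A : ℝ) * B) ^ s := by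
    rw [← mul_pow, ← mul_assoc]
    refine pow_le_pow_left₀ (by positivity) ?_ s
    nlinarith [show (0 : ℝ) ≤ (A : ℝ) * B by positivity]
  obtain ⟨hS1, hS2⟩ := hS c a b s A B hc ha hb hA hB1
  have hSg : (∑ t ∈ bx (J c A) (I B) s, (Int.gcd (E a b t 0 0) c : ℝ)) ≤
      8 ^ s * ((A : ℝ) * B) ^ s * (F * (2 + c / B)) := by
    refine hS1.trans ?_
    refine mul_le_mul h68 ?_ (by positivity) (by positivity)
    exact mul_le_mul_of_nonneg_right hτ (by positivity)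
  have hV : ∀ g, (V c a b s A B g : ℝ) ≤ 8 ^ s * ((A : ℝ) * B) ^ s := fun g =>
    (main_V_le c a b s A B g).trans (hS2.trans h68)
  have hPg : ∀ g, g ∣ c → (P c a b s A B g : ℝ) ≤
      2 * 8 ^ s * F ^ s * A * ((A : ℝ) * B) ^ s * (1 / g + 1 / B) := by
    intro g hg
    refine (hP c a b s A B g hc ha hb hA hAB hg).trans ?_
    refine mul_le_mul_of_nonneg_right ?_ (by positivity)
    have h1 : (2 : ℝ) * 8 ^ s * τ c ^ s * (A : ℝ) ^ (s + 1) * (B : ℝ) ^ s =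
        (2 * 8 ^ s * A * ((A : ℝ) * B) ^ s) * τ c ^ s := by
      rw [mul_pow]; ring
    have h2 : (2 : ℝ) * 8 ^ s * F ^ s * A * ((A : ℝ) * B) ^ s =
        (2 * 8 ^ s * A * ((A : ℝ) * B) ^ s) * F ^ s := by ring
    rw [h1, h2]
    refine mul_le_mul_of_nonneg_left ?_ (by positivity)
    exact pow_le_pow_left₀ hτ0 hτ s
  set Q := 8 ^ s * ((A : ℝ) * B) ^ s * ((A : ℝ) ^ 2 + (A : ℝ) ^ 3 * B / c) with hQ
  have hQ0 : 0 ≤ Q := by positivity
  have hT1 : (T c a b γ s A B 1 : ℝ) ≤ 416 * K * (F ^ s * F ^ 2) * Q := by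
    have h1 := hT c a b γ s A B 1 F hc ha hb hγ hA hAB (one_dvd c) hD
    have h2 := main_r1 A B c F F (8 ^ s) (((A : ℝ) * B) ^ s) (V c a b s A B 1)
      (∑ t ∈ bx (J c A) (I B) s, (Int.gcd (E a b t 0 0) c : ℝ)) hA' hAB' hc' hF (by linarith)
      le_rfl hN h8 (hV 1) hSg
    rw [Nat.cast_one] at h1
    refine (h1.trans h2).trans ?_
    refine mul_le_mul_of_nonneg_right ?_ hQ0
    have h3 : F ^ 2 ≤ F ^ s * F ^ 2 := le_mul_of_one_le_left (by positivity) hFs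
    have h4 : F ^ s * F ^ 2 ≤ K * (F ^ s * F ^ 2) := le_mul_of_one_le_left (by positivity) hK
    have h5 : 0 ≤ F ^ s * F ^ 2 := by positivity
    nlinarith
  have hTg : ∀ g ∈ c.divisors, 2 * B * (g : ℝ) / c *
      (if g < B then (T c a b γ s A B g : ℝ) else T' c a b γ s A B g) ≤
      416 * K * (F ^ s * F ^ 2) * Q := by
    intro g hg
    have hgc : g ∣ c := Nat.dvd_of_mem_divisors hg
    have hg1 : 1 ≤ g := Nat.pos_of_dvd_of_pos hgc hc
    have hg1' : (1 : ℝ) ≤ g := by exact_mod_cast hg1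
    split_ifs with hgB
    · have h1 := hT c a b γ s A B g F hc ha hb hγ hA hAB hgc hD
      have h2 := main_r2 A B c K F F (8 ^ s) (((A : ℝ) * B) ^ s) (V c a b s A B g)
        (∑ t ∈ bx (J c A) (I B) s, (Int.gcd (E a b t 0 0) c : ℝ)) g (F ^ s) hA' hAB' hc' hK hBK hF
        hFs hg1' (by exact_mod_cast hgB.le) (by linarith) le_rfl hN h8 (hV g)
        ((main_V_le_P c a b s A B g).trans (hPg g hgc)) hSg
      exact (mul_le_mul_of_nonneg_left h1 (by positivity)).trans h2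
    · have h1 := hT' c a b γ s A B g F hc ha hb hγ hA hAB hgc (not_lt.1 hgB)
        (fun j h1 h2 => hD j h1 (h2.trans (by nlinarith [Nat.mul_le_mul hA hA, Nat.zero_le B])))
      exact main_r3 A B c K F F (8 ^ s) (((A : ℝ) * B) ^ s) (P c a b s A B g)
        (T' c a b γ s A B g) g (F ^ s) hA' hAB' hc' hK hBK hF hFs hg1'
        (by exact_mod_cast Nat.le_of_dvd hc hgc) (by linarith) le_rfl hN h8 (hPg g hgc) h1
  have hcount := main_count hRel hFib c a b γ s A B hc ha hb hγ hdec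
  refine hcount.trans ?_
  have hBc : (2 : ℝ) * B / c + 1 ≤ 3 * K := by
    have : (B : ℝ) / c ≤ K := by rw [div_le_iff₀ hc0]; exact hBK
    have h2 : (2 : ℝ) * B / c = 2 * (B / c) := by ring
    linarith
  have hsum : (T c a b γ s A B 1 : ℝ) + ∑ g ∈ c.divisors, 2 * B * (g : ℝ) / c *
      (if g < B then (T c a b γ s A B g : ℝ) else T' c a b γ s A B g) ≤
      (2 * F) * (416 * K * (F ^ s * F ^ 2) * Q) := by
    have h1 := sum_le_card_nsmul c.divisors _ _ hTg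
    rw [nsmul_eq_mul] at h1
    have h2 : (c.divisors.card : ℝ) ≤ F := hτ
    have h3 : 0 ≤ 416 * K * (F ^ s * F ^ 2) * Q := by positivity
    nlinarith
  refine mul_le_mul hBc hsum ?_ (by positivity)
  have h3 : ∀ g ∈ c.divisors, 0 ≤ 2 * B * (g : ℝ) / c *
      (if g < B then (T c a b γ s A B g : ℝ) else T' c a b γ s A B g) := by
    intro g _
    split_ifs <;> positivity
  exact add_nonneg (Nat.cast_nonneg _) (sum_nonneg h3)

/-- The main count. -/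
theorem stMain (hSqrt : StSqrt) (hP : StP) (hS : StS) (hT : StT) (hT' : StT') (hRel : StRel)
    (hFib : StFib)
    (hdiv : ∀ ε : ℝ, 0 < ε → ∃ C : ℝ, 1 ≤ C ∧ ∀ n : ℕ, 1 ≤ n → τ n ≤ C * (n : ℝ) ^ ε) :
    StMain := by
  intro s K ε hK hε
  have hs4 : (0 : ℝ) < 3 * (s + 4) := by positivity
  set δ := ε / (3 * (s + 4)) with hδ
  have hδ0 : 0 < δ := div_pos hε hs4
  obtain ⟨Cd, hCd, hCdiv⟩ := hdiv δ hδ0
  set C1 := Cd * (2 * K ^ 3) ^ δ with hC1
  have hK3 : (1 : ℝ) ≤ 2 * K ^ 3 := by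
    have := one_le_pow₀ (n := 3) hK
    linarith
  have hC1' : 1 ≤ C1 := by
    have := Real.one_le_rpow hK3 hδ0.le
    nlinarith
  refine ⟨4992 * K ^ 2 * 8 ^ s * C1 ^ (s + 4), by positivity, ?_⟩
  intro c a b A B hc ha hb hA hAB hBK
  classical
  have hc' : (1 : ℝ) ≤ c := by exact_mod_cast hc
  have hc0 : (0 : ℝ) < c := by linarith
  have hA' : (1 : ℝ) ≤ A := by exact_mod_cast hA
  have hAB' : (A : ℝ) ≤ B := by exact_mod_cast hAB
  set F := C1 * (c : ℝ) ^ (3 * δ) with hFdef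
  have hc3 : 1 ≤ (c : ℝ) ^ (3 * δ) := Real.one_le_rpow hc' (by positivity)
  have hF : 1 ≤ F := by nlinarith
  have hτ : τ c ≤ F := by
    refine (hCdiv c hc).trans ?_
    have h1 : (c : ℝ) ^ δ ≤ (c : ℝ) ^ (3 * δ) := Real.rpow_le_rpow_of_exponent_le hc' (by linarith)
    have h2 : Cd ≤ C1 := le_mul_of_one_le_right (by linarith) (Real.one_le_rpow hK3 hδ0.le)
    exact mul_le_mul h2 h1 (by positivity) (by linarith)
  have hD : ∀ j : ℕ, 1 ≤ j → j ≤ 2 * A ^ 2 * B → τ j ≤ F := by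
    intro j hj1 hj2
    refine (hCdiv j hj1).trans ?_
    have h1 : (j : ℝ) ≤ 2 * K ^ 3 * (c : ℝ) ^ 3 := by
      have h2 : (j : ℝ) ≤ 2 * (A : ℝ) ^ 2 * B := by exact_mod_cast hj2
      refine h2.trans ?_
      have h3 : (A : ℝ) ^ 2 ≤ (B : ℝ) ^ 2 := pow_le_pow_left₀ (by positivity) hAB' 2
      have h4 : (B : ℝ) ^ 3 ≤ (K * c) ^ 3 := pow_le_pow_left₀ (by positivity) hBK 3
      have h5 : 2 * (A : ℝ) ^ 2 * B ≤ 2 * (B : ℝ) ^ 2 * B := by
        refine mul_le_mul_of_nonneg_right ?_ (by positivity)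
        linarith
      calc 2 * (A : ℝ) ^ 2 * B ≤ 2 * (B : ℝ) ^ 3 := by nlinarith
        _ ≤ 2 * (K * c) ^ 3 := by linarith
        _ = _ := by ring
    have h6 : (j : ℝ) ^ δ ≤ (2 * K ^ 3 * (c : ℝ) ^ 3) ^ δ :=
      Real.rpow_le_rpow (by positivity) h1 hδ0.le
    have h7 : ((c : ℝ) ^ 3) ^ δ = (c : ℝ) ^ (3 * δ) := by
      rw [← Real.rpow_natCast (c : ℝ) 3, ← Real.rpow_mul hc0.le]
      norm_num
    rw [Real.mul_rpow (by positivity) (by positivity), h7] at h6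
    rw [hFdef, hC1, mul_assoc]
    exact mul_le_mul_of_nonneg_left h6 (by linarith)
  have hN0 : (N0 c a b (s + 3) A B : ℝ) ≤ ∑ γ ∈ Γ c,
      (((bx (J c A) (I B) (s + 3)).filter fun l => Rel c a b (γ : ℤ) l).card : ℝ) := by
    rw [N0]
    have h1 : ((bx (J c A) (I B) (s + 3)).filter fun l => ∃ γ ∈ Γ c, Rel c a b γ l) ⊆
        (Γ c).biUnion fun γ => (bx (J c A) (I B) (s + 3)).filter fun l => Rel c a b (γ : ℤ) l := by
      intro l hl
      obtain ⟨hl1, γ, hγ, hl2⟩ := mem_filter.1 hl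
      exact mem_biUnion.2 ⟨γ, hγ, mem_filter.2 ⟨hl1, hl2⟩⟩
    have h2 := (card_le_card h1).trans card_biUnion_le
    exact_mod_cast h2
  set Z := (3 * K) * ((2 * F) * (416 * K * (F ^ s * F ^ 2) *
        (8 ^ s * ((A : ℝ) * B) ^ s * ((A : ℝ) ^ 2 + (A : ℝ) ^ 3 * B / c)))) with hZ
  have hZ0 : 0 ≤ Z := by positivity
  have hbound : (N0 c a b (s + 3) A B : ℝ) ≤ 2 * F * Z := by
    refine hN0.trans ?_
    have h1 : ∀ γ ∈ Γ c,
        (((bx (J c A) (I B) (s + 3)).filter fun l => Rel c a b (γ : ℤ) l).card : ℝ) ≤ Z := by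
      intro γ hγ
      refine main_one hP hS hT hT' hRel hFib c a b γ s A B K F hc ha hb ?_ hA hAB hK hBK hF hτ hD _
      exact (mem_filter.1 hγ).2
    have h2 := sum_le_card_nsmul (Γ c) _ _ h1
    rw [nsmul_eq_mul] at h2
    refine h2.trans (mul_le_mul_of_nonneg_right ?_ hZ0)
    exact (hSqrt c hc).trans (by linarith)
  refine hbound.trans (le_of_eq ?_)
  have hFpow : F ^ (s + 4) = C1 ^ (s + 4) * (c : ℝ) ^ ε := by
    rw [hFdef, mul_pow, ← Real.rpow_natCast ((c : ℝ) ^ (3 * δ)), ← Real.rpow_mul hc0.le]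
    congr 2
    rw [hδ]
    push_cast
    field_simp
  have h1 : 2 * F * Z = 4992 * K ^ 2 * 8 ^ s * F ^ (s + 4) *
      (((A : ℝ) * B) ^ s * ((A : ℝ) ^ 2 + (A : ℝ) ^ 3 * B / c)) := by
    rw [hZ]; ring
  rw [h1, hFpow]
  have h2 : ((A : ℝ) * B) ^ s * ((A : ℝ) ^ 2 + (A : ℝ) ^ 3 * B / c) =
      (A : ℝ) ^ (s + 2) * (B : ℝ) ^ s + (A : ℝ) ^ (s + 3) * (B : ℝ) ^ (s + 1) / c := by
    rw [mul_pow]; ring
  rw [h2]
  ring

end Pool.Agent.Helper56.SW
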